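import Pool.Agent.OMP.Defs
import Pool.Agent.CMD.CHK

/-!
# OMP/CCK: counting checks, substitution

PROOF.  `cnt t (pre X (s + 1)) = cnt t (pre X s) + (if t (pre X (s + 1)) then 1 else 0)` (`take_pre`, `List.range_succ`); compare `pcn` in CMD/PI2.  So `cnt` is unbounded along `X` iff `Inf t X`.
`mts`: write `mts l n = (l.all (·.1), (l.map (·.2)).foldl min n)`, or induction on `n` with `List.range_succ`, `List.map_append`, `List.foldl_append`: `mts` for `n + 1` is
`meet (mts for n) (κ n σ)`; then `Hd_meet`, `Gd_meet`, and `Hd_const`, `Gd_const` for `n = 0`.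
`Gd_sub`: `per`: if `|fnl l (pre X s)|` is unbounded there is `Y` with `Maps (fnl l) X Y` (`exists_maps`), `fnl l (pre X s) = pre Y t` (`maps_pre`) with `t → ∞` (`maps_len`), so `κ` is true at infinitely many
`pre Y t`, use `h.per Y`; otherwise `fnl l (pre X s)` is constant from some `s` on.  `Hd_sub`: the counter is at most `|fnl l σ|`, so `Y` exists; `h.per Y` and `h.mono`.
-/

set_option autoImplicit false

namespace Pool.Agent.OMP

open Encodable Nat.Partrec Pool.Agent.H19 Pool.Agent.AEI Pool.Agent.CMG Pool.Agent.CMD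

private theorem cnt_pre (t : List Bool → Bool) (X : ℕ → Bool) (s : ℕ) :
    cnt t (pre X s) = ((List.range s).filter fun i => t (pre X (i + 1))).length := by
  unfold cnt
  rw [pre_length]
  congr 1
  apply List.filter_congr
  intro i hi
  have := List.mem_range.1 hi
  rw [pre_take X (by omega)]

private theorem cnt_succ (t : List Bool → Bool) (X : ℕ → Bool) (s : ℕ) :
    cnt t (pre X (s + 1)) = cnt t (pre X s) + if t (pre X (s + 1)) = true then 1 else 0 := by
  rw [cnt_pre, cnt_pre, List.range_succ, List.filter_append, List.length_append]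
  congr 1
  by_cases h : t (pre X (s + 1)) = true <;> simp [h]

private theorem cnt_mono (t : List Bool → Bool) {σ τ : List Bool} (h : σ <+: τ) : cnt t σ ≤ cnt t τ := by
  unfold cnt
  have h1 : ((List.range σ.length).filter fun i => t (σ.take (i + 1))) =
      (List.range σ.length).filter fun i => t (τ.take (i + 1)) := by
    apply List.filter_congr
    intro i hi
    have h2 := List.mem_range.1 hi
    obtain ⟨ρ, rfl⟩ := h
    rw [List.take_append_of_le_length (by omega)]
  rw [h1]
  exact ((List.range_sublist.2 h.length_le).filter _).length_le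

theorem Gd_ctk (t : List Bool → Bool) : Gd (ctk t) := by
  refine ⟨fun σ τ h => cnt_mono t h, fun σ => ?_, fun X _ => ⟨0, fun _ _ => rfl⟩⟩
  show cnt t σ ≤ σ.length
  unfold cnt
  exact (List.length_filter_le _ _).trans (by rw [List.length_range])

theorem Hd_ctk {t : List Bool → Bool} {X : ℕ → Bool} : Hd (ctk t) X ↔ Inf t X := by
  constructor
  · rintro ⟨-, h⟩ N
    by_contra hc
    push Not at hc
    have h1 : ∀ k, cnt t (pre X (N + k)) ≤ cnt t (pre X N) := by
      intro k
      induction k with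
      | zero => exact le_rfl
      | succ k ih =>
        have h2 := hc (N + k + 1) (by omega)
        have h3 : cnt t (pre X (N + (k + 1))) = cnt t (pre X (N + k)) + 0 := by
          rw [← Nat.add_assoc, cnt_succ, if_neg h2]
        omega
    obtain ⟨s0, hs0⟩ := h (cnt t (pre X N) + 1)
    have h4 : cnt t (pre X N) + 1 ≤ cnt t (pre X (N + s0)) := hs0 (N + s0) (by omega)
    have h5 := h1 s0
    omega
  · intro h
    refine ⟨⟨0, fun _ _ => rfl⟩, fun N => ?_⟩
    have h1 : ∃ s, N ≤ cnt t (pre X s) := by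
      induction N with
      | zero => exact ⟨0, Nat.zero_le _⟩
      | succ N ih =>
        obtain ⟨s, hs⟩ := ih
        obtain ⟨s', h2, h3⟩ := h (s + 1)
        obtain ⟨k, rfl⟩ : ∃ k, s' = k + 1 := ⟨s' - 1, by omega⟩
        refine ⟨k + 1, ?_⟩
        have h4 : cnt t (pre X s) ≤ cnt t (pre X k) := cnt_mono t (pre_mono X (by omega))
        rw [cnt_succ, if_pos h3]
        omega
    obtain ⟨s, hs⟩ := h1
    exact ⟨s, fun s' hs' => hs.trans (cnt_mono t (pre_mono X hs'))⟩

private theorem mts_succ (n : ℕ) (κ : ℕ → List Bool → Chk) (σ : List Bool) :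
    mts ((List.range (n + 1)).map fun i => κ i σ) σ.length =
      meet (mts ((List.range n).map fun i => κ i σ) σ.length) (κ n σ) := by
  unfold mts
  rw [List.range_succ, List.map_append, List.foldl_append]
  rfl

theorem Gd_mts {n : ℕ} {κ : ℕ → List Bool → Chk} (h : ∀ i < n, Gd (κ i)) :
    Gd fun σ => mts ((List.range n).map fun i => κ i σ) σ.length := by
  induction n with
  | zero => exact Gd_const true
  | succ n ih =>
    simp only [mts_succ]
    exact Gd_meet (ih fun i hi => h i (by omega)) (h n (by omega))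

theorem Hd_mts {n : ℕ} {κ : ℕ → List Bool → Chk} {X : ℕ → Bool} :
    Hd (fun σ => mts ((List.range n).map fun i => κ i σ) σ.length) X ↔ ∀ i < n, Hd (κ i) X := by
  induction n with
  | zero => exact ⟨fun _ i hi => absurd hi (Nat.not_lt_zero i), fun _ => (Hd_const true).2 rfl⟩
  | succ n ih =>
    simp only [mts_succ]
    rw [Hd_meet, ih]
    constructor
    · rintro ⟨h1, h2⟩ i hi
      rcases Nat.lt_succ_iff_lt_or_eq.1 hi with h3 | h3
      · exact h1 i h3
      · subst h3
        exact h2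
    · intro h
      exact ⟨fun i hi => h i (by omega), h n (by omega)⟩

theorem Gd_sub {κ : List Bool → Chk} (h : Gd κ) (l : List ℕ) : Gd fun σ => κ (fnl l σ) := by
  refine ⟨fun σ τ hs => h.mono _ _ (fnl_mono l _ _ hs), fun σ => (h.len _).trans (fnl_len l σ), fun X hX => ?_⟩
  by_cases hu : ∀ n, ∃ s, n ≤ (fnl l (pre X s)).length
  · obtain ⟨Y, hY⟩ := exists_maps hu
    obtain ⟨t0, ht0⟩ := h.per Y fun N => by
      obtain ⟨s0, hs0⟩ := maps_len (fnl_mono l) hY N
      obtain ⟨s, hs, h1⟩ := hX s0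
      refine ⟨(fnl l (pre X s)).length, hs0 s hs, ?_⟩
      rw [← maps_pre (fnl_mono l) hY s]
      exact h1
    obtain ⟨s0, hs0⟩ := maps_len (fnl_mono l) hY t0
    refine ⟨s0, fun s hs => ?_⟩
    have h1 := ht0 _ (hs0 s hs)
    rw [← maps_pre (fnl_mono l) hY s] at h1
    exact h1
  · push Not at hu
    obtain ⟨n, hn⟩ := hu
    have h1 : ∃ s0, ∀ s ≥ s0, (fnl l (pre X s)).length ≤ (fnl l (pre X s0)).length := by
      by_contra hc
      push Not at hc
      have h2 : ∀ k, ∃ s, k ≤ (fnl l (pre X s)).length := by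
        intro k
        induction k with
        | zero => exact ⟨0, Nat.zero_le _⟩
        | succ k ih =>
          obtain ⟨s, hs⟩ := ih
          obtain ⟨s', _, h3⟩ := hc s
          exact ⟨s', by omega⟩
      obtain ⟨s, hs⟩ := h2 n
      have := hn s
      omega
    obtain ⟨s0, hs0⟩ := h1
    have h2 : ∀ s ≥ s0, fnl l (pre X s0) = fnl l (pre X s) := fun s hs =>
      (fnl_mono l _ _ (pre_mono X hs)).eq_of_length
        (le_antisymm (fnl_mono l _ _ (pre_mono X hs)).length_le (hs0 s hs))
    obtain ⟨s1, h3, h4⟩ := hX s0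
    refine ⟨s0, fun s hs => ?_⟩
    show (κ (fnl l (pre X s))).1 = true
    rw [← h2 s hs, h2 s1 h3]
    exact h4

theorem Hd_sub {κ : List Bool → Chk} (h : Gd κ) {l : List ℕ} {X : ℕ → Bool} :
    Hd (fun σ => κ (fnl l σ)) X ↔ ∃ Y, Maps (fnl l) X Y ∧ Hd κ Y := by
  constructor
  · rintro ⟨⟨s0, h1⟩, h2⟩
    obtain ⟨Y, hY⟩ : ∃ Y, Maps (fnl l) X Y := exists_maps fun n => by
      obtain ⟨s, hs⟩ := h2 n
      exact ⟨s, (hs s le_rfl).trans (h.len _)⟩
    refine ⟨Y, hY, h.per Y fun N => ?_, fun N => ?_⟩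
    · obtain ⟨s1, hs1⟩ := maps_len (fnl_mono l) hY N
      refine ⟨(fnl l (pre X (max s0 s1))).length, hs1 _ (le_max_right _ _), ?_⟩
      rw [← maps_pre (fnl_mono l) hY]
      exact h1 _ (le_max_left _ _)
    · obtain ⟨s1, hs1⟩ := h2 N
      have h3 : N ≤ (κ (fnl l (pre X s1))).2 := hs1 s1 le_rfl
      rw [maps_pre (fnl_mono l) hY s1] at h3
      exact ⟨_, fun t ht => h3.trans (h.mono _ _ (pre_mono Y ht))⟩
  · rintro ⟨Y, hY, ⟨t0, h1⟩, h2⟩
    refine ⟨?_, fun N => ?_⟩
    · obtain ⟨s0, hs0⟩ := maps_len (fnl_mono l) hY t0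
      refine ⟨s0, fun s hs => ?_⟩
      show (κ (fnl l (pre X s))).1 = true
      rw [maps_pre (fnl_mono l) hY s]
      exact h1 _ (hs0 s hs)
    · obtain ⟨t1, ht1⟩ := h2 N
      obtain ⟨s0, hs0⟩ := maps_len (fnl_mono l) hY t1
      refine ⟨s0, fun s hs => ?_⟩
      show N ≤ (κ (fnl l (pre X s))).2
      rw [maps_pre (fnl_mono l) hY s]
      exact ht1 _ (hs0 s hs)

end Pool.Agent.OMP
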