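import Pool.Agent.OMP.Defs

/-!
# OMP: Pi_2 and Sigma_3 families of sets of sequences (definitions)
-/

set_option autoImplicit false

namespace Pool.Agent.OMP

open Encodable Nat.Partrec Pool.Agent.H19 Pool.Agent.AEI Pool.Agent.CMG Pool.Agent.CMD

/-- The sets `A a` are `Π₂`, uniformly in `a`. -/
def P2f {α : Type} [Primcodable α] (A : α → (ℕ → Bool) → Prop) : Prop :=
  ∃ t : α → List Bool → Bool, Computable₂ t ∧ ∀ a X, A a X ↔ Inf (t a) X

/-- The sets `A a` are `Σ₃`, uniformly in `a`. -/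
def S3f {α : Type} [Primcodable α] (A : α → (ℕ → Bool) → Prop) : Prop :=
  ∃ t : α × ℕ → List Bool → Bool, Computable₂ t ∧ ∀ a X, A a X ↔ ∃ w, Inf (t (a, w)) X

end Pool.Agent.OMP
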