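import Pool.Agent.OMP.LPS
import Pool.Agent.CMG.GPO
import Pool.Agent.CMD.CPP

/-!
# OMP/CPS: computability of the checks

PROOF.  `comp_cer` (Defs).  Combinators of H19/CompList (`comp_list_foldl`, `comp_list_map`, `comp_list_filter`, `comp_list_all`, `comp_list_any`, `comp_ite`, `comp_and`, `comp_or`, `comp_not`, `comp_decEq`, `comp_decLt`,
`comp_decLe`, `comp_take`, `comp_range`), `comp_meet`, `comp_min`, `comp_fnl` (CMD/CFA), `Primrec.list_getD`, `Computable.decode`, `Computable.option_getD`.
Prove first, in the style of CMG/GCE (everything depends on `a : α`, `g : α → ℕ → List Bool → Chk` with `hg : Computable fun x : α × (ℕ × List Bool) => g x.1 x.2.1 x.2.2`):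
`fir (g a (y a)) (σ a)` (`σ.dropLast`: `comp_dropLast` of CMG/CC), `stb`, `ptk`, `cnt`, `mts` (`comp_list_foldl`), `itk`, `Psi`.  `bd` is computable: see CMG/GPO and CMD/CPP (there it may be private:
then use `Computable.nat_rec` for `bl`).  `comp_KK`: `comp_rc`, `loc_Psi`, `cmp_Psi`.
-/

set_option autoImplicit false

namespace Pool.Agent.OMP

open Encodable Nat.Partrec Pool.Agent.H19 Pool.Agent.AEI Pool.Agent.CMG Pool.Agent.CMD

private theorem cps_bl_rec (u i : ℕ) :
    bl u i = Nat.rec (motive := fun _ => ℕ) 0 (fun _ r => Nat.pair u r + 1) i := by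
  induction i with
  | zero => rfl
  | succ i ih => show Nat.pair u (bl u i) + 1 = _; rw [ih]

private theorem cps_comp_bl {α : Type} [Primcodable α] {u i : α → ℕ} (hu : Computable u) (hi : Computable i) :
    Computable fun a => bl (u a) (i a) := by
  have hs : Computable₂ fun (a : α) (q : ℕ × ℕ) => Nat.pair (u a) q.2 + 1 :=
    Computable.succ.comp (comp_natpair (hu.comp Computable.fst) (Computable.snd.comp Computable.snd))
  exact (Computable.nat_rec hi (Computable.const 0) hs).of_eq fun a => (cps_bl_rec _ _).symm

private theorem cps_comp_bd {α : Type} [Primcodable α] {u : α → ℕ} (hu : Computable u) :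
    Computable fun a => bd (u a) :=
  Computable.succ.comp (comp_natpair (Computable.const 1) (comp_natpair (cps_comp_bl hu hu) hu))

theorem comp_dsc {α : Type} [Primcodable α] {z : α → ℕ} (hz : Computable z) : Computable fun a => dsc (z a) :=
  Computable.fst.comp (Computable.fst.comp (Computable.fst.comp (comp_cer.comp hz)))

private theorem comp_wit {α : Type} [Primcodable α] {z : α → ℕ} (hz : Computable z) :
    Computable fun a => wit (z a) :=
  Computable.snd.comp (Computable.fst.comp (Computable.fst.comp (comp_cer.comp hz)))

private theorem comp_its {α : Type} [Primcodable α] {z : α → ℕ} (hz : Computable z) :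
    Computable fun a => its (z a) :=
  Computable.snd.comp (Computable.fst.comp (comp_cer.comp hz))

private theorem comp_dm {α : Type} [Primcodable α] {d : α → Dsc} (hd : Computable d) :
    Computable fun a => dm (d a) := Computable.fst.comp hd

private theorem comp_dc {α : Type} [Primcodable α] {d : α → Dsc} (hd : Computable d) :
    Computable fun a => dc (d a) := Computable.snd.comp (Computable.snd.comp hd)

private theorem comp_itm {α : Type} [Primcodable α] {z i : α → ℕ} (hz : Computable z) (hi : Computable i) :
    Computable fun a => itm (z a) (i a) :=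
  (Primrec.list_getD (0, 0)).to_comp.comp (comp_its hz) hi

private theorem comp_cnw {α : Type} [Primcodable α] {z i : α → ℕ} (hz : Computable z) (hi : Computable i) :
    Computable fun a => cnw (z a) (i a) :=
  (Primrec.list_getD []).to_comp.comp (comp_dc (comp_dsc hz)) hi

private theorem comp_umx {α : Type} [Primcodable α] {z : α → ℕ} (hz : Computable z) :
    Computable fun a => umx (z a) := by
  have h1 : Computable fun a => (its (z a)).map Prod.snd :=
    comp_list_map (g := fun (_ : α) (x : ℕ × ℕ) => x.2) (comp_its hz) (Computable.snd.comp Computable.snd)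
  exact comp_list_foldl (h := fun (_ : α) (x : ℕ × ℕ) => max x.1 x.2) h1 (comp_dm (comp_dsc hz))
    (comp_max (Computable.fst.comp Computable.snd) (Computable.snd.comp Computable.snd))

theorem comp_cnt {α : Type} [Primcodable α] {t : α → List Bool → Bool} {σ : α → List Bool} (ht : Computable₂ t)
    (hσ : Computable σ) : Computable fun a => cnt (t a) (σ a) := by
  refine Computable.list_length.comp (comp_list_filter (g := fun a i => t a ((σ a).take (i + 1)))
    (comp_range (Computable.list_length.comp hσ)) ?_)
  exact ht.comp Computable.fst (comp_take (Computable.succ.comp Computable.snd) (hσ.comp Computable.fst))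

theorem comp_sta {α : Type} [Primcodable α] {z : α → ℕ} (hz : Computable z) : Computable fun a => sta (z a) :=
  comp_and (comp_decEq (Computable.list_length.comp (comp_its hz))
    (Computable.list_length.comp (comp_dc (comp_dsc hz))))
    (comp_decLe (cps_comp_bd (comp_umx hz)) hz)

private theorem comp_ctk {α : Type} [Primcodable α] {t : α → List Bool → Bool} {σ : α → List Bool}
    (ht : Computable₂ t) (hσ : Computable σ) : Computable fun a => ctk (t a) (σ a) :=
  (Computable.const true).pair (comp_cnt ht hσ)

private theorem comp_mts {α : Type} [Primcodable α] {l : α → List Chk} {n : α → ℕ} (hl : Computable l)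
    (hn : Computable n) : Computable fun a => mts (l a) (n a) :=
  comp_list_foldl (h := fun (_ : α) (x : Chk × Chk) => meet x.1 x.2) hl ((Computable.const true).pair hn)
    (comp_meet (Computable.fst.comp Computable.snd) (Computable.snd.comp Computable.snd))

private theorem comp_firg {α : Type} [Primcodable α] {g : α → ℕ → List Bool → Chk} {y : α → ℕ}
    {σ : α → List Bool} (hg : Computable (fun x : α × (ℕ × List Bool) => g x.1 x.2.1 x.2.2))
    (hy : Computable y) (hσ : Computable σ) : Computable fun a => fir (g a (y a)) (σ a) := by
  have h1 : Computable fun p : α × List Bool => (p.1, (y p.1, p.2)) :=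
    Computable.pair Computable.fst (Computable.pair (hy.comp Computable.fst) Computable.snd)
  have h2 : Computable fun p : α × List Bool => g p.1 (y p.1) p.2 :=
    Computable.comp (f := fun x : α × (ℕ × List Bool) => g x.1 x.2.1 x.2.2)
      (g := fun p : α × List Bool => (p.1, (y p.1, p.2))) hg h1
  have h3 : Computable₂ fun (a : α) (τ : List Bool) => g a (y a) τ := h2
  exact comp_fir (κ := fun a => g a (y a)) h3 hσ

private theorem comp_stb {α : Type} [Primcodable α] {g : α → ℕ → List Bool → Chk} {z k : α → ℕ}
    {σ : α → List Bool} (hg : Computable (fun x : α × (ℕ × List Bool) => g x.1 x.2.1 x.2.2))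
    (hz : Computable z) (hk : Computable k) (hσ : Computable σ) :
    Computable fun a => stb (g a) (z a) (k a) (σ a) := by
  have h1 : Computable₂ fun (a : α) (y : ℕ) => (List.range ((σ a).length + 1)).all fun s =>
      !(decide (k a < s) && fir (g a y) ((σ a).take s)) := by
    have h2 : Computable₂ fun (x : α × ℕ) (s : ℕ) =>
        !(decide (k x.1 < s) && fir (g x.1 x.2) ((σ x.1).take s)) := by
      have h4 : Computable fun x : ((α × ℕ) × ℕ) × (ℕ × List Bool) => (x.1.1.1, x.2) :=
        Computable.pair (Computable.fst.comp (Computable.fst.comp Computable.fst)) Computable.snd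
      have h5 : Computable fun x : ((α × ℕ) × ℕ) × (ℕ × List Bool) => g x.1.1.1 x.2.1 x.2.2 :=
        Computable.comp (f := fun x : α × (ℕ × List Bool) => g x.1 x.2.1 x.2.2)
          (g := fun x : ((α × ℕ) × ℕ) × (ℕ × List Bool) => (x.1.1.1, x.2)) hg h4
      have h6 : Computable fun w : (α × ℕ) × ℕ => fir (g w.1.1 w.1.2) ((σ w.1.1).take w.2) :=
        comp_firg (g := fun w : (α × ℕ) × ℕ => g w.1.1) (y := fun w => w.1.2)
          (σ := fun w => (σ w.1.1).take w.2) h5 (Computable.snd.comp Computable.fst)
          (comp_take Computable.snd (hσ.comp (Computable.fst.comp Computable.fst)))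
      have h7 : Computable fun w : (α × ℕ) × ℕ =>
          !(decide (k w.1.1 < w.2) && fir (g w.1.1 w.1.2) ((σ w.1.1).take w.2)) :=
        comp_not (comp_and (comp_decLt (hk.comp (Computable.fst.comp Computable.fst)) Computable.snd) h6)
      exact h7
    exact comp_list_all
      (comp_range (Computable.succ.comp (Computable.list_length.comp (hσ.comp Computable.fst)))) h2
  have h3 : Computable₂ fun (a : α) (y : ℕ) => fir (g a y) ((σ a).take (k a)) := by
    have h4 : Computable fun x : (α × ℕ) × (ℕ × List Bool) => (x.1.1, x.2) :=
      Computable.pair (Computable.fst.comp Computable.fst) Computable.snd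
    have h5 : Computable fun x : (α × ℕ) × (ℕ × List Bool) => g x.1.1 x.2.1 x.2.2 :=
      Computable.comp (f := fun x : α × (ℕ × List Bool) => g x.1 x.2.1 x.2.2)
        (g := fun x : (α × ℕ) × (ℕ × List Bool) => (x.1.1, x.2)) hg h4
    exact comp_firg (g := fun w : α × ℕ => g w.1) (y := fun w => w.2)
      (σ := fun w => (σ w.1).take (k w.1)) h5 Computable.snd
      (comp_take (hk.comp Computable.fst) (hσ.comp Computable.fst))
  exact comp_and (comp_and (comp_decLe hk (Computable.list_length.comp hσ))
    (comp_list_all (comp_range hz) h1))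
    (comp_or (comp_decEq hk (Computable.const 0)) (comp_list_any (comp_range hz) h3))

theorem comp_ptk {α : Type} [Primcodable α] {g : α → ℕ → List Bool → Chk} {ν : α → ℕ} {σ : α → List Bool}
    (hg : Computable (fun x : α × (ℕ × List Bool) => g x.1 x.2.1 x.2.2)) (hν : Computable ν) (hσ : Computable σ) :
    Computable fun a => ptk (g a) (ν a) (σ a) := by
  have h1 : Computable fun a => (ν a).unpair.1 := Computable.fst.comp (Computable.unpair.comp hν)
  have h2 : Computable fun a => (ν a).unpair.2 := Computable.snd.comp (Computable.unpair.comp hν)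
  have h3 : Computable fun a => (a, ((ν a).unpair.1, σ a)) :=
    Computable.pair Computable.id (Computable.pair h1 hσ)
  have h4 : Computable fun a => g a (ν a).unpair.1 (σ a) :=
    Computable.comp (f := fun x : α × (ℕ × List Bool) => g x.1 x.2.1 x.2.2)
      (g := fun a => (a, ((ν a).unpair.1, σ a))) hg h3
  exact comp_meet h4 ((comp_stb hg h1 h2 hσ).pair (Computable.list_length.comp hσ))

private theorem comp_itk (S : HS) {α : Type} [Primcodable α] {g : α → ℕ → List Bool → Chk} {m : α → ℕ}
    {c : α → List ℕ} {v : α → ℕ × ℕ} {σ : α → List Bool}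
    (hg : Computable (fun x : α × (ℕ × List Bool) => g x.1 x.2.1 x.2.2)) (hm : Computable m)
    (hc : Computable c) (hv : Computable v) (hσ : Computable σ) :
    Computable fun a => itk (g a) S (m a) (c a) (v a) (σ a) := by
  have h1 : Computable fun a => (if decide ((v a).1 = 0) = true then
      ctk (S.tN ((m a, c a), (v a).2)) (σ a) else ptk (g a) (v a).2 (fnl (c a) (σ a))) := by
    refine comp_ite (comp_decEq (Computable.fst.comp hv) (Computable.const 0)) ?_ ?_
    · refine comp_ctk (t := fun a => S.tN ((m a, c a), (v a).2)) ?_ hσ
      exact S.cN.comp (((hm.pair hc).pair (Computable.snd.comp hv)).comp Computable.fst) Computable.snd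
    · exact comp_ptk hg (Computable.snd.comp hv) (comp_fnl hc hσ)
  refine h1.of_eq fun a => ?_
  unfold itk
  by_cases h0 : (v a).1 = 0
  · rw [if_pos h0, if_pos (decide_eq_true h0)]
  · rw [if_neg h0, if_neg (by rw [decide_eq_true_eq]; exact h0)]

theorem cmp_Psi (S : HS) : CmpF (fun g => Psi g S) := by
  intro α _ g z σ hg hz hσ
  refine comp_ite (comp_sta hz) ?_
    ((Computable.const false).pair (Computable.list_length.comp hσ))
  refine comp_meet ?_ (comp_mts ?_ (Computable.list_length.comp hσ))
  · refine comp_ctk (t := fun a => S.tT (dsc (z a), wit (z a))) ?_ hσ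
    exact S.cT.comp (((comp_dsc hz).pair (comp_wit hz)).comp Computable.fst) Computable.snd
  · refine comp_list_map
      (g := fun (a : α) (i : ℕ) => itk (g a) S (dm (dsc (z a))) (cnw (z a) i) (itm (z a) i) (σ a))
      (comp_range (Computable.list_length.comp (comp_its hz))) ?_
    have hz' : Computable fun x : α × ℕ => z x.1 := hz.comp Computable.fst
    have h4 : Computable fun x : (α × ℕ) × (ℕ × List Bool) => (x.1.1, x.2) :=
      Computable.pair (Computable.fst.comp Computable.fst) Computable.snd
    have h5 : Computable fun x : (α × ℕ) × (ℕ × List Bool) => g x.1.1 x.2.1 x.2.2 :=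
      Computable.comp (f := fun x : α × (ℕ × List Bool) => g x.1 x.2.1 x.2.2)
        (g := fun x : (α × ℕ) × (ℕ × List Bool) => (x.1.1, x.2)) hg h4
    have h6 : Computable fun x : α × ℕ =>
        itk (g x.1) S (dm (dsc (z x.1))) (cnw (z x.1) x.2) (itm (z x.1) x.2) (σ x.1) :=
      comp_itk S (g := fun x : α × ℕ => g x.1) (m := fun x => dm (dsc (z x.1)))
        (c := fun x => cnw (z x.1) x.2) (v := fun x => itm (z x.1) x.2) (σ := fun x => σ x.1) h5
        (comp_dm (comp_dsc hz')) (comp_cnw hz' Computable.snd) (comp_itm hz' Computable.snd)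
        (hσ.comp Computable.fst)
    exact h6

theorem comp_KK (S : HS) : Computable₂ (KK S) := comp_rc (loc_Psi S) (cmp_Psi S)

end Pool.Agent.OMP
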