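import Pool.Agent.OMP.KTH

/-!
# OMP/VVL: the successive markers

PROOF.  `ti G n X = sInf {j | Ht G n (F^[j] X)}`: `Nat.sInf_mem (exists_Ht G n X)`, `Nat.notMem_of_lt_sInf`.  `ti_step`, `nh_step`: `Nat.sInf` of the shifted set, `Function.iterate_succ_apply`; or show that `ti G n (F X) + 1` is the least element.
`nh_nh`: if `m ≤ n` no `F^[j] X` with `j < ti G m X` is a marker of level `n` (`Ht_anti`), so `ti G n X = ti G m X + ti G n (nh G m X)` (`ti_add`).  `Vv_succ`: induction with `nh_nh`.  `Vv_Vv`: `Vv_succ`, `nh_nh`, `nh_of_Ht`, or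
`Vv i` of a marker of level `k - 1` is itself for `i ≤ k`; first `Vv_eq_of_Ht`.  `blk_*`: `blk G X i` depends only on `Vv G i X`; it is empty iff `ti G i (Vv G i X) = 0` iff `Ht G i (Vv G i X)`.
-/

set_option autoImplicit false

namespace Pool.Agent.OMP

open Encodable Nat.Partrec Pool.Agent.H19 Pool.Agent.AEI Pool.Agent.CMG Pool.Agent.CMD

variable {G : Dyn} {i k m n : ℕ} {X : ℕ → Bool}

theorem Ht_nh (n : ℕ) (X : ℕ → Bool) : Ht G n (nh G n X) :=
  Nat.sInf_mem (s := {j | Ht G n (G.F^[j] X)}) (exists_Ht G n X)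

theorem not_Ht_lt {j : ℕ} (h : j < ti G n X) : ¬ Ht G n (G.F^[j] X) :=
  Nat.notMem_of_lt_sInf (s := {j | Ht G n (G.F^[j] X)}) h

theorem ti_le {j : ℕ} (h : Ht G n (G.F^[j] X)) : ti G n X ≤ j :=
  Nat.sInf_le (s := {j | Ht G n (G.F^[j] X)}) h

theorem ti_eq_of {j : ℕ} (h : Ht G n (G.F^[j] X)) (h' : ∀ i < j, ¬ Ht G n (G.F^[i] X)) : ti G n X = j :=
  le_antisymm (ti_le h) (not_lt.1 fun hlt => h' _ hlt (Ht_nh n X))

private theorem vvl_ti_zero (h : Ht G n X) : ti G n X = 0 := Nat.le_zero.1 (ti_le (j := 0) h)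

theorem nh_of_Ht (h : Ht G n X) : nh G n X = X := by
  unfold nh
  rw [vvl_ti_zero h]
  rfl

theorem nh_step (h : ¬ Ht G n X) : nh G n X = nh G n (G.F X) := by
  have h1 : ti G n X = ti G n (G.F X) + 1 := by
    refine ti_eq_of ?_ ?_
    · rw [Function.iterate_succ_apply]
      exact Ht_nh n (G.F X)
    · intro i hi
      rcases i with _ | i
      · exact h
      · rw [Function.iterate_succ_apply]
        exact not_Ht_lt (by omega)
  unfold nh
  rw [h1, Function.iterate_succ_apply]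

theorem ti_add (h : m ≤ n) : ti G n X = ti G m X + ti G n (nh G m X) := by
  refine ti_eq_of ?_ ?_
  · rw [add_comm, Function.iterate_add_apply]
    exact Ht_nh n (nh G m X)
  · intro i hi hc
    by_cases h1 : i < ti G m X
    · exact not_Ht_lt h1 (Ht_anti h hc)
    · obtain ⟨j, rfl⟩ := Nat.exists_eq_add_of_le (not_lt.1 h1)
      rw [add_comm, Function.iterate_add_apply] at hc
      exact not_Ht_lt (X := nh G m X) (by omega) hc

theorem nh_nh (h : m ≤ n) : nh G n (nh G m X) = nh G n X := by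
  have h1 : nh G n X = G.F^[ti G m X + ti G n (nh G m X)] X := by
    rw [← ti_add h]
    rfl
  rw [h1, add_comm, Function.iterate_add_apply]
  rfl

theorem Vv_succ (n : ℕ) (X : ℕ → Bool) : Vv G (n + 1) X = nh G n X := by
  induction n with
  | zero => rfl
  | succ n ih =>
    have h1 : Vv G (n + 1 + 1) X = nh G (n + 1) (Vv G (n + 1) X) := rfl
    rw [h1, ih, nh_nh (Nat.le_succ n)]

theorem Vv_Vv (i k : ℕ) (X : ℕ → Bool) : Vv G i (Vv G k X) = Vv G (max i k) X := by
  rcases i with _ | i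
  · rw [Nat.zero_max]
    rfl
  · rcases k with _ | k
    · rw [Nat.max_zero]
      rfl
    · rw [Vv_succ k X, Vv_succ i]
      by_cases h : k ≤ i
      · rw [nh_nh h, max_eq_left (Nat.succ_le_succ h), Vv_succ]
      · have h1 : i ≤ k := (not_le.1 h).le
        rw [nh_of_Ht (Ht_anti h1 (Ht_nh k X)), max_eq_right (Nat.succ_le_succ h1), Vv_succ]

theorem blk_Vv_lt (h : i < k) : blk G (Vv G k X) i = [] := by
  obtain ⟨k, rfl⟩ : ∃ k', k = k' + 1 := ⟨k - 1, by omega⟩
  have h1 : ti G i (Vv G i (Vv G (k + 1) X)) = 0 := by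
    rw [Vv_Vv, max_eq_right h.le, Vv_succ]
    exact vvl_ti_zero (Ht_anti (Nat.le_of_lt_succ h) (Ht_nh k X))
  unfold blk
  rw [h1]
  rfl

theorem blk_Vv_ge (h : k ≤ i) : blk G (Vv G k X) i = blk G X i := by
  have h1 : Vv G i (Vv G k X) = Vv G i X := by rw [Vv_Vv, max_eq_left h]
  unfold blk
  rw [h1]

theorem Vv_eq_self (h : ∀ j < i, blk G X j = []) : Vv G i X = X := by
  induction i with
  | zero => rfl
  | succ i ih =>
    have h1 : Vv G i X = X := ih fun j hj => h j (Nat.lt_succ_of_lt hj)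
    have h2 := h i (Nat.lt_succ_self i)
    unfold blk at h2
    have h3 : ti G i (Vv G i X) = 0 := by
      have h4 := congrArg List.length h2
      simpa using h4
    have h4 : Vv G (i + 1) X = G.F^[ti G i (Vv G i X)] (Vv G i X) := rfl
    rw [h4, h3]
    exact h1

end Pool.Agent.OMP
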