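import Pool.Agent.OMP.ORB
import Pool.Agent.OMP.VVL

/-!
# OMP/DAI: blocks and conditions

PROOF.  From left to right: for `i ≤ |cs|`: `Vv G i X = F^[js cs i] X` and `G.D (F^[j] X)` for `j < js cs i` (induction on `i`: `js cs (i + 1) = js cs i + |sq cs i|` for `i < |cs|` (`List.take_succ`, `List.flatten_append`), `ti G i (Vv G i X) = |blk G X i| = |sq cs i|`,
`Function.iterate_add_apply`, `not_Ht_lt`, `D_of_not_Ht`); this is `dat_time`.  A condition of `qsI i (js cs i) (sq cs i)` is `(js + r, (i, digit + 1))` with `r < |sq cs i|`: `Y = F^[js + r] X = F^[r] (Vv G i X)` (`maps_rp`), not a marker (`not_Ht_lt`), digit by the definition of `blk`;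
or `(js + |sq cs i|, (i, 0))`: `Ht_nh`.
From right to left: by induction on `i ≤ |cs|`: `blk G X i' = sq cs i'` for `i' < i` (so `dat_time` applies to `cs.take i`).  All the `Y`'s are `F^[j] X` (`maps_rp` needs `G.D (F^[j'] X)` for `j' < j`: strong induction, these are not markers), so `ti G i (Vv G i X) = |sq cs i|` by `ti_eq_of` and the digits agree.
-/

set_option autoImplicit false

namespace Pool.Agent.OMP

open Encodable Nat.Partrec Pool.Agent.H19 Pool.Agent.AEI Pool.Agent.CMG Pool.Agent.CMD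

variable {e : ℕ} {t : List Bool → Bool} {G : Dyn} {X : ℕ → Bool} {cs : List (List ℕ)}

theorem js_succ {i : ℕ} (h : i < cs.length) : js cs (i + 1) = js cs i + (sq cs i).length := by
  unfold js sq
  rw [List.take_add_one, List.flatten_append, List.length_append]
  simp [List.getD_eq_getElem?_getD, List.getElem?_eq_getElem h]

private theorem blk_len (i : ℕ) : (blk G X i).length = ti G i (Vv G i X) := by
  simp [blk]

private theorem blk_getD {i r : ℕ} (h : r < ti G i (Vv G i X)) :
    (blk G X i).getD r 0 = G.κ (G.F^[r] (Vv G i X)) := by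
  simp [blk, List.getD_eq_getElem?_getD, h]

private theorem dat_time' {i : ℕ} (hd : ∀ i' < i, blk G X i' = sq cs i') (hi : i ≤ cs.length) :
    Vv G i X = G.F^[js cs i] X ∧ ∀ j < js cs i, G.D (G.F^[j] X) := by
  induction i with
  | zero =>
    refine ⟨by simp [js, Vv], fun j hj => ?_⟩
    simp [js] at hj
  | succ i ih =>
    obtain ⟨h1, h2⟩ := ih (fun i' hi' => hd i' (by omega)) (by omega)
    have hlen : ti G i (Vv G i X) = (sq cs i).length := by
      rw [← blk_len, hd i (by omega)]
    have hjs := js_succ (cs := cs) (i := i) (by omega)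
    refine ⟨?_, fun j hj => ?_⟩
    · show nh G i (Vv G i X) = _
      unfold nh
      rw [hlen, hjs, h1, ← Function.iterate_add_apply, Nat.add_comm]
    · by_cases hj' : j < js cs i
      · exact h2 j hj'
      · have : j = (j - js cs i) + js cs i := by omega
        have hlt : j - js cs i < ti G i (Vv G i X) := by omega
        rw [this, Function.iterate_add_apply, ← h1]
        exact D_of_not_Ht (not_Ht_lt hlt)

theorem dat_time (hd : Dat G X cs) {i : ℕ} (hi : i ≤ cs.length) :
    Vv G i X = G.F^[js cs i] X ∧ ∀ j < js cs i, G.D (G.F^[j] X) :=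
  dat_time' (fun i' hi' => hd i' (by omega)) hi

private theorem mem_qs {q : ℕ × (ℕ × ℕ)} : q ∈ qs cs ↔ ∃ i < cs.length,
    (∃ r < (sq cs i).length, q = (js cs i + r, (i, (sq cs i).getD r 0 + 1))) ∨
      (q = (js cs i + (sq cs i).length, (i, 0)) ∧ i < cs.length) := by
  constructor
  · intro h
    simp only [qs, qsI, List.mem_flatMap, List.mem_append, List.mem_map, List.mem_singleton, List.mem_range] at h
    obtain ⟨i, hi, h⟩ := h
    rcases h with ⟨r, hr, rfl⟩ | rfl
    · exact ⟨i, hi, Or.inl ⟨r, hr, rfl⟩⟩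
    · exact ⟨i, hi, Or.inr ⟨rfl, hi⟩⟩
  · rintro ⟨i, hi, h⟩
    simp only [qs, qsI, List.mem_flatMap, List.mem_append, List.mem_map, List.mem_singleton, List.mem_range]
    rcases h with ⟨r, hr, rfl⟩ | ⟨rfl, -⟩
    · exact ⟨i, hi, Or.inl ⟨r, hr, rfl⟩⟩
    · exact ⟨i, hi, Or.inr rfl⟩

private theorem iter_add (F : (ℕ → Bool) → (ℕ → Bool)) (a r : ℕ) (X : ℕ → Bool) :
    F^[a + r] X = F^[r] (F^[a] X) := by
  rw [← Function.iterate_add_apply, Nat.add_comm]

private theorem dat_mp (h : Rp e t G) (hd : Dat G X cs) :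
    ∀ q ∈ qs cs, ∃ Y, Maps (fnl (rp e q.1)) X Y ∧ St G Y q.2 := by
  intro q hq
  obtain ⟨i, hi, hq⟩ := mem_qs.1 hq
  obtain ⟨h1, -⟩ := dat_time hd hi.le
  obtain ⟨-, h3⟩ := dat_time hd (i := i + 1) hi
  rw [js_succ hi] at h3
  have hlen : ti G i (Vv G i X) = (sq cs i).length := by rw [← blk_len, hd i hi]
  rcases hq with ⟨r, hr, rfl⟩ | ⟨rfl, -⟩
  · refine ⟨G.F^[js cs i + r] X, maps_rp h fun j hj => h3 j (by simp only at hj; omega), Or.inr ?_⟩
    simp only
    rw [iter_add, ← h1]
    refine ⟨not_Ht_lt (by omega), ?_⟩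
    rw [← hd i hi, blk_getD (by omega)]
  · refine ⟨G.F^[js cs i + (sq cs i).length] X, maps_rp h fun j hj => h3 j hj, Or.inl ⟨rfl, ?_⟩⟩
    simp only
    rw [iter_add, ← h1, ← hlen]
    exact Ht_nh i (Vv G i X)

private theorem dat_step (h : Rp e t G) (hc : ∀ q ∈ qs cs, ∃ Y, Maps (fnl (rp e q.1)) X Y ∧ St G Y q.2)
    {i : ℕ} (hi : i < cs.length) (hd : ∀ i' < i, blk G X i' = sq cs i') : blk G X i = sq cs i := by
  obtain ⟨h1, h2⟩ := dat_time' hd hi.le
  have key : ∀ r ≤ (sq cs i).length, (∀ j < js cs i + r, G.D (G.F^[j] X)) ∧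
      ∀ r' < r, ¬ Ht G i (G.F^[r'] (Vv G i X)) ∧ G.κ (G.F^[r'] (Vv G i X)) = (sq cs i).getD r' 0 := by
    intro r
    induction r with
    | zero => exact fun _ => ⟨fun j hj => h2 j (by omega), fun r' hr' => by omega⟩
    | succ r ih =>
      intro hr
      obtain ⟨ih1, ih2⟩ := ih (by omega)
      obtain ⟨Y, hY, hS⟩ := hc _ (mem_qs.2 ⟨i, hi, Or.inl ⟨r, by omega, rfl⟩⟩)
      have hY' := maps_uniq hY (maps_rp h ih1)
      subst hY'
      rw [iter_add, ← h1] at hS
      rcases hS with ⟨h0, -⟩ | ⟨hS1, hS2⟩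
      · simp at h0
      · simp only at hS1 hS2
        refine ⟨fun j hj => ?_, fun r' hr' => ?_⟩
        · by_cases hj' : j < js cs i + r
          · exact ih1 j hj'
          · have : j = js cs i + r := by omega
            rw [this, iter_add, ← h1]
            exact D_of_not_Ht hS1
        · by_cases hr'' : r' < r
          · exact ih2 r' hr''
          · have : r' = r := by omega
            subst this
            exact ⟨hS1, by omega⟩
  obtain ⟨k1, k2⟩ := key _ le_rfl
  have hHt : Ht G i (G.F^[(sq cs i).length] (Vv G i X)) := by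
    obtain ⟨Y, hY, hS⟩ := hc _ (mem_qs.2 ⟨i, hi, Or.inr ⟨rfl, hi⟩⟩)
    have hY' := maps_uniq hY (maps_rp h k1)
    subst hY'
    rw [iter_add, ← h1] at hS
    rcases hS with ⟨-, h0⟩ | ⟨-, hS2⟩
    · exact h0
    · simp at hS2
  have hti : ti G i (Vv G i X) = (sq cs i).length := ti_eq_of hHt fun r hr => (k2 r hr).1
  refine List.ext_getElem (by rw [blk_len, hti]) fun r hr1 hr2 => ?_
  have e1 : (blk G X i)[r] = (blk G X i).getD r 0 := by simp [List.getD_eq_getElem?_getD, hr1]
  have e2 : (sq cs i)[r] = (sq cs i).getD r 0 := by simp [List.getD_eq_getElem?_getD, hr2]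
  rw [e1, e2, blk_getD (by omega), (k2 r hr2).2]

theorem dat_iff (h : Rp e t G) :
    Dat G X cs ↔ ∀ q ∈ qs cs, ∃ Y, Maps (fnl (rp e q.1)) X Y ∧ St G Y q.2 := by
  refine ⟨dat_mp h, fun hc => ?_⟩
  have key : ∀ i ≤ cs.length, ∀ i' < i, blk G X i' = sq cs i' := by
    intro i
    induction i with
    | zero => exact fun _ i' hi' => absurd hi' (by omega)
    | succ i ih =>
      intro hi i' hi'
      have ih' := ih (by omega)
      by_cases hii : i' < i
      · exact ih' i' hii
      · have : i' = i := by omega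
        subst this
        exact dat_step h hc (by omega) ih'
  exact fun i hi => key _ le_rfl i hi

end Pool.Agent.OMP
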