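import Pool.Agent.OMP.Defs

/-!
# OMP: the dynamics of one partial map (definitions)

`G.F` is a map of sequences, `G.D` the set on which we consider it, `G.κ X` a number (a digit) which
together with `G.F X` determines `X`.  `Ht G n X`: the sequence `X` is a marker of level `n`; the markers
become fewer with increasing `n`, every orbit contains markers of every level (`exists_Ht`), and
only the last sequence of a finite orbit or the least sequence of a periodic orbit is a marker of all levels.
`nh G n X` is the first marker of level `n` on the orbit of `X`.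
-/

set_option autoImplicit false

namespace Pool.Agent.OMP

open Encodable Nat.Partrec Pool.Agent.H19 Pool.Agent.AEI Pool.Agent.CMG Pool.Agent.CMD

/-- The number with binary digits `X 0, ..., X (n - 1)`. -/
def nm : ℕ → (ℕ → Bool) → ℕ
  | 0, _ => 0
  | n + 1, X => 2 * nm n X + (X n).toNat

structure Dyn where
  F : (ℕ → Bool) → (ℕ → Bool)
  D : (ℕ → Bool) → Prop
  κ : (ℕ → Bool) → ℕ

section

variable (G : Dyn)

/-- The orbit of `X` stays in `D`. -/
def Orb (X : ℕ → Bool) : Prop := ∀ j, G.D (G.F^[j] X)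

/-- The first `n` bits of `X` are the least ones on the rest of its orbit, and they occur again. -/
def Cc (n : ℕ) (X : ℕ → Bool) : Prop :=
  (∀ k ≥ 1, nm n X ≤ nm n (G.F^[k] X)) ∧ ∃ k ≥ 1, nm n (G.F^[k] X) = nm n X

def Per (X : ℕ → Bool) : Prop := ∃ p ≥ 1, G.F^[p] X = X

/-- `X` is a marker of level `n`. -/
def Ht (n : ℕ) (X : ℕ → Bool) : Prop :=
  ¬ G.D X ∨ (Orb G X ∧ Cc G n X ∧ ((∃ m, ¬ Cc G m X) ∨ Per G X))

/-- The time of the first marker of level `n` on the orbit of `X`. -/
noncomputable def ti (n : ℕ) (X : ℕ → Bool) : ℕ := sInf {j | Ht G n (G.F^[j] X)}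

/-- The first marker of level `n` on the orbit of `X`. -/
noncomputable def nh (n : ℕ) (X : ℕ → Bool) : ℕ → Bool := G.F^[ti G n X] X

/-- The successive markers. -/
noncomputable def Vv : ℕ → (ℕ → Bool) → (ℕ → Bool)
  | 0, X => X
  | n + 1, X => nh G n (Vv n X)

/-- The digits of the way from `Vv G i X` to `Vv G (i + 1) X`. -/
noncomputable def blk (X : ℕ → Bool) (i : ℕ) : List ℕ :=
  (List.range (ti G i (Vv G i X))).map fun j => G.κ (G.F^[j] (Vv G i X))

end

/-! ### Sequences of blocks -/

/-- The greatest `k ≤ n` such that the first `k` blocks have codes `≤ n`. -/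
def kk (n : ℕ) (c : ℕ → List ℕ) : ℕ := Nat.findGreatest (fun k => ∀ i < k, encode (c i) ≤ n) n

/-- One of these blocks is not empty. -/
def ntv (n : ℕ) (c : ℕ → List ℕ) : Prop := ∃ i < kk n c, c i ≠ []

/-- `m` is the least number with this property. -/
def lvl (m : ℕ) (c : ℕ → List ℕ) : Prop := ntv m c ∧ ∀ n < m, ¬ ntv n c

section

variable (G : Dyn)

/-- The root of `X` at level `n`. -/
noncomputable def rt (n : ℕ) (X : ℕ → Bool) : ℕ → Bool := Vv G (kk n (blk G X)) X

def Lv (X : ℕ → Bool) (m : ℕ) : Prop := lvl m (blk G X)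

def Nx (X Z : ℕ → Bool) : Prop := ∃ m, Lv G X m ∧ Z = rt G m X

end

/-! ### Descriptions -/

/-- The dynamics is computable: `F` is given by the functional `e` and `D` by the test `t`. -/
structure Rp (e : ℕ) (t : List Bool → Bool) (G : Dyn) : Prop where
  comp : Computable t
  dom : ∀ X, G.D X ↔ Inf t X
  map : ∀ X, G.D X → Maps (fn e) X (G.F X)
  bck : ∀ X, G.D X → Maps (fn (G.κ X)) (G.F X) X
  min : ∀ X k, G.D X → Maps (fn k) (G.F X) X → G.κ X ≤ k

/-- The way of `j` steps. -/
def rp (e j : ℕ) : List ℕ := List.replicate j e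

/-- The list of blocks as a sequence. -/
def sq (cs : List (List ℕ)) (i : ℕ) : List ℕ := cs.getD i []

/-- `X` is a marker of level `i` (`o = 0`), or it is not and its digit is `o - 1`. -/
def St (G : Dyn) (X : ℕ → Bool) (q : ℕ × ℕ) : Prop :=
  (q.2 = 0 ∧ Ht G q.1 X) ∨ (¬ Ht G q.1 X ∧ G.κ X + 1 = q.2)

/-- The conditions `(j, (i, o))` for the block `c` of level `i` which begins at time `j`. -/
def qsI (i j : ℕ) (c : List ℕ) : List (ℕ × (ℕ × ℕ)) :=
  (List.range c.length).map (fun r => (j + r, (i, c.getD r 0 + 1))) ++ [(j + c.length, (i, 0))]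

/-- The beginning of the block number `i`. -/
def js (cs : List (List ℕ)) (i : ℕ) : ℕ := (cs.take i).flatten.length

/-- All the conditions. -/
def qs (cs : List (List ℕ)) : List (ℕ × (ℕ × ℕ)) :=
  (List.range cs.length).flatMap fun i => qsI i (js cs i) (sq cs i)

/-- The blocks of `X` are `cs`. -/
def Dat (G : Dyn) (X : ℕ → Bool) (cs : List (List ℕ)) : Prop := ∀ i < cs.length, blk G X i = sq cs i

/-- All words which are composed of `k` blocks with codes `≤ m`. -/
def cnd (m : ℕ) : ℕ → List (List ℕ)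
  | 0 => [[]]
  | k + 1 => (cnd m k).flatMap fun w => (List.range (m + 1)).map fun i => w ++ Denumerable.ofNat (List ℕ) i

/-- The digits of the first blocks. -/
def wd (m : ℕ) (cs : List (List ℕ)) : List ℕ := (cs.take (kk m (sq cs))).flatten

/-- The description belongs to the blocks `cs`. -/
def TC (e : ℕ) (d : Dsc) (cs : List (List ℕ)) : Prop :=
  cs.length = dm d ∧ lvl (dm d) (sq cs) ∧ da d = rp e (wd (dm d) cs).length ∧ db d = (wd (dm d) cs).reverse ∧
    dc d = (cnd (dm d) (dm d)).map List.reverse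

/-- The blocks `cs` show that there is no level below `m`. -/
def NC (m : ℕ) (cs : List (List ℕ)) : Prop := cs.length = m ∧ ∀ n < m, ¬ lvl n (sq cs)

/-- The relation described by `HT`. -/
def TT (G : Dyn) (e : ℕ) (d : Dsc) (X : ℕ → Bool) : Prop := ∃ cs, Dat G X cs ∧ TC e d cs

/-- The relation described by `HN`. -/
def NN (G : Dyn) (p : ℕ × List ℕ) (X : ℕ → Bool) : Prop :=
  (¬ ∃ Y, Maps (fnl p.2) X Y) ∨ ∃ Y, Maps (fnl p.2) X Y ∧ ∃ cs, Dat G Y cs ∧ NC p.1 cs

end Pool.Agent.OMP
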