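import Pool.Agent.OMP.DDefs
import Pool.Agent.CMG.GUV

/-!
# OMP/DYN: the dynamics of a functional

PROOF.  `F X` is the `Y` with `Maps (fn e) X Y` if it exists (`Classical.choose`), otherwise `X`; `D = Inf t`; `κ X = sInf {k | Maps (fn k) (F X) X}`, nonempty by `exists_fn_of_red` (CMG/GUV).  `Nat.sInf_mem`, `Nat.sInf_le`.
-/

set_option autoImplicit false

namespace Pool.Agent.OMP

open Encodable Nat.Partrec Pool.Agent.H19 Pool.Agent.AEI Pool.Agent.CMG Pool.Agent.CMD

theorem exists_dyn (e : ℕ) {t : List Bool → Bool} (ht : Computable t)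
    (hD : ∀ X, Inf t X → ∃ Y, Maps (fn e) X Y ∧ TuringReducible (chi X) (chi Y)) : ∃ G : Dyn, Rp e t G := by
  classical
  have h0 : ∀ X : ℕ → Bool, ∃ Y : ℕ → Bool,
      Inf t X → (Maps (fn e) X Y ∧ TuringReducible (chi X) (chi Y)) := by
    intro X
    by_cases h : Inf t X
    · obtain ⟨Y, hY⟩ := hD X h
      exact ⟨Y, fun _ => hY⟩
    · exact ⟨X, fun h' => absurd h' h⟩
  choose F hF using h0
  refine ⟨⟨F, Inf t, fun X => sInf {k | Maps (fn k) (F X) X}⟩, ⟨ht, fun X => Iff.rfl, ?_, ?_, ?_⟩⟩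
  · intro X hX
    exact (hF X hX).1
  · intro X hX
    have hne : {k | Maps (fn k) (F X) X}.Nonempty := by
      obtain ⟨k, hk⟩ := exists_fn_of_red (hF X hX).2
      exact ⟨k, hk⟩
    exact Nat.sInf_mem hne
  · intro X k _ hk
    exact Nat.sInf_le hk

end Pool.Agent.OMP
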