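import Pool.Agent.CMD.CFA
import Pool.Agent.CMD.FIR
import Pool.Agent.CMD.POS

/-!
# OMP: pointer systems from a level function and a next function (definitions)

Every sequence `X` has at most one level `m` (`Lv X m`) and, if it has one, a next sequence `Nx X Z`,
whose level is larger.  A description of `X` is `d = (m, ((a, b), cs))`: the level `m`, the way `a`
from `X` to `Z`, the way `b` back, and a list `cs` of ways such that all `Y` with `Nx Y X` are among
the `fnl c X`, `c ∈ cs`.  `HT S X d`: the description `d` of `X` is right; it is a `Σ₃` relation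
(`S.tT (d, w)` fires infinitely often for some `w`).  `HN S X m c`: the sequence `fnl c X` does not exist
or it has no level below `m` (`Σ₃` again).

A certificate `z` codes `(((d, w), items), pad)`: the description `d` with its witness `w` and for every
`c = cs[i]` an item, `(0, w')` (then `HN S X m c` with witness `w'`) or `(k + 1, v)` (then the pointer `v` is
active at `fnl c X`).  The pointer `ν = ⟨z, k⟩` is active at `X` if `z` is the least right certificate and
`k` is the last stage at which a smaller certificate fires.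
-/

set_option autoImplicit false

namespace Pool.Agent.OMP

open Encodable Nat.Partrec Pool.Agent.H19 Pool.Agent.AEI Pool.Agent.CMG Pool.Agent.CMD

/-- The test `t` is true at infinitely many prefixes of `X`. -/
def Inf (t : List Bool → Bool) (X : ℕ → Bool) : Prop := ∀ N, ∃ s ≥ N, t (pre X s) = true

/-! ### Descriptions -/

abbrev Dsc : Type := ℕ × ((List ℕ × List ℕ) × List (List ℕ))

def dm (d : Dsc) : ℕ := d.1
def da (d : Dsc) : List ℕ := d.2.1.1
def db (d : Dsc) : List ℕ := d.2.1.2
def dc (d : Dsc) : List (List ℕ) := d.2.2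

structure HS where
  tT : Dsc × ℕ → List Bool → Bool
  tN : (ℕ × List ℕ) × ℕ → List Bool → Bool
  cT : Computable₂ tT
  cN : Computable₂ tN

def HT (S : HS) (X : ℕ → Bool) (d : Dsc) : Prop := ∃ w, Inf (S.tT (d, w)) X
def HN (S : HS) (X : ℕ → Bool) (m : ℕ) (c : List ℕ) : Prop := ∃ w, Inf (S.tN ((m, c), w)) X

/-- `S` describes the level function and the next function. -/
structure HOK (S : HS) (Lv : (ℕ → Bool) → ℕ → Prop) (Nx : (ℕ → Bool) → (ℕ → Bool) → Prop) : Prop where
  lvu : ∀ X m m', Lv X m → Lv X m' → m = m'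
  nxu : ∀ X Z Z', Nx X Z → Nx X Z' → Z = Z'
  nxl : ∀ X Z, Nx X Z → ∃ m, Lv X m ∧ ∀ m', Lv Z m' → m < m'
  ts : ∀ X d, HT S X d → Lv X (dm d) ∧ ∃ Z, Nx X Z ∧ Maps (fnl (da d)) X Z ∧ Maps (fnl (db d)) Z X
  tp : ∀ X d Y, HT S X d → Nx Y X → ∃ c ∈ dc d, Maps (fnl c) X Y
  tc : ∀ X m, Lv X m → ∃ d, HT S X d
  ns : ∀ X m c Y m', HN S X m c → Maps (fnl c) X Y → Lv Y m' → m ≤ m'
  nc : ∀ X d c, HT S X d → c ∈ dc d → HN S X (dm d) c ∨ ∃ Y m', Maps (fnl c) X Y ∧ Lv Y m' ∧ m' < dm d

/-! ### Certificates -/

abbrev Cer : Type := ((Dsc × ℕ) × List (ℕ × ℕ)) × ℕ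

/-- The certificate with code `z`. -/
@[irreducible] def cer (z : ℕ) : Cer := (decode (α := Cer) z).getD ((((0, (([], []), [])), 0), []), 0)

theorem cer_encode (c : Cer) : cer (encode c) = c := by
  unfold cer
  rw [encodek]
  rfl

theorem comp_cer : Computable cer := by
  unfold cer
  exact Computable.option_getD Computable.decode (Computable.const _)

/-- The description. -/
def dsc (z : ℕ) : Dsc := (cer z).1.1.1
/-- The witness. -/
def wit (z : ℕ) : ℕ := (cer z).1.1.2
/-- The items. -/
def its (z : ℕ) : List (ℕ × ℕ) := (cer z).1.2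
/-- The item number `i`. -/
def itm (z i : ℕ) : ℕ × ℕ := (its z).getD i (0, 0)
/-- The way number `i`. -/
def cnw (z i : ℕ) : List ℕ := (dc (dsc z)).getD i []
/-- A bound for the pointers in the items, and for the level. -/
def umx (z : ℕ) : ℕ := ((its z).map Prod.snd).foldl max (dm (dsc z))
/-- The static conditions. -/
def sta (z : ℕ) : Bool := decide ((its z).length = (dc (dsc z)).length) && decide (bd (umx z) ≤ z)

/-! ### Checks -/

/-- The number of the nonempty initial segments of `σ` at which `t` is true. -/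
def cnt (t : List Bool → Bool) (σ : List Bool) : ℕ :=
  ((List.range σ.length).filter fun i => t (σ.take (i + 1))).length

/-- The check that `t` is true infinitely often. -/
def ctk (t : List Bool → Bool) (σ : List Bool) : Chk := (true, cnt t σ)

/-- All the checks of the list. -/
def mts (l : List Chk) (n : ℕ) : Chk := l.foldl meet (true, n)

section

variable (g : ℕ → List Bool → Chk)

/-- `k` looks like the last stage at which a check `< z` fires. -/
def stb (z k : ℕ) (ρ : List Bool) : Bool :=
  (decide (k ≤ ρ.length) && (List.range z).all fun y => (List.range (ρ.length + 1)).all fun s =>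
      !(decide (k < s) && fir (g y) (ρ.take s))) &&
    (decide (k = 0) || (List.range z).any fun y => fir (g y) (ρ.take k))

/-- The check for the pointer `ν`. -/
def ptk (ν : ℕ) (ρ : List Bool) : Chk :=
  meet (g ν.unpair.1 ρ) (stb g ν.unpair.1 ν.unpair.2 ρ, ρ.length)

/-- The check for the item `v` of the way `c`. -/
def itk (S : HS) (m : ℕ) (c : List ℕ) (v : ℕ × ℕ) (σ : List Bool) : Chk :=
  if v.1 = 0 then ctk (S.tN ((m, c), v.2)) σ else ptk g v.2 (fnl c σ)

/-- The check for the certificate `z`. -/
def Psi (S : HS) (z : ℕ) (σ : List Bool) : Chk :=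
  if sta z = true then
    meet (ctk (S.tT (dsc z, wit z)) σ)
      (mts ((List.range (its z).length).map fun i => itk g S (dm (dsc z)) (cnw z i) (itm z i) σ) σ.length)
  else (false, σ.length)

end

/-! ### Recursion -/

/-- The recursion along the numbers of the checks. -/
def rcN (Ψ : (ℕ → List Bool → Chk) → ℕ → List Bool → Chk) : ℕ → ℕ → List Bool → Chk
  | 0 => fun _ _ => (false, 0)
  | n + 1 => fun z σ => if z = n then Ψ (rcN Ψ n) n σ else rcN Ψ n z σ

def rc (Ψ : (ℕ → List Bool → Chk) → ℕ → List Bool → Chk) (z : ℕ) (σ : List Bool) : Chk := rcN Ψ (z + 1) z σ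

/-- `Ψ g z σ` depends only on the values of the checks `< z` on strings which are not longer than `σ`. -/
def Loc (Ψ : (ℕ → List Bool → Chk) → ℕ → List Bool → Chk) : Prop :=
  ∀ (g g' : ℕ → List Bool → Chk) (z : ℕ) (σ : List Bool),
    (∀ y < z, ∀ ρ : List Bool, ρ.length ≤ σ.length → g y ρ = g' y ρ) → Ψ g z σ = Ψ g' z σ

/-- `Ψ` maps computable functions to computable functions, uniformly. -/
def CmpF (Ψ : (ℕ → List Bool → Chk) → ℕ → List Bool → Chk) : Prop :=
  ∀ (α : Type) (_ : Primcodable α) (g : α → ℕ → List Bool → Chk) (z : α → ℕ) (σ : α → List Bool),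
    Computable (fun x : α × (ℕ × List Bool) => g x.1 x.2.1 x.2.2) → Computable z → Computable σ →
    Computable fun a => Ψ (g a) (z a) (σ a)

/-- The check for the certificate `z`. -/
def KK (S : HS) (z : ℕ) (σ : List Bool) : Chk := rc (fun g => Psi g S) z σ

end Pool.Agent.OMP
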