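import Pool.Agent.OMP.SYS

/-!
# OMP/EXI: the sequences with a level have an active pointer

PROOF.  Strong induction on `m`.  `h.tc` gives `d` with `HT S X d`, witness `w`, and `dm d = m` (`h.ts`, `h.lvu`).  For `c ∈ dc d` there is an item: by `h.nc` either `HN S X m c`, witness `v`: the item `(0, v)`;
or `Maps (fnl c) X Y`, `Lv Y m'`, `m' < m`, and the induction hypothesis gives a pointer `v` active at `Y`: the item `(1, v)`.  Choose a function `f` on ways and let `its = (dc d).map f`.  The number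
`z = encode ((((d, w), its), pad) : Cer)` with `pad = bd u`, `u = (its.map Prod.snd).foldl max (dm d)` satisfies `sta z` (`pad ≤ z`: `Nat.right_le_pair`, `Encodable.encode_prod_val`; `cer z` by `cer_encode`).
So `Hd (KK S z) X` (`Hd_KK`) and `exists_ptk`, `Q_osys`.
-/

set_option autoImplicit false

namespace Pool.Agent.OMP

open Encodable Nat.Partrec Pool.Agent.H19 Pool.Agent.AEI Pool.Agent.CMG Pool.Agent.CMD

private theorem EXI_fields (d : Dsc) (w : ℕ) (l : List (ℕ × ℕ)) (pad : ℕ) :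
    dsc (encode ((((d, w), l), pad) : Cer)) = d ∧ wit (encode ((((d, w), l), pad) : Cer)) = w ∧
      its (encode ((((d, w), l), pad) : Cer)) = l ∧ pad ≤ encode ((((d, w), l), pad) : Cer) := by
  refine ⟨?_, ?_, ?_, ?_⟩
  · unfold dsc; rw [cer_encode]
  · unfold wit; rw [cer_encode]
  · unfold its; rw [cer_encode]
  · rw [Encodable.encode_prod_val]
    exact Nat.right_le_pair _ _

theorem exists_ptr {S : HS} {Lv : (ℕ → Bool) → ℕ → Prop} {Nx : (ℕ → Bool) → (ℕ → Bool) → Prop} (h : HOK S Lv Nx)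
    {X : ℕ → Bool} {m : ℕ} (hL : Lv X m) : ∃ ν, Q (osys S) ν X := by
  induction m using Nat.strong_induction_on generalizing X with
  | _ m ih =>
  obtain ⟨d, hd⟩ := h.tc X m hL
  obtain ⟨w, hw⟩ := id hd
  have hm : dm d = m := h.lvu X _ _ (h.ts X d hd).1 hL
  have hit : ∀ c ∈ dc d, ∃ v : ℕ × ℕ, (v.1 = 0 → Inf (S.tN ((dm d, c), v.2)) X) ∧
      (v.1 ≠ 0 → ∃ Y, Maps (fnl c) X Y ∧ Hd (ptk (KK S) v.2) Y) := by
    intro c hc
    rcases h.nc X d c hd hc with ⟨v, hv⟩ | ⟨Y, m', hY, hLY, hlt⟩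
    · exact ⟨(0, v), fun _ => hv, fun h0 => absurd rfl h0⟩
    · rw [hm] at hlt
      obtain ⟨ν, hν⟩ := ih m' hlt hLY
      exact ⟨(1, ν), fun h0 => absurd h0 (by simp), fun _ => ⟨Y, hY, Q_osys.1 hν⟩⟩
  choose! f hf using hit
  obtain ⟨e1, e2, e3, e4⟩ := EXI_fields d w ((dc d).map f)
    (bd ((((dc d).map f).map Prod.snd).foldl max (dm d)))
  generalize encode ((((d, w), (dc d).map f),
    bd ((((dc d).map f).map Prod.snd).foldl max (dm d))) : Cer) = z at e1 e2 e3 e4
  have hu : umx z = (((dc d).map f).map Prod.snd).foldl max (dm d) := by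
    unfold umx; rw [e1, e3]
  have hs : sta z = true := by
    unfold sta
    rw [e1, e3, hu, Bool.and_eq_true, decide_eq_true_iff, decide_eq_true_iff]
    exact ⟨List.length_map _, e4⟩
  have hz : Hd (KK S z) X := by
    rw [Hd_KK]
    refine ⟨hs, by rw [e1, e2]; exact hw, ?_⟩
    intro i hi
    rw [e3, List.length_map] at hi
    have hi1 : itm z i = f ((dc d)[i]) := by
      unfold itm
      rw [e3, List.getD_eq_getElem _ _ (by rw [List.length_map]; exact hi), List.getElem_map]
    have hi2 : cnw z i = (dc d)[i] := by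
      unfold cnw
      rw [e1, List.getD_eq_getElem _ _ hi]
    rw [hi1, hi2, e1]
    exact hf _ (List.getElem_mem hi)
  obtain ⟨ν, hν⟩ := exists_ptk (Gd_KK S) hz
  exact ⟨ν, Q_osys.2 hν⟩

end Pool.Agent.OMP
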