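import Pool.Agent.OMP.DDefs
import Pool.Agent.OMP.CPS

/-!
# OMP/TCB: computability of the conditions on descriptions

PROOF.  Combinators of H19/CompList.  `comp_qs`: `comp_list_flatMap`, `comp_list_map`, `Computable.list_append`, `Primrec.list_getD`; `flatten` is `flatMap id`.  `comp_kk`: `Nat.findGreatest` as in CMG/CA (`comp_lastI`) or CMG/GCC (`comp_acnt`), or write
`kk n (sq cs)` as the length of `(List.range n).filter fun k => (List.range (k + 1)).all fun i => decide (encode (sq cs i) ≤ n)` (the conditions are monotone).  `ntv n (sq cs)`, `lvl m (sq cs)`: `comp_list_any`, `comp_list_all`; `cnd`: `Computable.nat_rec`;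
`Denumerable.ofNat (List ℕ)`: `Computable.ofNat`.  Equality of lists: `comp_decEq`.
-/

set_option autoImplicit false

namespace Pool.Agent.OMP

open Encodable Nat.Partrec Pool.Agent.H19 Pool.Agent.AEI Pool.Agent.CMG Pool.Agent.CMD

private theorem tcb_sq {α : Type*} [Primcodable α] {cs : α → List (List ℕ)} {i : α → ℕ} (hc : Computable cs)
    (hi : Computable i) : Computable fun a => sq (cs a) (i a) :=
  (Primrec.list_getD ([] : List ℕ)).to_comp.comp hc hi

private theorem tcb_flatten {α : Type*} [Primcodable α] {l : α → List (List ℕ)} (hl : Computable l) :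
    Computable fun a => (l a).flatten := by
  refine (comp_list_flatMap (g := fun (_ : α) (b : List ℕ) => b) hl Computable.snd).of_eq fun a => ?_
  induction l a with
  | nil => rfl
  | cons b l ih => simp [List.flatMap_cons, ih]

private theorem tcb_js {α : Type*} [Primcodable α] {cs : α → List (List ℕ)} {i : α → ℕ} (hc : Computable cs)
    (hi : Computable i) : Computable fun a => js (cs a) (i a) :=
  Computable.list_length.comp (tcb_flatten (comp_take hi hc))

private theorem tcb_add {α : Type*} [Primcodable α] {f g : α → ℕ} (hf : Computable f) (hg : Computable g) :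
    Computable fun a => f a + g a :=
  Primrec.nat_add.to_comp.comp hf hg

private theorem tcb_qsI {α : Type*} [Primcodable α] {i j : α → ℕ} {c : α → List ℕ} (hi : Computable i)
    (hj : Computable j) (hc : Computable c) : Computable fun a => qsI (i a) (j a) (c a) := by
  refine Computable.list_append.comp (comp_list_map (comp_range (Computable.list_length.comp hc))
    (g := fun (a : α) (r : ℕ) => (j a + r, (i a, (c a).getD r 0 + 1))) ?_) ?_
  · refine Computable.pair (tcb_add (hj.comp Computable.fst) Computable.snd)
      (Computable.pair (hi.comp Computable.fst) (Computable.succ.comp ?_))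
    exact (Primrec.list_getD (0 : ℕ)).to_comp.comp (hc.comp Computable.fst) Computable.snd
  · exact Computable.list_cons.comp (Computable.pair (tcb_add hj (Computable.list_length.comp hc))
      (Computable.pair hi (Computable.const 0))) (Computable.const [])

theorem comp_qs : Computable qs := by
  refine comp_list_flatMap (f := fun cs : List (List ℕ) => List.range cs.length)
    (g := fun (cs : List (List ℕ)) (i : ℕ) => qsI i (js cs i) (sq cs i)) (comp_range Computable.list_length) ?_
  exact tcb_qsI Computable.snd (tcb_js Computable.fst Computable.snd) (tcb_sq Computable.fst Computable.snd)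

private theorem tcb_kk {α : Type*} [Primcodable α] {n : α → ℕ} {cs : α → List (List ℕ)} (hn : Computable n)
    (hc : Computable cs) : Computable fun a => kk (n a) (sq (cs a)) := by
  have key : ∀ a : α, kk (n a) (sq (cs a)) = Nat.rec (motive := fun _ => ℕ) 0
      (fun i r => if (List.range (i + 1)).all (fun j => decide (encode (sq (cs a) j) ≤ n a)) then i + 1 else r)
      (n a) := by
    intro a
    have h : ∀ m, Nat.findGreatest (fun k => ∀ i < k, encode (sq (cs a) i) ≤ n a) m =
        Nat.rec (motive := fun _ => ℕ) 0
        (fun i r => if (List.range (i + 1)).all (fun j => decide (encode (sq (cs a) j) ≤ n a)) then i + 1 else r)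
        m := by
      intro m
      induction m with
      | zero => simp
      | succ m ih =>
        rw [Nat.findGreatest_succ, ih]
        simp only [List.all_eq_true, List.mem_range, decide_eq_true_eq]
    exact h _
  have hstep : Computable₂ fun (a : α) (q : ℕ × ℕ) =>
      if (List.range (q.1 + 1)).all (fun j => decide (encode (sq (cs a) j) ≤ n a)) then q.1 + 1 else q.2 := by
    have h1 : Computable fun (x : α × (ℕ × ℕ)) => x.2.1 + 1 :=
      Computable.succ.comp (Computable.fst.comp Computable.snd)
    refine comp_ite (c := fun x : α × (ℕ × ℕ) => (List.range (x.2.1 + 1)).all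
      (fun j => decide (encode (sq (cs x.1) j) ≤ n x.1))) ?_ h1 (Computable.snd.comp Computable.snd)
    refine comp_list_all (g := fun (x : α × (ℕ × ℕ)) (j : ℕ) => decide (encode (sq (cs x.1) j) ≤ n x.1))
      (comp_range h1) ?_
    exact comp_decLe (Computable.encode.comp (tcb_sq (hc.comp (Computable.fst.comp Computable.fst))
      Computable.snd)) (hn.comp (Computable.fst.comp Computable.fst))
  exact (Computable.nat_rec hn (Computable.const 0) hstep).of_eq fun a => (key a).symm

theorem comp_kk {α : Type} [Primcodable α] {n : α → ℕ} {cs : α → List (List ℕ)} (hn : Computable n) (hc : Computable cs) :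
    Computable fun a => kk (n a) (sq (cs a)) := tcb_kk hn hc

private def tcb_ntvb (n : ℕ) (cs : List (List ℕ)) : Bool :=
  (List.range (kk n (sq cs))).any fun i => !decide (sq cs i = [])

private theorem tcb_ntvb_iff (n : ℕ) (cs : List (List ℕ)) : tcb_ntvb n cs = true ↔ ntv n (sq cs) := by
  simp [tcb_ntvb, ntv, List.any_eq_true]

private theorem tcb_comp_ntvb {α : Type*} [Primcodable α] {n : α → ℕ} {cs : α → List (List ℕ)}
    (hn : Computable n) (hc : Computable cs) : Computable fun a => tcb_ntvb (n a) (cs a) := by
  refine comp_list_any (g := fun (a : α) (i : ℕ) => !decide (sq (cs a) i = [])) (comp_range (tcb_kk hn hc)) ?_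
  exact comp_not (comp_decEq (tcb_sq (hc.comp Computable.fst) Computable.snd) (Computable.const []))

private def tcb_lvlb (m : ℕ) (cs : List (List ℕ)) : Bool :=
  tcb_ntvb m cs && (List.range m).all fun n => !tcb_ntvb n cs

private theorem tcb_lvlb_iff (m : ℕ) (cs : List (List ℕ)) : tcb_lvlb m cs = true ↔ lvl m (sq cs) := by
  unfold tcb_lvlb lvl
  rw [Bool.and_eq_true, tcb_ntvb_iff, List.all_eq_true]
  simp only [List.mem_range, Bool.not_eq_true', ← Bool.not_eq_true, tcb_ntvb_iff]

private theorem tcb_comp_lvlb {α : Type*} [Primcodable α] {m : α → ℕ} {cs : α → List (List ℕ)}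
    (hm : Computable m) (hc : Computable cs) : Computable fun a => tcb_lvlb (m a) (cs a) := by
  refine comp_and (tcb_comp_ntvb hm hc) ?_
  refine comp_list_all (g := fun (a : α) (n : ℕ) => !tcb_ntvb n (cs a)) (comp_range hm) ?_
  exact comp_not (tcb_comp_ntvb Computable.snd (hc.comp Computable.fst))

private theorem tcb_ofNat {α : Type*} [Primcodable α] {i : α → ℕ} (hi : Computable i) :
    Computable fun a => Denumerable.ofNat (List ℕ) (i a) := by
  refine (Computable.option_getD ((Computable.decode (α := List ℕ)).comp hi)
    (Computable.const ([] : List ℕ))).of_eq fun a => ?_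
  rw [Denumerable.decode_eq_ofNat]
  rfl

private theorem tcb_cnd {α : Type*} [Primcodable α] {m k : α → ℕ} (hm : Computable m) (hk : Computable k) :
    Computable fun a => cnd (m a) (k a) := by
  have key : ∀ (a : α) (n : ℕ), cnd (m a) n = Nat.rec (motive := fun _ => List (List ℕ)) [[]]
      (fun _ r => r.flatMap fun w => (List.range (m a + 1)).map fun i => w ++ Denumerable.ofNat (List ℕ) i) n := by
    intro a n
    induction n with
    | zero => rfl
    | succ n ih => rw [cnd, ih]
  have hstep : Computable₂ fun (a : α) (q : ℕ × List (List ℕ)) =>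
      (q.2.flatMap fun w => (List.range (m a + 1)).map fun i => w ++ Denumerable.ofNat (List ℕ) i) := by
    refine comp_list_flatMap (f := fun x : α × (ℕ × List (List ℕ)) => x.2.2)
      (g := fun (x : α × (ℕ × List (List ℕ))) (w : List ℕ) =>
        (List.range (m x.1 + 1)).map fun i => w ++ Denumerable.ofNat (List ℕ) i)
      (Computable.snd.comp Computable.snd) ?_
    refine comp_list_map (f := fun y : (α × (ℕ × List (List ℕ))) × List ℕ => List.range (m y.1.1 + 1))
      (g := fun (y : (α × (ℕ × List (List ℕ))) × List ℕ) (i : ℕ) => y.2 ++ Denumerable.ofNat (List ℕ) i)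
      (comp_range (Computable.succ.comp (hm.comp (Computable.fst.comp Computable.fst)))) ?_
    exact Computable.list_append.comp (Computable.snd.comp Computable.fst) (tcb_ofNat Computable.snd)
  exact (Computable.nat_rec hk (Computable.const [[]]) hstep).of_eq fun a => (key a (k a)).symm

private theorem tcb_wd {α : Type*} [Primcodable α] {m : α → ℕ} {cs : α → List (List ℕ)}
    (hm : Computable m) (hc : Computable cs) : Computable fun a => wd (m a) (cs a) :=
  tcb_flatten (comp_take (tcb_kk hm hc) hc)

private theorem tcb_rp {α : Type*} [Primcodable α] {j : α → ℕ} (e : ℕ) (hj : Computable j) :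
    Computable fun a => rp e (j a) := by
  refine (comp_list_map (g := fun (_ : α) (_ : ℕ) => e) (comp_range hj) (Computable.const e)).of_eq fun a => ?_
  simp [rp]

theorem exists_TC (e : ℕ) : ∃ b : Dsc × List (List ℕ) → Bool, Computable b ∧ ∀ x, b x = true ↔ TC e x.1 x.2 := by
  have hdm : Computable fun x : Dsc × List (List ℕ) => dm x.1 := Computable.fst.comp Computable.fst
  have hda : Computable fun x : Dsc × List (List ℕ) => da x.1 :=
    Computable.fst.comp (Computable.fst.comp (Computable.snd.comp Computable.fst))
  have hdb : Computable fun x : Dsc × List (List ℕ) => db x.1 :=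
    Computable.snd.comp (Computable.fst.comp (Computable.snd.comp Computable.fst))
  have hdc : Computable fun x : Dsc × List (List ℕ) => dc x.1 :=
    Computable.snd.comp (Computable.snd.comp Computable.fst)
  have hcs : Computable fun x : Dsc × List (List ℕ) => x.2 := Computable.snd
  have hwd := tcb_wd hdm hcs
  refine ⟨fun x => decide (x.2.length = dm x.1) && (tcb_lvlb (dm x.1) x.2 &&
    (decide (da x.1 = rp e (wd (dm x.1) x.2).length) && (decide (db x.1 = (wd (dm x.1) x.2).reverse) &&
      decide (dc x.1 = (cnd (dm x.1) (dm x.1)).map List.reverse)))), ?_, ?_⟩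
  · refine comp_and (comp_decEq (Computable.list_length.comp hcs) hdm) (comp_and (tcb_comp_lvlb hdm hcs)
      (comp_and (comp_decEq hda (tcb_rp e (Computable.list_length.comp hwd))) (comp_and
        (comp_decEq hdb (Computable.list_reverse.comp hwd)) (comp_decEq hdc ?_))))
    exact comp_list_map (g := fun (_ : Dsc × List (List ℕ)) (w : List ℕ) => w.reverse) (tcb_cnd hdm hdm)
      (Computable.list_reverse.comp Computable.snd)
  · intro x
    simp only [Bool.and_eq_true, decide_eq_true_eq, tcb_lvlb_iff, TC]

theorem exists_NC : ∃ b : ℕ × List (List ℕ) → Bool, Computable b ∧ ∀ x, b x = true ↔ NC x.1 x.2 := by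
  refine ⟨fun x => decide (x.2.length = x.1) && (List.range x.1).all fun n => !tcb_lvlb n x.2, ?_, ?_⟩
  · refine comp_and (comp_decEq (Computable.list_length.comp Computable.snd) Computable.fst) ?_
    refine comp_list_all (g := fun (x : ℕ × List (List ℕ)) (n : ℕ) => !tcb_lvlb n x.2)
      (comp_range Computable.fst) ?_
    exact comp_not (tcb_comp_lvlb Computable.snd (Computable.snd.comp Computable.fst))
  · intro x
    unfold NC
    rw [Bool.and_eq_true, decide_eq_true_eq, List.all_eq_true]
    simp only [List.mem_range, Bool.not_eq_true', ← Bool.not_eq_true, tcb_lvlb_iff]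

end Pool.Agent.OMP
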