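import Pool.Agent.OMP.PRB
import Pool.Agent.OMP.DAI
import Pool.Agent.OMP.TCB

/-!
# OMP/TNS: the descriptions are Sigma_3

PROOF.  `S3_Dat`: `dat_iff`; `S3f.ball` with `L = qs` (`comp_qs`) for the family over `(cs, q)`: `S3f.sub` (way `rp e q.1`, `comp_rp`) of `(S3_St h).comp`.  `S3_TT`: `S3f.ex`, `S3f.and`, `S3_Dat`, `S3f.of (P2f.dec ..)` with `exists_TC`.
`S3_NN`: `S3f.or (S3f.not (P2f.tot ..)) (S3f.sub (S3f.ex ..))` with `exists_NC`.  `exists_HS`: `S.tT`, `S.tN` are the tests of `S3_TT`, `S3_NN`.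
-/

set_option autoImplicit false

namespace Pool.Agent.OMP

open Encodable Nat.Partrec Pool.Agent.H19 Pool.Agent.AEI Pool.Agent.CMG Pool.Agent.CMD

variable {e : ℕ} {t : List Bool → Bool} {G : Dyn}

private theorem S3f_congr {α : Type} [Primcodable α] {A B : α → (ℕ → Bool) → Prop} (h : S3f A)
    (hAB : ∀ a X, B a X ↔ A a X) : S3f B := by
  obtain ⟨t', ht', h4⟩ := h
  exact ⟨t', ht', fun a X => (hAB a X).trans (h4 a X)⟩

theorem S3_Dat (h : Rp e t G) : S3f fun (cs : List (List ℕ)) X => Dat G X cs := by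
  have h1 : S3f fun (x : List (List ℕ) × (ℕ × (ℕ × ℕ))) X => St G X x.2.2 :=
    (S3_St h).comp (f := fun x : List (List ℕ) × (ℕ × (ℕ × ℕ)) => x.2.2) (Computable.snd.comp Computable.snd)
  have h2 := h1.sub (l := fun x : List (List ℕ) × (ℕ × (ℕ × ℕ)) => rp e x.2.1)
    (comp_rp (Computable.fst.comp Computable.snd))
  have h3 := h2.ball (L := qs) comp_qs
  exact S3f_congr h3 fun cs X => dat_iff h

theorem S3_TT (h : Rp e t G) : S3f fun (d : Dsc) X => TT G e d X := by
  obtain ⟨b, hb, hbc⟩ := exists_TC e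
  have h1 : S3f fun (x : Dsc × List (List ℕ)) X => Dat G X x.2 :=
    (S3_Dat h).comp (f := fun x : Dsc × List (List ℕ) => x.2) Computable.snd
  have h2 : S3f fun (x : Dsc × List (List ℕ)) (_ : ℕ → Bool) => b x = true := S3f.of (P2f.dec hb)
  refine S3f_congr (h1.and h2).ex fun d X => ?_
  unfold TT
  exact exists_congr fun cs => and_congr_right fun _ => (hbc (d, cs)).symm

theorem S3_NN (h : Rp e t G) : S3f fun (p : ℕ × List ℕ) X => NN G p X := by
  obtain ⟨b, hb, hbc⟩ := exists_NC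
  have h1 : S3f fun (x : (ℕ × List ℕ) × List (List ℕ)) X => Dat G X x.2 :=
    (S3_Dat h).comp (f := fun x : (ℕ × List ℕ) × List (List ℕ) => x.2) Computable.snd
  have h2 : S3f fun (x : (ℕ × List ℕ) × List (List ℕ)) (_ : ℕ → Bool) => b (x.1.1, x.2) = true :=
    S3f.of (P2f.dec (c := fun x : (ℕ × List ℕ) × List (List ℕ) => b (x.1.1, x.2))
      (hb.comp ((Computable.fst.comp Computable.fst).pair Computable.snd)))
  have h4 := (h1.and h2).ex.sub (l := fun p : ℕ × List ℕ => p.2) Computable.snd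
  have h5 := (S3f.not (P2f.tot (l := fun p : ℕ × List ℕ => p.2) Computable.snd)).or h4
  refine S3f_congr h5 fun p X => ?_
  unfold NN
  exact or_congr Iff.rfl (exists_congr fun Y => and_congr_right fun _ => exists_congr fun cs =>
    and_congr_right fun _ => (hbc (p.1, cs)).symm)

theorem exists_HS (h : Rp e t G) : ∃ S : HS, (∀ X d, HT S X d ↔ TT G e d X) ∧
    ∀ X m c, HN S X m c ↔ NN G (m, c) X := by
  obtain ⟨t1, ht1, h1⟩ := S3_TT h
  obtain ⟨t2, ht2, h2⟩ := S3_NN h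
  exact ⟨⟨t1, t2, ht1, ht2⟩, fun X d => (h1 d X).symm, fun X m c => (h2 (m, c) X).symm⟩

end Pool.Agent.OMP
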