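import Pool.Agent.OMP.HOA
import Pool.Agent.OMP.TNS

/-!
# OMP/HOX: the descriptions are right

PROOF.  `lvu`, `nxu`, `nxl`: RCH.  `ts`: `TT` gives `cs`, `TC`: `kk (dm d) (sq cs) = kk (dm d) (blk G X)` and `lvl (dm d) (blk G X)` (`kk_congr`, `lvl_congr` with `Dat`), `Z = rt G (dm d) X`, `way_maps` (`kk_le`, `cs.length = dm d`).  `tp`: `pred_way` (with `Lv G X (dm d)` from `ts`), `dc d` is the
list of the reversed words of `cnd (dm d) (dm d)`.  `tc`: `cs = (List.range m).map (blk G X)` (`dat_blocks`, `lvl_congr`), `d = (m, ((rp e .., ..), ..))`.  `ns`: if `m' < m` then `lvl m' (sq cs)` (`lvl_congr`) contradicts `NC`.  `nc`: if `fnl c X` is total with value `Y` take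
`cs = (List.range (dm d)).map (blk G Y)`; either `NC (dm d) cs` or `lvl m' (sq cs)` for some `m' < dm d`, so `Lv G Y m'`.
-/

set_option autoImplicit false

namespace Pool.Agent.OMP

open Encodable Nat.Partrec Pool.Agent.H19 Pool.Agent.AEI Pool.Agent.CMG Pool.Agent.CMD

private theorem len_blocks (G : Dyn) (X : ℕ → Bool) (n : ℕ) : ((List.range n).map (blk G X)).length = n := by
  rw [List.length_map, List.length_range]

private theorem dat_eq {G : Dyn} {X : ℕ → Bool} {cs : List (List ℕ)} {m n : ℕ} (hd : Dat G X cs)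
    (hl : cs.length = m) (hn : n ≤ m) : ∀ i < n, blk G X i = sq cs i := fun i hi =>
  hd i (hl ▸ lt_of_lt_of_le hi hn)

theorem hok {e : ℕ} {t : List Bool → Bool} {G : Dyn} (h : Rp e t G) : ∃ S : HS, HOK S (Lv G) (Nx G) := by
  obtain ⟨S, hT, hN⟩ := exists_HS h
  have hlv : ∀ X d cs, Dat G X cs → TC e d cs → Lv G X (dm d) := fun X d cs hd hc =>
    (lvl_congr (dat_eq hd hc.1 le_rfl)).2 hc.2.1
  refine ⟨S, ?_⟩
  constructor
  · exact fun X m m' h1 h2 => Lv_unique h1 h2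
  · exact fun X Z Z' h1 h2 => Nx_unique h1 h2
  · exact fun X Z h1 => Nx_lt h1
  · intro X d hd
    obtain ⟨cs, hD, hC⟩ := (hT X d).1 hd
    have hl := hlv X d cs hD hC
    have hk : kk (dm d) (blk G X) = kk (dm d) (sq cs) := kk_congr (dat_eq hD hC.1 le_rfl)
    have hle : kk (dm d) (sq cs) ≤ cs.length := hC.1 ▸ kk_le _ _
    obtain ⟨h1, h2⟩ := way_maps h hD hle
    have hZ : rt G (dm d) X = Vv G (kk (dm d) (sq cs)) X := by
      unfold rt
      rw [hk]
    refine ⟨hl, rt G (dm d) X, ⟨dm d, hl, rfl⟩, ?_, ?_⟩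
    · rw [hZ, hC.2.2.1]
      exact h1
    · rw [hZ, hC.2.2.2.1]
      exact h2
  · intro X d Y hd hn
    obtain ⟨cs, hD, hC⟩ := (hT X d).1 hd
    obtain ⟨w, hw, hm⟩ := pred_way h hn (hlv X d cs hD hC)
    refine ⟨w.reverse, ?_, hm⟩
    rw [hC.2.2.2.2]
    exact List.mem_map_of_mem hw
  · intro X m hm
    refine ⟨(m, ((rp e (wd m ((List.range m).map (blk G X))).length, (wd m ((List.range m).map (blk G X))).reverse),
      (cnd m m).map List.reverse)), (hT _ _).2 ⟨(List.range m).map (blk G X), dat_blocks G X m, ?_⟩⟩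
    exact ⟨len_blocks G X m, (lvl_congr (dat_eq (dat_blocks G X m) (len_blocks G X m) le_rfl)).1 hm, rfl, rfl, rfl⟩
  · intro X m c Y m' hn hm hl
    rcases (hN X m c).1 hn with h1 | ⟨Y', h1, cs, hD, hC⟩
    · exact absurd ⟨Y, hm⟩ h1
    · have hY : Y' = Y := maps_uniq h1 hm
      subst hY
      by_contra hlt
      rw [not_le] at hlt
      exact hC.2 m' hlt ((lvl_congr (dat_eq hD hC.1 hlt.le)).1 hl)
  · intro X d c _ _
    by_cases htot : ∃ Y, Maps (fnl c) X Y
    · obtain ⟨Y, hY⟩ := htot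
      by_cases hl : ∃ n < dm d, lvl n (blk G Y)
      · obtain ⟨n, hn, hl⟩ := hl
        exact Or.inr ⟨Y, n, hY, hl, hn⟩
      · refine Or.inl ((hN _ _ _).2 (Or.inr ⟨Y, hY, (List.range (dm d)).map (blk G Y), dat_blocks G Y _,
          len_blocks G Y _, fun n hn hc => hl ⟨n, hn, ?_⟩⟩))
        exact (lvl_congr (dat_eq (dat_blocks G Y (dm d)) (len_blocks G Y _) hn.le)).2 hc
    · exact Or.inl ((hN _ _ _).2 (Or.inl htot))

end Pool.Agent.OMP
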