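import Pool.Agent.OMP.RCH

/-!
# OMP/MER: the ways from `X` and from `F X` meet

PROOF.  `exists_Vv_eq`: if `X` is not a marker of level `i` then `Vv G (i + 1) X = nh G i X = nh G i (F X) = Vv G (i + 1) (F X)` (`Vv_succ`, `nh_step`).  Otherwise `Ht G i X` for all `i`, so `Vv G i X = X`; as `G.D X`: `Orb G X`, `Cc G i X` for all `i`, hence
`Per G X`, `F^[p] X = X`, `p ≥ 1`.  With `Y = F X`: `F^[p - 1] Y = X`, so `ti G i Y ≤ p - 1` for all `i` (`ti_le`), and `ti G i Y` is monotone in `i` (`ti_add`), so it is constant for `i ≥ i0`.  `V = nh G i0 Y` is a marker of all levels `≥ i0`, so of all levels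
(`Ht_anti`), hence `Cc G i V` for all `i` (`V` is on the orbit of `X`, so `G.D V`).  `X` is on the orbit of `V` and `V` is on the orbit of `X` with positive numbers of steps (add multiples of `p`; `F^[k * p] X = X`), so `nm i X ≤ nm i V ≤ nm i X`, `X = V` (`nm_ext`).
`rt_merge`: for `j ≥ i`: `Vv G j X = Vv G j Y` (`Vv_Vv` with `max j i = j`) and `blk G X j = blk G Y j` (`blk_Vv_ge`).  Let `n ≥ i` be larger than all `encode (blk G X j)`, `encode (blk G Y j)`, `j < i`.  Then `kk n` agree (the conditions agree: `le_kk`, `kk_spec`) and are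
`≥ i`.  `merge`: `reach`.
-/

set_option autoImplicit false

namespace Pool.Agent.OMP

open Encodable Nat.Partrec Pool.Agent.H19 Pool.Agent.AEI Pool.Agent.CMG Pool.Agent.CMD

variable {G : Dyn} {X Y : ℕ → Bool} {i : ℕ}

theorem exists_Vv_eq (hD : G.D X) : ∃ i, Vv G i X = Vv G i (G.F X) := by
  by_cases hex : ∃ i, ¬ Ht G i X
  · obtain ⟨i, hi⟩ := hex
    exact ⟨i + 1, by rw [Vv_succ, Vv_succ, nh_step hi]⟩
  · have hall : ∀ i, Ht G i X := fun i => by_contra fun hc => hex ⟨i, hc⟩
    have hg : ∀ i, Orb G X ∧ Cc G i X ∧ ((∃ m, ¬ Cc G m X) ∨ Per G X) := fun i =>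
      (hall i).resolve_left (fun hc => hc hD)
    have hC : ∀ i, Cc G i X := fun i => (hg i).2.1
    have hO : Orb G X := (hg 0).1
    have hP : Per G X := (hg 0).2.2.resolve_left fun ⟨m, hm⟩ => hm (hC m)
    obtain ⟨p, hp1, hp⟩ := hP
    obtain ⟨q, rfl⟩ : ∃ q, p = q + 1 := ⟨p - 1, by omega⟩
    have hq : G.F^[q] (G.F X) = X := by rw [← Function.iterate_succ_apply]; exact hp
    have hle : ∀ i, ti G i (G.F X) ≤ q := fun i => ti_le (by rw [hq]; exact hall i)
    have hmono : ∀ m n, m ≤ n → ti G m (G.F X) ≤ ti G n (G.F X) := fun m n hmn => by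
      rw [ti_add (X := G.F X) hmn]
      exact Nat.le_add_right _ _
    obtain ⟨i0, hi0⟩ : ∃ i0, ∀ n, ti G n (G.F X) ≤ ti G i0 (G.F X) := by
      by_contra hcon
      have hcon : ∀ i0, ∃ n, ti G i0 (G.F X) < ti G n (G.F X) := fun i0 => by
        by_contra hc
        exact hcon ⟨i0, fun n => not_lt.1 fun hlt => hc ⟨n, hlt⟩⟩
      have hbig : ∀ k, ∃ n, k ≤ ti G n (G.F X) := by
        intro k
        induction k with
        | zero => exact ⟨0, Nat.zero_le _⟩
        | succ k ih =>
          obtain ⟨n, hn⟩ := ih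
          obtain ⟨n', hn'⟩ := hcon n
          exact ⟨n', by omega⟩
      obtain ⟨n, hn⟩ := hbig (q + 1)
      have := hle n
      omega
    have heq : ∀ n, i0 ≤ n → ti G n (G.F X) = ti G i0 (G.F X) := fun n hn =>
      le_antisymm (hi0 n) (hmono i0 n hn)
    have hV : ∀ n, i0 ≤ n → nh G n (G.F X) = nh G i0 (G.F X) := fun n hn => by
      unfold nh
      rw [heq n hn]
    have hHt : ∀ n, Ht G n (nh G i0 (G.F X)) := fun n => by
      have h1 : Ht G (max n i0) (nh G i0 (G.F X)) := by
        rw [← hV (max n i0) (le_max_right _ _)]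
        exact Ht_nh _ _
      exact Ht_anti (le_max_left _ _) h1
    have hVX : nh G i0 (G.F X) = G.F^[ti G i0 (G.F X) + 1] X := by
      unfold nh
      rw [Function.iterate_succ_apply]
    have hDV : G.D (nh G i0 (G.F X)) := by
      rw [hVX]
      exact hO _
    have hCV : ∀ n, Cc G n (nh G i0 (G.F X)) := fun n => ((hHt n).resolve_left fun hc => hc hDV).2.1
    have hback : G.F^[q - ti G i0 (G.F X)] (nh G i0 (G.F X)) = X := by
      unfold nh
      rw [← Function.iterate_add_apply, Nat.sub_add_cancel (hle i0)]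
      exact hq
    have hVeq : nh G i0 (G.F X) = X := by
      rcases Nat.eq_zero_or_pos (q - ti G i0 (G.F X)) with h0 | hpos
      · rw [h0] at hback
        exact hback
      · refine nm_ext fun n => le_antisymm ?_ ?_
        · have h1 := (hCV n).1 _ hpos
          rwa [hback] at h1
        · have h1 := (hC n).1 (ti G i0 (G.F X) + 1) (by omega)
          rwa [← hVX] at h1
    refine ⟨i0 + 1, ?_⟩
    rw [Vv_succ, Vv_succ, nh_of_Ht (hall i0), hVeq]

theorem rt_merge (h : Vv G i X = Vv G i Y) : ∃ n, rt G n X = rt G n Y := by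
  have hV : ∀ j, i ≤ j → Vv G j X = Vv G j Y := fun j hj => by
    have h1 := Vv_Vv (G := G) j i X
    have h2 := Vv_Vv (G := G) j i Y
    rw [max_eq_left hj] at h1 h2
    rw [← h1, ← h2, h]
  have hb : ∀ j, i ≤ j → blk G X j = blk G Y j := fun j hj => by
    rw [← blk_Vv_ge (G := G) (X := X) hj, ← blk_Vv_ge (G := G) (X := Y) hj, h]
  obtain ⟨n, hin, hn⟩ : ∃ n, i ≤ n ∧ ∀ j < i, encode (blk G X j) ≤ n ∧ encode (blk G Y j) ≤ n := by
    refine ⟨i + ∑ j ∈ Finset.range i, (encode (blk G X j) + encode (blk G Y j)), Nat.le_add_right _ _,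
      fun j hj => ?_⟩
    have h1 := Finset.single_le_sum (f := fun j => encode (blk G X j) + encode (blk G Y j))
      (fun j _ => Nat.zero_le _) (Finset.mem_range.2 hj)
    have h1 : encode (blk G X j) + encode (blk G Y j) ≤ _ := h1
    constructor <;> omega
  have key : ∀ X Y : ℕ → Bool, (∀ j, i ≤ j → blk G X j = blk G Y j) →
      (∀ j < i, encode (blk G X j) ≤ n ∧ encode (blk G Y j) ≤ n) →
      kk n (blk G X) ≤ kk n (blk G Y) := fun X Y hb hn => by
    refine le_kk (kk_le n _) fun j hj => ?_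
    by_cases hji : j < i
    · exact (hn j hji).2
    · rw [← hb j (not_lt.1 hji)]
      exact kk_spec hj
  have hk : kk n (blk G X) = kk n (blk G Y) :=
    le_antisymm (key X Y hb hn) (key Y X (fun j hj => (hb j hj).symm) fun j hj => (hn j hj).symm)
  have hik : i ≤ kk n (blk G X) := le_kk hin fun j hj => (hn j hj).1
  refine ⟨n, ?_⟩
  unfold rt
  rw [← hk]
  exact hV _ hik

theorem merge (hD : G.D X) :
    ∃ Z, Relation.ReflTransGen (Nx G) X Z ∧ Relation.ReflTransGen (Nx G) (G.F X) Z := by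
  obtain ⟨i, hi⟩ := exists_Vv_eq hD
  obtain ⟨n, hn⟩ := rt_merge hi
  exact ⟨rt G n X, reach n X, hn ▸ reach n (G.F X)⟩

end Pool.Agent.OMP
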