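import Pool.Agent.OMP.PTH
import Pool.Agent.OMP.HOX
import Pool.Agent.OMP.DYN
import Pool.Agent.OMP.MER

/-!
# OMP/FIN: the theorem on one map

PROOF.  `exists_dyn`, `hok`, `level_theorem`, `merge`; for `Relation.ReflTransGen (Nx G) X Z` induction gives `W X ≡ W Z`.  If `Inf t X` and `Maps (fn e) X Y` then `Y = G.F X` (`fn_uniq`).
-/

set_option autoImplicit false

namespace Pool.Agent.OMP

open Encodable Nat.Partrec Pool.Agent.H19 Pool.Agent.AEI Pool.Agent.CMG Pool.Agent.CMD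

private theorem rtg_equiv {G : Dyn} {W : (ℕ → Bool) → (ℕ → Bool)}
    (h : ∀ X Z, Nx G X Z →
      TuringReducible (chi (W X)) (chi (W Z)) ∧ TuringReducible (chi (W Z)) (chi (W X)))
    {X Z : ℕ → Bool} (hr : Relation.ReflTransGen (Nx G) X Z) :
    TuringReducible (chi (W X)) (chi (W Z)) ∧ TuringReducible (chi (W Z)) (chi (W X)) := by
  induction hr with
  | refl => exact ⟨TuringReducible.refl _, TuringReducible.refl _⟩
  | tail _ hs ih => exact ⟨ih.1.trans (h _ _ hs).1, (h _ _ hs).2.trans ih.2⟩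

theorem one_map (e : ℕ) {t : List Bool → Bool} (ht : Computable t)
    (hD : ∀ X, Inf t X → ∃ Y, Maps (fn e) X Y ∧ TuringReducible (chi X) (chi Y)) :
    ∃ (r : Code) (W : (ℕ → Bool) → (ℕ → Bool)),
      (∀ X n, (∃ s, (r.eval (encode (n, pre X s))).Dom) ↔ W X n = true) ∧
      (∀ X, TuringReducible (chi X) (chi (W X))) ∧
      (∀ X, ¬ TuringReducible (chi (W X)) (chi X)) ∧
      (∀ X, ¬ TuringReducible (chi (JJ X)) (chi (W X))) ∧
      ∀ X Y, Inf t X → Maps (fn e) X Y →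
        TuringReducible (chi (W X)) (chi (W Y)) ∧ TuringReducible (chi (W Y)) (chi (W X)) := by
  obtain ⟨G, hG⟩ := exists_dyn e ht hD
  obtain ⟨S, hS⟩ := hok hG
  obtain ⟨r, W, h1, h2, h3, h4, h5⟩ := level_theorem hS
  refine ⟨r, W, h1, h2, h3, h4, fun X Y hX hY => ?_⟩
  have hDX : G.D X := (hG.dom X).2 hX
  have hYF : Y = G.F X := fn_uniq hY (hG.map X hDX)
  subst hYF
  obtain ⟨Z, hZ1, hZ2⟩ := merge hDX
  have e1 := rtg_equiv h5 hZ1
  have e2 := rtg_equiv h5 hZ2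
  exact ⟨e1.1.trans e2.2, e2.1.trans e1.2⟩

end Pool.Agent.OMP
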