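import Pool.Agent.OMP.Defs
import Pool.Agent.CMD.CHK

/-!
# OMP/PTK: the checks for the pointers

PROOF.  `ptk g ν = meet (g z) (stb g z k ρ, |ρ|)` with `ν = ⟨z, k⟩`.  `Hd_meet`, `Gd_meet`.  The part `(stb g z k ρ, |ρ|)`: if `stb` is true at infinitely many `pre X s` then (longer and longer `s`, `pre_take`)
`Lst g z k X`, and then it is true at all `pre X s` with `s ≥ k`.  `Lst_unique`: if `k < k'` then `k' ≠ 0` and something fires at `pre X k'`.  `exists_Lst`: `fir_fin` (CMD/FIR) gives a bound for every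
`y < z`; take the maximum `N` of the bounds and `k` the greatest `s ≤ N` at which something `< z` fires (`0` if there is none; `Nat.findGreatest`).  `not_Hd_of_Lst`: `fir_inf`.
`ptk_unique`: by `not_Hd_of_Lst` neither of the two `z`'s is smaller than the other; then `Lst_unique`; `Nat.pair_unpair`.  `exists_ptk`: the least `z` with `Hd (g z) X` and `exists_Lst`.
-/

set_option autoImplicit false

namespace Pool.Agent.OMP

open Encodable Nat.Partrec Pool.Agent.H19 Pool.Agent.AEI Pool.Agent.CMG Pool.Agent.CMD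

variable {g : ℕ → List Bool → Chk} {X : ℕ → Bool} {z k k' ν ν' : ℕ}

/-- `k` is the last stage at which a check `< z` fires along `X`. -/
def Lst (g : ℕ → List Bool → Chk) (z k : ℕ) (X : ℕ → Bool) : Prop :=
  (∀ y < z, ∀ s > k, fir (g y) (pre X s) = false) ∧ (k = 0 ∨ ∃ y < z, fir (g y) (pre X k) = true)

private theorem PTK_stb (g : ℕ → List Bool → Chk) (z k : ℕ) (X : ℕ → Bool) (t : ℕ) :
    stb g z k (pre X t) = true ↔ k ≤ t ∧ (∀ y < z, ∀ s, s ≤ t → k < s → fir (g y) (pre X s) = false) ∧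
      (k = 0 ∨ ∃ y < z, fir (g y) (pre X k) = true) := by
  simp only [stb, Bool.and_eq_true, Bool.or_eq_true, decide_eq_true_eq, List.all_eq_true, List.any_eq_true,
    List.mem_range, pre_length, Bool.not_eq_true', Bool.and_eq_false_iff, decide_eq_false_iff_not]
  constructor
  · rintro ⟨⟨hk, h1⟩, h2⟩
    refine ⟨hk, fun y hy s hs hks => ?_, ?_⟩
    · rcases h1 y hy s (by omega) with h | h
      · exact absurd hks h
      · rwa [pre_take X hs] at h
    · rcases h2 with h | ⟨y, hy, h⟩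
      · exact Or.inl h
      · exact Or.inr ⟨y, hy, by rwa [pre_take X hk] at h⟩
  · rintro ⟨hk, h1, h2⟩
    refine ⟨⟨hk, fun y hy s hs => ?_⟩, ?_⟩
    · by_cases hks : k < s
      · right
        rw [pre_take X (by omega)]
        exact h1 y hy s (by omega) hks
      · exact Or.inl hks
    · rcases h2 with h | ⟨y, hy, h⟩
      · exact Or.inl h
      · exact Or.inr ⟨y, hy, by rwa [pre_take X hk]⟩

private theorem PTK_lst (h : ∀ N, ∃ s ≥ N, stb g z k (pre X s) = true) : Lst g z k X := by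
  refine ⟨fun y hy s hs => ?_, ?_⟩
  · obtain ⟨t, ht, h1⟩ := h s
    exact ((PTK_stb g z k X t).1 h1).2.1 y hy s ht hs
  · obtain ⟨t, _, h1⟩ := h 0
    exact ((PTK_stb g z k X t).1 h1).2.2

private theorem PTK_all (h : Lst g z k X) {t : ℕ} (ht : k ≤ t) : stb g z k (pre X t) = true :=
  (PTK_stb g z k X t).2 ⟨ht, fun y hy s _ hks => h.1 y hy s hks, h.2⟩

private theorem PTK_hd (g : ℕ → List Bool → Chk) (z k : ℕ) (X : ℕ → Bool) :
    Hd (fun ρ => (stb g z k ρ, ρ.length)) X ↔ Lst g z k X := by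
  constructor
  · rintro ⟨⟨s0, h1⟩, -⟩
    exact PTK_lst fun N => ⟨max N s0, le_max_left _ _, h1 _ (le_max_right _ _)⟩
  · intro h
    refine ⟨⟨k, fun s hs => PTK_all h hs⟩, fun N => ⟨N, fun s hs => ?_⟩⟩
    simp only [pre_length]
    exact hs

private theorem PTK_gd (g : ℕ → List Bool → Chk) (z k : ℕ) : Gd (fun ρ => (stb g z k ρ, ρ.length)) := by
  refine ⟨fun σ τ h => h.length_le, fun σ => le_rfl, fun X hX => ?_⟩
  exact ⟨k, fun s hs => PTK_all (PTK_lst hX) hs⟩

theorem Gd_ptk (h : ∀ y ≤ ν.unpair.1, Gd (g y)) : Gd (ptk g ν) :=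
  Gd_meet (h _ le_rfl) (PTK_gd g ν.unpair.1 ν.unpair.2)

theorem Hd_ptk : Hd (ptk g ν) X ↔ Hd (g ν.unpair.1) X ∧ Lst g ν.unpair.1 ν.unpair.2 X := by
  rw [← PTK_hd g ν.unpair.1 ν.unpair.2 X]
  exact Hd_meet

theorem Lst_unique (h : Lst g z k X) (h' : Lst g z k' X) : k = k' := by
  rcases lt_trichotomy k k' with hk | hk | hk
  · rcases h'.2 with h0 | ⟨y, hy, h1⟩
    · omega
    · rw [h.1 y hy k' hk] at h1
      exact absurd h1 (by simp)
  · exact hk
  · rcases h.2 with h0 | ⟨y, hy, h1⟩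
    · omega
    · rw [h'.1 y hy k hk] at h1
      exact absurd h1 (by simp)

theorem exists_Lst (h : ∀ y < z, Gd (g y)) (hn : ∀ y < z, ¬ Hd (g y) X) : ∃ k, Lst g z k X := by
  classical
  have hN : ∃ N, ∀ y < z, ∀ s > N, fir (g y) (pre X s) = false := by
    have h1 : ∀ y, ∃ N, y < z → ∀ s > N, fir (g y) (pre X s) = false := by
      intro y
      by_cases hy : y < z
      · obtain ⟨N, hN⟩ := fir_fin (h y hy) (hn y hy)
        exact ⟨N, fun _ => hN⟩
      · exact ⟨0, fun h' => absurd h' hy⟩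
    choose N hN using h1
    refine ⟨(Finset.range z).sup N, fun y hy s hs => hN y hy s ?_⟩
    exact lt_of_le_of_lt (Finset.le_sup (f := N) (Finset.mem_range.2 hy)) hs
  obtain ⟨N, hN⟩ := hN
  let P : ℕ → Prop := fun s => ∃ y < z, fir (g y) (pre X s) = true
  refine ⟨Nat.findGreatest P N, fun y hy s hs => ?_, ?_⟩
  · by_cases hsN : s ≤ N
    · have h1 : ¬ P s := Nat.findGreatest_is_greatest hs hsN
      by_contra h2
      exact h1 ⟨y, hy, by simpa using h2⟩
    · exact hN y hy s (by omega)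
  · by_cases h0 : Nat.findGreatest P N = 0
    · exact Or.inl h0
    · exact Or.inr (Nat.findGreatest_of_ne_zero (P := P) rfl h0)

theorem not_Hd_of_Lst (h : ∀ y < z, Gd (g y)) (hl : Lst g z k X) : ∀ y < z, ¬ Hd (g y) X := by
  intro y hy hd
  obtain ⟨s, hs, h1⟩ := (fir_inf (h y hy)).2 hd (k + 1)
  rw [hl.1 y hy s (by omega)] at h1
  exact absurd h1 (by simp)

theorem ptk_unique (h : ∀ y, Gd (g y)) (h1 : Hd (ptk g ν) X) (h2 : Hd (ptk g ν') X) : ν = ν' := by
  obtain ⟨a1, l1⟩ := Hd_ptk.1 h1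
  obtain ⟨a2, l2⟩ := Hd_ptk.1 h2
  have e1 : ν.unpair.1 = ν'.unpair.1 := by
    rcases lt_trichotomy ν.unpair.1 ν'.unpair.1 with hk | hk | hk
    · exact absurd a1 (not_Hd_of_Lst (fun y _ => h y) l2 _ hk)
    · exact hk
    · exact absurd a2 (not_Hd_of_Lst (fun y _ => h y) l1 _ hk)
  rw [← e1] at l2
  have e2 := Lst_unique l1 l2
  rw [← Nat.pair_unpair ν, ← Nat.pair_unpair ν', e1, e2]

theorem exists_ptk (h : ∀ y, Gd (g y)) (hz : Hd (g z) X) : ∃ ν, Hd (ptk g ν) X := by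
  classical
  have hex : ∃ z, Hd (g z) X := ⟨z, hz⟩
  obtain ⟨k, hk⟩ := exists_Lst (g := g) (X := X) (z := Nat.find hex) (fun y _ => h y)
    (fun y hy => Nat.find_min hex hy)
  refine ⟨Nat.pair (Nat.find hex) k, Hd_ptk.2 ?_⟩
  rw [Nat.unpair_pair]
  exact ⟨Nat.find_spec hex, hk⟩

end Pool.Agent.OMP
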