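import Pool.Agent.OMP.LPS
import Pool.Agent.OMP.CCK
import Pool.Agent.OMP.PTK

/-!
# OMP/GDK: the checks for the certificates

PROOF.  `Gd_KK`: strong induction on `z`, `KK_eq` (rewrite the function: `KK S z = fun σ => Psi (KK S) S z σ` by `funext`), cases on `sta z`: `Gd_const` or `Gd_meet`, `Gd_ctk`, `Gd_mts`; an item is `Gd_ctk` or
`Gd_sub (Gd_ptk ..) c` with pointer `v ≤ umx z < z` (`itm_le`, `umx_lt`).  `Hd_KK`: `KK_eq`, `Hd_meet`, `Hd_ctk`, `Hd_mts`, `Hd_sub` (with `Gd_ptk`), `Hd_const` (for `sta z = false`).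
-/

set_option autoImplicit false

namespace Pool.Agent.OMP

open Encodable Nat.Partrec Pool.Agent.H19 Pool.Agent.AEI Pool.Agent.CMG Pool.Agent.CMD

private theorem gdk_fun (S : HS) (z : ℕ) : KK S z = fun σ => Psi (KK S) S z σ := by
  funext σ
  exact KK_eq S z σ

private theorem gdk_fun_true (S : HS) {z : ℕ} (h : sta z = true) : KK S z = fun σ =>
    meet (ctk (S.tT (dsc z, wit z)) σ)
      (mts ((List.range (its z).length).map fun i => itk (KK S) S (dm (dsc z)) (cnw z i) (itm z i) σ)
        σ.length) := by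
  rw [gdk_fun]
  funext σ
  unfold Psi
  rw [if_pos h]

private theorem gdk_fun_false (S : HS) {z : ℕ} (h : sta z = false) :
    KK S z = fun σ => (false, σ.length) := by
  rw [gdk_fun]
  funext σ
  unfold Psi
  rw [if_neg (by rw [h]; exact Bool.false_ne_true)]

theorem Gd_KK (S : HS) (z : ℕ) : Gd (KK S z) := by
  induction z using Nat.strong_induction_on with
  | _ z ih =>
    cases hs : sta z with
    | false =>
      rw [gdk_fun_false S hs]
      exact Gd_const false
    | true =>
      rw [gdk_fun_true S hs]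
      refine Gd_meet (Gd_ctk _) (Gd_mts fun i _ => ?_)
      unfold itk
      by_cases h0 : (itm z i).1 = 0
      · simp only [h0, if_true]
        exact Gd_ctk _
      · simp only [h0, if_false]
        refine Gd_sub (Gd_ptk fun y hy => ih y ?_) (cnw z i)
        exact ((hy.trans (Nat.unpair_left_le _)).trans (itm_le z i)).trans_lt (umx_lt hs)

theorem Hd_KK {S : HS} {z : ℕ} {X : ℕ → Bool} : Hd (KK S z) X ↔ sta z = true ∧ Inf (S.tT (dsc z, wit z)) X ∧
    ∀ i < (its z).length,
      ((itm z i).1 = 0 → Inf (S.tN ((dm (dsc z), cnw z i), (itm z i).2)) X) ∧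
      ((itm z i).1 ≠ 0 → ∃ Y, Maps (fnl (cnw z i)) X Y ∧ Hd (ptk (KK S) (itm z i).2) Y) := by
  cases hs : sta z with
  | false =>
    rw [gdk_fun_false S hs, Hd_const]
    simp
  | true =>
    rw [gdk_fun_true S hs, Hd_meet, Hd_ctk, Hd_mts]
    simp only [true_and]
    refine and_congr_right fun _ => forall₂_congr fun i _ => ?_
    unfold itk
    by_cases h0 : (itm z i).1 = 0
    · simp only [h0, if_true, ne_eq, not_true_eq_false, false_imp_iff, and_true, true_imp_iff]
      exact Hd_ctk
    · simp only [h0, if_false, ne_eq, not_false_eq_true, true_imp_iff, false_imp_iff, true_and]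
      exact Hd_sub (Gd_ptk fun y _ => Gd_KK S y)

end Pool.Agent.OMP
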