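import Pool.Agent.OMP.SYS
import Pool.Agent.CMD.GRW

/-!
# OMP/GOO: the system is good

PROOF.  `ptr_spec`: `Q_osys`, `Hd_ptk`, `Hd_KK`, `h.ts` (with `d = dsc ν.unpair.1` and witness `wit ν.unpair.1`).  `ptr_pred`: `Nx X Y` (from `ptr_spec` for `p1` and `maps_uniq`), `h.tp` for `Y` gives `c ∈ dc (dsc z2)`,
`z2 = p2.unpair.1`, with `Maps (fnl c) Y X`; `c = cnw z2 i` for some `i < |its z2|` (`sta`).  The item `i`: if it is `(0, v)` then `HN S Y (dm d2) c`, so by `h.ns` `dm d2 ≤ m1` for the level `m1` of `X`, against `h.nxl`.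
Otherwise the pointer `v` is active at `X` (`maps_uniq`), so `v = p1` (`ptk_unique`), `p1 ≤ umx z2` (`itm_le`).  `good_osys`: copy CMD/GRW (`chain_up`, `dsys_gr`) with `up p = umx p.unpair.1` and
`ns p = dm (dsc p.unpair.1)`: `ns p ≤ up p` (`dm_le`), `bd (up p) ≤ p.unpair.1 ≤ p` (`sta`), `rq_lt_bd` (CMG/GPB), `lt_bd`.
-/

set_option autoImplicit false

namespace Pool.Agent.OMP

open Encodable Nat.Partrec Pool.Agent.H19 Pool.Agent.AEI Pool.Agent.CMG Pool.Agent.CMD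

variable {S : HS} {Lv : (ℕ → Bool) → ℕ → Prop} {Nx : (ℕ → Bool) → (ℕ → Bool) → Prop}

theorem ptr_spec (h : HOK S Lv Nx) {p : ℕ} {X : ℕ → Bool} (hq : Q (osys S) p X) :
    sta p.unpair.1 = true ∧ Lv X (dm (dsc p.unpair.1)) ∧
      ∃ Z, Nx X Z ∧ Maps ((osys S).F p) X Z ∧ Maps ((osys S).G p) Z X := by
  have h1 := (Hd_ptk.1 (Q_osys.1 hq)).1
  rw [Hd_KK] at h1
  obtain ⟨hs, ht, -⟩ := h1
  obtain ⟨hL, Z, hN, hF, hG⟩ := h.ts X _ ⟨_, ht⟩
  exact ⟨hs, hL, Z, hN, hF, hG⟩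

theorem ptr_pred (h : HOK S Lv Nx) {p1 p2 : ℕ} {X Y : ℕ → Bool} (h1 : Q (osys S) p1 X)
    (h2 : Maps ((osys S).F p1) X Y) (h3 : Q (osys S) p2 Y) :
    p1 ≤ umx p2.unpair.1 ∧ dm (dsc p1.unpair.1) < dm (dsc p2.unpair.1) := by
  obtain ⟨hs1, hL1, Z1, hN1, hF1, -⟩ := ptr_spec h h1
  obtain ⟨hs2, hL2, -⟩ := ptr_spec h h3
  have e : Z1 = Y := maps_uniq hF1 h2
  rw [e] at hN1
  obtain ⟨m, hm, hlt⟩ := h.nxl X Y hN1
  have e1 : m = dm (dsc p1.unpair.1) := h.lvu X _ _ hm hL1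
  rw [e1] at hlt
  have hlt' := hlt _ hL2
  refine ⟨?_, hlt'⟩
  have h4 := (Hd_ptk.1 (Q_osys.1 h3)).1
  rw [Hd_KK] at h4
  obtain ⟨-, ht, hi⟩ := h4
  obtain ⟨c, hc, hcY⟩ := h.tp Y _ X ⟨_, ht⟩ hN1
  obtain ⟨i, hil, hic⟩ := List.getElem_of_mem hc
  have hlen : (its p2.unpair.1).length = (dc (dsc p2.unpair.1)).length := by
    unfold sta at hs2
    rw [Bool.and_eq_true, decide_eq_true_iff, decide_eq_true_iff] at hs2
    exact hs2.1
  have hcn : cnw p2.unpair.1 i = c := by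
    unfold cnw
    rw [List.getD_eq_getElem _ _ hil, hic]
  obtain ⟨i1, i2⟩ := hi i (by rw [hlen]; exact hil)
  rw [hcn] at i1 i2
  by_cases h0 : (itm p2.unpair.1 i).1 = 0
  · exact absurd (h.ns Y _ c X _ ⟨_, i1 h0⟩ hcY hL1) (not_le.2 hlt')
  · obtain ⟨Y', hY', hd⟩ := i2 h0
    have e2 : Y' = X := maps_uniq hY' hcY
    rw [e2] at hd
    have e3 : p1 = (itm p2.unpair.1 i).2 := ptk_unique (Gd_KK S) (Q_osys.1 h1) hd
    rw [e3]
    exact itm_le _ _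

private theorem GOO_bd (h : HOK S Lv Nx) {p : ℕ} {X : ℕ → Bool} (hq : Q (osys S) p X) :
    bd (umx p.unpair.1) ≤ p := by
  obtain ⟨hs, -⟩ := ptr_spec h hq
  unfold sta at hs
  rw [Bool.and_eq_true, decide_eq_true_iff, decide_eq_true_iff] at hs
  exact hs.2.trans (Nat.unpair_left_le p)

private theorem GOO_up (h : HOK S Lv Nx) {p : ℕ} {X : ℕ → Bool} (hq : Q (osys S) p X) :
    umx p.unpair.1 < p := (lt_bd _).trans_le (GOO_bd h hq)

private theorem GOO_chain (h : HOK S Lv Nx) {a : List ℕ} {p : ℕ} {X Z : ℕ → Bool}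
    (hc : Chain (osys S) a X Z) (hq : Q (osys S) p Z) :
    (∃ p2, Q (osys S) p2 X ∧ (p2 = p ∨ p2 ≤ umx p.unpair.1) ∧
      dm (dsc p2.unpair.1) + a.length ≤ dm (dsc p.unpair.1)) ∧ ∀ x ∈ a, x ≤ umx p.unpair.1 := by
  induction hc with
  | nil X => exact ⟨⟨p, hq, Or.inl rfl, by simp⟩, by simp⟩
  | @cons p1 a X Y Z h1 h2 _ ih =>
    obtain ⟨⟨p2, q2, e, l⟩, hb⟩ := ih hq
    obtain ⟨s1, s2⟩ := ptr_pred h h1 h2 q2
    have h4 : p1 ≤ umx p.unpair.1 := by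
      rcases e with e | e
      · rw [← e]; exact s1
      · exact (s1.trans (GOO_up h q2).le).trans e
    refine ⟨⟨p1, h1, Or.inr h4, ?_⟩, ?_⟩
    · rw [List.length_cons]; omega
    · intro x hx
      rcases List.mem_cons.1 hx with h5 | h5
      · rw [h5]; exact h4
      · exact hb x h5

theorem good_osys (h : HOK S Lv Nx) : GoodSys (osys S) where
  total p X hq := by
    obtain ⟨-, -, Z, -, hF, hG⟩ := ptr_spec h hq
    exact ⟨Z, hF, hG⟩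
  uni p p' X hq hq' := ptk_unique (Gd_KK S) (Q_osys.1 hq) (Q_osys.1 hq')
  gr a X Z p hc hq t ht := by
    obtain ⟨⟨p2, -, -, h1⟩, h2⟩ := GOO_chain h hc hq
    have h3 : dm (dsc p.unpair.1) ≤ umx p.unpair.1 := dm_le _
    exact lt_of_lt_of_le (rq_lt_bd ht h2 (by omega)) (GOO_bd h hq)

end Pool.Agent.OMP
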