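import Pool.Agent.OMP.DDefs

/-!
# OMP/LVC: sequences of blocks

PROOF.  `Nat.findGreatest` (`Nat.le_findGreatest`, `Nat.findGreatest_le`, `Nat.findGreatest_spec` with the trivial bound `0`, `Nat.findGreatest_congr` or `le_antisymm`).  `encode ([] : List ℕ) = 0`.
`kk_sh`: the conditions `∀ i < j, encode (..) ≤ n` agree for all `j` since the first `k` blocks are small for both sequences.  `ntv_sh`: suppose `i < kk n (sh k c)`, `k = kk m c`, and `sh k c i ≠ []`; then `k ≤ i`, and all
`c j`, `j ≤ i`, have codes `≤ m` (for `j < k` by the choice of `k`, for `k ≤ j ≤ i` since `c j = sh k c j` and `n ≤ m`), and `i + 1 ≤ n ≤ m`, so `k ≥ i + 1`.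
-/

set_option autoImplicit false

namespace Pool.Agent.OMP

open Encodable Nat.Partrec Pool.Agent.H19 Pool.Agent.AEI Pool.Agent.CMG Pool.Agent.CMD

variable {m n k : ℕ} {c c' : ℕ → List ℕ}

/-- The sequence with the first `k` blocks emptied. -/
def sh (k : ℕ) (c : ℕ → List ℕ) (i : ℕ) : List ℕ := if i < k then [] else c i

theorem kk_le (n : ℕ) (c : ℕ → List ℕ) : kk n c ≤ n := by
  exact Nat.findGreatest_le n

theorem kk_spec {i : ℕ} (h : i < kk n c) : encode (c i) ≤ n := by
  have h1 := Nat.findGreatest_spec (P := fun k => ∀ i < k, encode (c i) ≤ n) (Nat.zero_le n)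
    (fun i hi => absurd hi (Nat.not_lt_zero i))
  exact h1 i h

theorem le_kk (h : k ≤ n) (h' : ∀ i < k, encode (c i) ≤ n) : k ≤ kk n c := by
  exact Nat.le_findGreatest h h'

theorem kk_congr (h : ∀ i < n, c i = c' i) : kk n c = kk n c' := by
  apply le_antisymm
  · exact le_kk (kk_le n c) fun i hi => (h i (hi.trans_le (kk_le n c))) ▸ kk_spec hi
  · exact le_kk (kk_le n c') fun i hi => (h i (hi.trans_le (kk_le n c'))).symm ▸ kk_spec hi

theorem ntv_congr (h : ∀ i < n, c i = c' i) : ntv n c ↔ ntv n c' := by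
  unfold ntv
  rw [kk_congr h]
  constructor
  · rintro ⟨i, hi, hne⟩
    exact ⟨i, hi, (h i (hi.trans_le (kk_le n c'))) ▸ hne⟩
  · rintro ⟨i, hi, hne⟩
    exact ⟨i, hi, (h i (hi.trans_le (kk_le n c'))).symm ▸ hne⟩

theorem lvl_congr (h : ∀ i < m, c i = c' i) : lvl m c ↔ lvl m c' := by
  unfold lvl
  rw [ntv_congr h]
  refine and_congr_right fun _ => forall_congr' fun n => ?_
  refine imp_congr_right fun hn => not_congr (ntv_congr fun i hi => h i (hi.trans hn))

theorem lvl_unique (h : lvl m c) (h' : lvl n c) : m = n := by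
  rcases lt_trichotomy m n with hlt | heq | hgt
  · exact absurd h.1 (h'.2 m hlt)
  · exact heq
  · exact absurd h'.1 (h.2 n hgt)

theorem kk_sh (h : ∀ i < k, encode (c i) ≤ n) : kk n (sh k c) = kk n c := by
  apply le_antisymm
  · refine le_kk (kk_le n _) fun i hi => ?_
    by_cases hk : i < k
    · exact h i hk
    · have h1 := kk_spec hi
      rwa [sh, if_neg hk] at h1
  · refine le_kk (kk_le n _) fun i hi => ?_
    by_cases hk : i < k
    · rw [sh, if_pos hk]
      exact Nat.zero_le n
    · rw [sh, if_neg hk]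
      exact kk_spec hi

theorem ntv_sh (h : n ≤ m) : ¬ ntv n (sh (kk m c) c) := by
  rintro ⟨i, hi, hne⟩
  have hk : ¬ i < kk m c := fun hlt => hne (by rw [sh, if_pos hlt])
  refine hk (le_kk (k := i + 1) ?_ fun j hj => ?_)
  · have := kk_le n (sh (kk m c) c)
    omega
  · by_cases hjk : j < kk m c
    · exact kk_spec hjk
    · have h1 : encode (sh (kk m c) c j) ≤ n := kk_spec (lt_of_le_of_lt (Nat.lt_succ_iff.1 hj) hi)
      rw [sh, if_neg hjk] at h1
      exact h1.trans h

end Pool.Agent.OMP
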