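import Pool.Agent.OMP.VVL
import Pool.Agent.OMP.LVC

/-!
# OMP/RCH: roots and next sequences

PROOF.  `blk_rt`: `blk_Vv_lt`, `blk_Vv_ge`, `funext`.  `rt_eq_self`: all blocks below `kk n` are empty, `Vv_eq_self`.  `Nx_lt`: `Z = rt G m X`, `blk_rt`, `ntv_sh`.  `rt_rt`: `blk_rt`, `kk_sh` (the blocks below `kk m` have codes
`≤ m ≤ n`, `kk_spec`), `Vv_Vv`, and `kk m (blk G X) ≤ kk n (blk G X)` (`le_kk`).  `reach`: induction on `n`: `rt G 0 X = X` (`kk_le`); let `Z = rt G n X`; `rt G (n + 1) X = rt G (n + 1) Z` (`rt_rt`).  If `ntv (n + 1) (blk G Z)` then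
`Lv G Z (n + 1)` by `ntv_sh`, so `Nx G Z (rt G (n + 1) Z)`; otherwise `rt_eq_self`.
-/

set_option autoImplicit false

namespace Pool.Agent.OMP

open Encodable Nat.Partrec Pool.Agent.H19 Pool.Agent.AEI Pool.Agent.CMG Pool.Agent.CMD

variable {G : Dyn} {m n : ℕ} {X Z Z' : ℕ → Bool}

theorem blk_rt (m : ℕ) (X : ℕ → Bool) : blk G (rt G m X) = sh (kk m (blk G X)) (blk G X) := by
  funext i
  unfold sh rt
  split_ifs with h
  · exact blk_Vv_lt h
  · exact blk_Vv_ge (not_lt.mp h)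

theorem rt_eq_self (h : ¬ ntv n (blk G X)) : rt G n X = X := by
  unfold rt
  refine Vv_eq_self fun j hj => ?_
  by_contra hne
  exact h ⟨j, hj, hne⟩

theorem Lv_unique (h : Lv G X m) (h' : Lv G X n) : m = n := lvl_unique h h'

theorem Nx_unique (h : Nx G X Z) (h' : Nx G X Z') : Z = Z' := by
  obtain ⟨m, hm, hZ⟩ := h
  obtain ⟨m', hm', hZ'⟩ := h'
  rw [hZ, hZ', Lv_unique hm hm']

theorem Nx_lt (h : Nx G X Z) : ∃ m, Lv G X m ∧ ∀ m', Lv G Z m' → m < m' := by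
  obtain ⟨m, hm, rfl⟩ := h
  refine ⟨m, hm, fun m' hm' => ?_⟩
  by_contra hle
  have h1 : ntv m' (blk G (rt G m X)) := hm'.1
  rw [blk_rt] at h1
  exact ntv_sh (not_lt.mp hle) h1

theorem rt_rt (h : m ≤ n) : rt G n (rt G m X) = rt G n X := by
  have hs : ∀ i < kk m (blk G X), encode (blk G X i) ≤ n := fun i hi => (kk_spec hi).trans h
  have h1 : rt G n (rt G m X) = Vv G (kk n (blk G (rt G m X))) (rt G m X) := rfl
  have h2 : kk n (blk G (rt G m X)) = kk n (blk G X) := by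
    rw [blk_rt, kk_sh hs]
  have h3 : kk m (blk G X) ≤ kk n (blk G X) := le_kk ((kk_le _ _).trans h) hs
  rw [h1, h2]
  unfold rt
  rw [Vv_Vv, max_eq_left h3]

theorem reach (n : ℕ) (X : ℕ → Bool) : Relation.ReflTransGen (Nx G) X (rt G n X) := by
  induction n with
  | zero =>
    have h0 : kk 0 (blk G X) = 0 := Nat.le_zero.mp (kk_le _ _)
    have h1 : rt G 0 X = X := by
      unfold rt
      rw [h0]
      rfl
    rw [h1]
  | succ n ih =>
    rw [← rt_rt (G := G) (X := X) (Nat.le_succ n)]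
    by_cases h : ntv (n + 1) (blk G (rt G n X))
    · refine ih.tail ⟨n + 1, ⟨h, fun k hk => ?_⟩, rfl⟩
      rw [blk_rt]
      exact ntv_sh (Nat.lt_succ_iff.mp hk)
    · rw [rt_eq_self h]
      exact ih

end Pool.Agent.OMP
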