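import Pool.Agent.OMP.DAI
import Pool.Agent.OMP.RCH

/-!
# OMP/HOA: ways to the root and back, candidates

PROOF.  `way_maps`: `dat_time` with `js cs k = |(cs.take k).flatten|`; `maps_rp`; `maps_back` with `(List.range (js cs k)).map (fun j => κ (F^[j] X)) = (cs.take k).flatten` (induction on `k`; block `i` is `(List.range |sq cs i|).map fun r => κ (F^[r] (Vv G i X))` and `F^[r] (Vv G i X) = F^[js cs i + r] X`,
`List.range_add`, `List.map_append`).  `dat_blocks`: `getD` of a map of a range.  `mem_cnd`: induction on `k`, `List.mem_flatMap`, `Denumerable.encode_ofNat`, `Denumerable.ofNat_encode`; for the direction needed here: a list of at most `k` blocks with codes `≤ m` (append the empty block, code `0`).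
`pred_way`: `Nx G Y X`, level `m'` of `Y`, `m' < m` (`Nx_lt`), `X = Vv G k Y`, `k = kk m' (blk G Y) ≤ m'`; `way_maps` for `Y` with `cs = (List.range k).map (blk G Y)`; its blocks have codes `≤ m' ≤ m` (`kk_spec`).
-/

set_option autoImplicit false

namespace Pool.Agent.OMP

open Encodable Nat.Partrec Pool.Agent.H19 Pool.Agent.AEI Pool.Agent.CMG Pool.Agent.CMD

variable {e : ℕ} {t : List Bool → Bool} {G : Dyn} {X Y : ℕ → Bool} {cs : List (List ℕ)} {k m : ℕ}

theorem dat_blocks (G : Dyn) (X : ℕ → Bool) (n : ℕ) : Dat G X ((List.range n).map (blk G X)) := by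
  intro i hi
  have hi' : i < n := by simpa using hi
  unfold sq
  rw [List.getD_eq_getElem _ _ hi]
  simp

private theorem digits (hd : Dat G X cs) : ∀ k ≤ cs.length,
    (List.range (js cs k)).map (fun j => G.κ (G.F^[j] X)) = (cs.take k).flatten := by
  intro k
  induction k with
  | zero => intro _; simp [js]
  | succ k ih =>
    intro hk
    have hk' : k < cs.length := hk
    have ht := dat_time hd hk'.le
    have hb := hd k hk'
    rw [js_succ hk', List.range_add, List.map_append, ih hk'.le]
    have h1 : (cs.take (k + 1)).flatten = (cs.take k).flatten ++ sq cs k := by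
      rw [List.take_succ_eq_append_getElem hk', List.flatten_append]
      unfold sq
      rw [List.getD_eq_getElem _ _ hk']
      simp
    rw [h1]
    congr 1
    rw [← hb]
    have h2 : (blk G X k).length = ti G k (Vv G k X) := by simp [blk]
    rw [h2]
    unfold blk
    rw [List.map_map]
    apply List.map_congr_left
    intro r _
    simp only [Function.comp_apply]
    rw [ht.1, Nat.add_comm, Function.iterate_add_apply]

theorem way_maps (h : Rp e t G) (hd : Dat G X cs) (hk : k ≤ cs.length) :
    Maps (fnl (rp e (cs.take k).flatten.length)) X (Vv G k X) ∧ Maps (fnl (cs.take k).flatten.reverse) (Vv G k X) X := by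
  have ht := dat_time hd hk
  constructor
  · have := maps_rp h ht.2
    rw [ht.1]
    exact this
  · have := maps_back h ht.2
    rw [digits hd k hk] at this
    rw [ht.1]
    exact this

theorem mem_cnd {l : List (List ℕ)} (hl : l.length ≤ k) (hm : ∀ b ∈ l, encode b ≤ m) : l.flatten ∈ cnd m k := by
  induction k generalizing l with
  | zero =>
    have : l = [] := List.length_eq_zero_iff.1 (Nat.le_zero.1 hl)
    subst this
    simp [cnd]
  | succ k ih =>
    simp only [cnd, List.mem_flatMap, List.mem_map, List.mem_range]
    rcases List.eq_nil_or_concat l with h0 | ⟨l', b, h0⟩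
    · subst h0
      refine ⟨[], ?_, 0, Nat.succ_pos m, ?_⟩
      · have := ih (l := []) (Nat.zero_le k) (by simp)
        simpa using this
      · have : (Denumerable.ofNat (List ℕ) 0) = [] := by
          have h1 : encode ([] : List ℕ) = 0 := rfl
          rw [← h1, Denumerable.ofNat_encode]
        rw [this]
        rfl
    · subst h0
      refine ⟨l'.flatten, ih (l := l') (by simpa using hl) (fun c hc => hm c (by simp [hc])), encode b, ?_, ?_⟩
      · exact Nat.lt_succ_of_le (hm b (by simp))
      · rw [Denumerable.ofNat_encode]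
        simp

theorem pred_way (h : Rp e t G) (hn : Nx G Y X) (hm : Lv G X m) : ∃ w ∈ cnd m m, Maps (fnl w.reverse) X Y := by
  obtain ⟨m0, hm0, hlt⟩ := Nx_lt hn
  have hlt' := hlt m hm
  obtain ⟨m1, hm1, hX⟩ := hn
  have h01 : m0 = m1 := Lv_unique hm0 hm1
  subst h01
  have hk : kk m0 (blk G Y) ≤ m0 := kk_le _ _
  have hw := way_maps (k := kk m0 (blk G Y)) h (dat_blocks G Y (kk m0 (blk G Y))) (by simp)
  have htk : (((List.range (kk m0 (blk G Y))).map (blk G Y)).take (kk m0 (blk G Y))) =
      (List.range (kk m0 (blk G Y))).map (blk G Y) := by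
    apply List.take_of_length_le
    simp
  rw [htk] at hw
  refine ⟨((List.range (kk m0 (blk G Y))).map (blk G Y)).flatten, mem_cnd ?_ ?_, ?_⟩
  · simp only [List.length_map, List.length_range]
    omega
  · intro b hb
    rw [List.mem_map] at hb
    obtain ⟨i, hi, rfl⟩ := hb
    have := kk_spec (List.mem_range.1 hi)
    omega
  · rw [hX]
    exact hw.2

end Pool.Agent.OMP
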