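import Pool.Agent.OMP.NMB

/-!
# OMP/KTH: every orbit contains markers of every level

PROOF.  If `¬ Orb G X` some `¬ G.D (F^[j] X)`, a marker.  Otherwise let `x j = F^[j] X`, `g j = nm n (x j) < 2 ^ n`, and let `u` be the least number with `∀ N, ∃ j ≥ N, g j = u` (it exists by pigeonhole, e.g.
`Finite.exists_infinite_fiber` or by contradiction with finitely many bounds).  There is `N0` with `u ≤ g j` for all `j ≥ N0` (each smaller value occurs finitely often).  If `j ≥ N0`, `g j = u` then `Cc G n (x j)`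
(`Function.iterate_add_apply`).  Choose such `j < j'`.  If `∃ m, ¬ Cc G m (x j')` then `x j'` is a marker, if `∃ m, ¬ Cc G m (x j)` then `x j` is one.  Otherwise `Per G (x j)`:
suppose `x k ≠ x j` for all `j < k ≤ j'`.  Since `nm m (x j) ≤ nm m (x k)` for all `m` and `x j ≠ x k` (`nm_ext`) there is `m` with `nm m (x j) < nm m (x k)`, and this holds for all larger `m` (`nm_lt_mono`); let `m` be so large
that it holds for all `k` with `j < k ≤ j'`.  `Cc G m (x j)` gives `k > j` with `nm m (x k) = nm m (x j)`, so `k > j'`, but `nm m (x k) ≥ nm m (x j')` by `Cc G m (x j')`, contradiction.  All orbits of the `x j` stay in `D`.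
-/

set_option autoImplicit false

namespace Pool.Agent.OMP

open Encodable Nat.Partrec Pool.Agent.H19 Pool.Agent.AEI Pool.Agent.CMG Pool.Agent.CMD

theorem KTH_bd (n : ℕ) (P : ℕ → ℕ → Prop) (h : ∀ v < n, ∃ N, ∀ j ≥ N, P v j) :
    ∃ N0, ∀ v < n, ∀ j ≥ N0, P v j := by
  induction n with
  | zero => exact ⟨0, fun v hv => absurd hv (Nat.not_lt_zero v)⟩
  | succ n ih =>
    obtain ⟨N1, h1⟩ := ih fun v hv => h v (by omega)
    obtain ⟨N2, h2⟩ := h n (by omega)
    refine ⟨max N1 N2, fun v hv j hj => ?_⟩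
    rcases Nat.lt_succ_iff_lt_or_eq.1 hv with hv1 | hv1
    · exact h1 v hv1 j (le_trans (le_max_left _ _) hj)
    · subst hv1
      exact h2 j (le_trans (le_max_right _ _) hj)

theorem KTH_rec (g : ℕ → ℕ) (B : ℕ) (hg : ∀ j, g j < B) :
    ∃ u, (∀ N, ∃ j ≥ N, g j = u) ∧ ∃ N0, ∀ j ≥ N0, u ≤ g j := by
  classical
  have h0 : ∃ u, ∀ N, ∃ j ≥ N, g j = u := by
    by_contra hc
    push Not at hc
    obtain ⟨N0, hN0⟩ := KTH_bd B (fun v j => g j ≠ v) fun v _ => hc v
    exact hN0 (g N0) (hg N0) N0 le_rfl rfl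
  refine ⟨Nat.find h0, Nat.find_spec h0, ?_⟩
  obtain ⟨N0, hN0⟩ := KTH_bd (Nat.find h0) (fun v j => g j ≠ v) fun v hv => by
    have := Nat.find_min h0 hv
    push Not at this
    exact this
  refine ⟨N0, fun j hj => ?_⟩
  by_contra hlt
  exact hN0 (g j) (by omega) j hj rfl

theorem exists_Ht (G : Dyn) (n : ℕ) (X : ℕ → Bool) : ∃ j, Ht G n (G.F^[j] X) := by
  by_cases ho : Orb G X
  swap
  · unfold Orb at ho
    push Not at ho
    obtain ⟨j, hj⟩ := ho
    exact ⟨j, Or.inl hj⟩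
  obtain ⟨u, hu, N0, hN0⟩ := KTH_rec (fun j => nm n (G.F^[j] X)) (2 ^ n) (fun j => nm_lt n _)
  have hO : ∀ j, Orb G (G.F^[j] X) := fun j i => by
    rw [← Function.iterate_add_apply]
    exact ho _
  have hC : ∀ j ≥ N0, nm n (G.F^[j] X) = u → Cc G n (G.F^[j] X) := by
    intro j hj hju
    refine ⟨fun k hk => ?_, ?_⟩
    · rw [← Function.iterate_add_apply, hju]
      exact hN0 _ (by omega)
    · obtain ⟨i, hi, hiu⟩ := hu (j + 1)
      refine ⟨i - j, by omega, ?_⟩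
      rw [← Function.iterate_add_apply, hju, show i - j + j = i by omega]
      exact hiu
  obtain ⟨j, hj, hju⟩ := hu N0
  obtain ⟨j', hj', hju'⟩ := hu (j + 1)
  by_cases h1 : ∃ m, ¬ Cc G m (G.F^[j] X)
  · exact ⟨j, Or.inr ⟨hO j, hC j hj hju, Or.inl h1⟩⟩
  by_cases h2 : ∃ m, ¬ Cc G m (G.F^[j'] X)
  · exact ⟨j', Or.inr ⟨hO j', hC j' (by omega) hju', Or.inl h2⟩⟩
  push Not at h1 h2
  refine ⟨j, Or.inr ⟨hO j, hC j hj hju, Or.inr ?_⟩⟩
  by_contra hP
  have hne : ∀ k ≥ 1, G.F^[k] (G.F^[j] X) ≠ G.F^[j] X := fun k hk h => hP ⟨k, hk, h⟩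
  have h3 : ∀ k, 1 ≤ k → ∃ m, ∀ m' ≥ m, nm m' (G.F^[j] X) < nm m' (G.F^[k] (G.F^[j] X)) := by
    intro k hk
    have h4 : ∃ m, nm m (G.F^[j] X) < nm m (G.F^[k] (G.F^[j] X)) := by
      by_contra hc
      push Not at hc
      exact hne k hk (nm_ext fun m => le_antisymm (hc m) ((h1 m).1 k hk))
    obtain ⟨m, hm⟩ := h4
    exact ⟨m, fun m' hm' => nm_lt_mono hm' hm⟩
  obtain ⟨m, hm⟩ := KTH_bd (j' - j + 1)
    (fun k m' => 1 ≤ k → nm m' (G.F^[j] X) < nm m' (G.F^[k] (G.F^[j] X))) fun k _ => by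
      by_cases hk : 1 ≤ k
      · obtain ⟨m, hm⟩ := h3 k hk
        exact ⟨m, fun m' hm' _ => hm m' hm'⟩
      · exact ⟨0, fun m' _ h => absurd h hk⟩
  obtain ⟨k, hk, hkm⟩ := (h1 m).2
  by_cases hkj : k < j' - j + 1
  · have := hm k hkj m le_rfl hk
    omega
  · have h5 := hm (j' - j) (by omega) m le_rfl (by omega)
    have h6 := (h2 m).1 (k - (j' - j)) (by omega)
    rw [← Function.iterate_add_apply] at h5 h6 hkm
    rw [show j' - j + j = j' by omega] at h5
    rw [show k - (j' - j) + j' = k + j by omega] at h6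
    omega

end Pool.Agent.OMP
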