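import Pool.Agent.OMP.TAB

/-!
# OMP/LPS: the checks of the certificates depend only on smaller ones

PROOF.  `itm_le`: `foldl_max_le` (H19/Constr) or `List.le_foldl_max`; if `i` is not below the length the item is `(0, 0)`.  `umx_lt`: `bd (umx z) ≤ z` by `sta`, and `lt_bd` (CMD/POS).
`loc_Psi`: if `sta z = false` both sides are constant.  Otherwise every item pointer `v` is `< z`, so `v.unpair.1 ≤ v < z` and the checks used in `ptk`, `stb` are `< z` (`Nat.unpair_left_le`), on strings
`fnl c σ` and their initial segments, whose lengths are `≤ |σ|` (`fnl_len`).  `fir κ σ` uses `κ σ` and `κ σ.dropLast`.  `KK_eq`: `rc_eq`.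
-/

set_option autoImplicit false

namespace Pool.Agent.OMP

open Encodable Nat.Partrec Pool.Agent.H19 Pool.Agent.AEI Pool.Agent.CMG Pool.Agent.CMD

theorem dm_le (z : ℕ) : dm (dsc z) ≤ umx z := by
  unfold umx
  exact (foldl_max_le.1 le_rfl).1

theorem itm_le (z i : ℕ) : (itm z i).2 ≤ umx z := by
  unfold itm
  by_cases hi : i < (its z).length
  · rw [List.getD_eq_getElem _ _ hi]
    unfold umx
    exact (foldl_max_le.1 le_rfl).2 _ (List.mem_map.2 ⟨_, List.getElem_mem hi, rfl⟩)
  · rw [List.getD_eq_default _ _ (not_lt.1 hi)]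
    exact Nat.zero_le _

theorem umx_lt {z : ℕ} (h : sta z = true) : umx z < z := by
  unfold sta at h
  rw [Bool.and_eq_true, decide_eq_true_eq, decide_eq_true_eq] at h
  exact (lt_bd (umx z)).trans_le h.2

private theorem fir_congr {κ κ' : List Bool → Chk} {τ : List Bool} {L : ℕ} (hτ : τ.length ≤ L)
    (h : ∀ ρ : List Bool, ρ.length ≤ L → κ ρ = κ' ρ) : fir κ τ = fir κ' τ := by
  unfold fir
  rw [h τ hτ, h τ.dropLast (by rw [List.length_dropLast]; omega)]

private theorem all_congr' {α : Type} {l : List α} {p q : α → Bool} (h : ∀ x ∈ l, p x = q x) :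
    l.all p = l.all q := by
  rw [Bool.eq_iff_iff, List.all_eq_true, List.all_eq_true]
  exact forall₂_congr fun x hx => by rw [h x hx]

private theorem any_congr' {α : Type} {l : List α} {p q : α → Bool} (h : ∀ x ∈ l, p x = q x) :
    l.any p = l.any q := by
  rw [Bool.eq_iff_iff, List.any_eq_true, List.any_eq_true]
  exact exists_congr fun x => and_congr_right fun hx => by rw [h x hx]

private theorem ptk_congr {g g' : ℕ → List Bool → Chk} {ν : ℕ} {ρ : List Bool}
    (h : ∀ y ≤ ν, ∀ τ : List Bool, τ.length ≤ ρ.length → g y τ = g' y τ) :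
    ptk g ν ρ = ptk g' ν ρ := by
  have hu : ν.unpair.1 ≤ ν := Nat.unpair_left_le ν
  have h1 : stb g ν.unpair.1 ν.unpair.2 ρ = stb g' ν.unpair.1 ν.unpair.2 ρ := by
    unfold stb
    have e1 : ((List.range ν.unpair.1).all fun y => (List.range (ρ.length + 1)).all fun s =>
        !(decide (ν.unpair.2 < s) && fir (g y) (ρ.take s))) =
        ((List.range ν.unpair.1).all fun y => (List.range (ρ.length + 1)).all fun s =>
        !(decide (ν.unpair.2 < s) && fir (g' y) (ρ.take s))) := by
      refine all_congr' fun y hy => all_congr' fun s _ => ?_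
      rw [fir_congr (List.length_take_le' s ρ) (h y ((List.mem_range.1 hy).le.trans hu))]
    have e2 : ((List.range ν.unpair.1).any fun y => fir (g y) (ρ.take ν.unpair.2)) =
        ((List.range ν.unpair.1).any fun y => fir (g' y) (ρ.take ν.unpair.2)) := by
      refine any_congr' fun y hy => ?_
      rw [fir_congr (List.length_take_le' _ ρ) (h y ((List.mem_range.1 hy).le.trans hu))]
    rw [e1, e2]
  unfold ptk
  rw [h1, h _ hu ρ le_rfl]

theorem loc_Psi (S : HS) : Loc (fun g => Psi g S) := by
  intro g g' z σ h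
  simp only
  unfold Psi
  by_cases hs : sta z = true
  · rw [if_pos hs, if_pos hs]
    congr 2
    refine List.map_congr_left fun i _ => ?_
    unfold itk
    split_ifs with h0
    · rfl
    · refine ptk_congr fun y hy τ hτ => h y ?_ τ (hτ.trans (fnl_len _ _))
      exact (hy.trans (itm_le z i)).trans_lt (umx_lt hs)
  · rw [if_neg hs, if_neg hs]

theorem KK_eq (S : HS) (z : ℕ) (σ : List Bool) : KK S z σ = Psi (KK S) S z σ := by
  unfold KK
  exact rc_eq (loc_Psi S) z σ

end Pool.Agent.OMP
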