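import Pool.Agent.OMP.DDefs

/-!
# OMP/NMB: the numbers of the first bits, markers become fewer

PROOF.  `nm (n + 1) X = 2 * nm n X + (X n).toNat`, `(X n).toNat ≤ 1` (cases on `X n`), `omega`; the `mono` lemmas by induction on the difference (`Nat.le_induction`).  `nm_ext`: from `nm n`, `nm (n + 1)` equal get `X n = Y n`.
`Cc_anti`: `nm_le_mono`, `nm_eq_mono`.  `Ht_anti`: `Cc_anti`.
-/

set_option autoImplicit false

namespace Pool.Agent.OMP

open Encodable Nat.Partrec Pool.Agent.H19 Pool.Agent.AEI Pool.Agent.CMG Pool.Agent.CMD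

variable {G : Dyn} {m n : ℕ} {X Y : ℕ → Bool}

private theorem nmb_succ (n : ℕ) (X : ℕ → Bool) : nm (n + 1) X = 2 * nm n X + (X n).toNat := rfl

private theorem nmb_bit (b : Bool) : b.toNat ≤ 1 := by cases b <;> simp

theorem nm_lt (n : ℕ) (X : ℕ → Bool) : nm n X < 2 ^ n := by
  induction n with
  | zero => simp [nm]
  | succ n ih =>
    rw [nmb_succ, pow_succ]
    have := nmb_bit (X n)
    omega

theorem nm_le_mono (h : m ≤ n) (h1 : nm n X ≤ nm n Y) : nm m X ≤ nm m Y := by
  induction n, h using Nat.le_induction with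
  | base => exact h1
  | succ n hmn ih =>
    apply ih
    rw [nmb_succ, nmb_succ] at h1
    have h2 := nmb_bit (X n)
    have h3 := nmb_bit (Y n)
    omega

theorem nm_lt_mono (h : m ≤ n) (h1 : nm m X < nm m Y) : nm n X < nm n Y := by
  by_contra hc
  exact absurd (nm_le_mono h (not_lt.1 hc)) (not_le.2 h1)

theorem nm_eq_mono (h : m ≤ n) (h1 : nm n X = nm n Y) : nm m X = nm m Y :=
  le_antisymm (nm_le_mono h h1.le) (nm_le_mono h h1.ge)

theorem nm_ext (h : ∀ n, nm n X = nm n Y) : X = Y := by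
  funext n
  have h1 := h n
  have h2 := h (n + 1)
  rw [nmb_succ, nmb_succ] at h2
  have h3 : (X n).toNat = (Y n).toNat := by omega
  cases hX : X n <;> cases hY : Y n <;> rw [hX, hY] at h3 <;> simp_all

theorem Cc_anti (h : m ≤ n) (h1 : Cc G n X) : Cc G m X := by
  obtain ⟨h2, k, hk, h3⟩ := h1
  exact ⟨fun j hj => nm_le_mono h (h2 j hj), k, hk, nm_eq_mono h h3⟩

theorem Ht_anti (h : m ≤ n) (h1 : Ht G n X) : Ht G m X := by
  rcases h1 with h1 | ⟨h1, h2, h3⟩
  · exact Or.inl h1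
  · exact Or.inr ⟨h1, Cc_anti h h2, h3⟩

end Pool.Agent.OMP
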