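import Pool.Agent.OMP.DDefs

/-!
# OMP/ORB: orbits and ways

PROOF.  `maps_rp`: induction on `j` (`List.replicate_succ`, `maps_cons_iff` of CMD/FNA, `h.map`; generalize `X`, `Function.iterate_succ_apply`).  `orb_iff`: from right to left, `G.D (F^[j] X)` by strong induction on `j` (the `Y` is `F^[j] X` by `maps_rp` and `maps_uniq`).
`maps_back`: induction on `j`: the way `((List.range j).map (digit)).reverse` from `F^[j] X` to `X`: peel off the last step (`List.range_succ`, `List.map_append`, `List.reverse_append`, `Function.iterate_succ_apply'`, `h.bck`).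
-/

set_option autoImplicit false

namespace Pool.Agent.OMP

open Encodable Nat.Partrec Pool.Agent.H19 Pool.Agent.AEI Pool.Agent.CMG Pool.Agent.CMD

variable {e : ℕ} {t : List Bool → Bool} {G : Dyn} {X : ℕ → Bool} {j n : ℕ}

theorem maps_rp (h : Rp e t G) (hD : ∀ i < j, G.D (G.F^[i] X)) : Maps (fnl (rp e j)) X (G.F^[j] X) := by
  induction j generalizing X with
  | zero => exact maps_nil_iff.2 rfl
  | succ j ih =>
    show Maps (fnl (e :: List.replicate j e)) X _
    refine maps_cons_iff.2 ⟨G.F X, h.map X (hD 0 (Nat.succ_pos _)), ?_⟩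
    rw [Function.iterate_succ_apply]
    refine ih fun i hi => ?_
    rw [← Function.iterate_succ_apply]
    exact hD (i + 1) (Nat.succ_lt_succ hi)

theorem orb_iff (h : Rp e t G) : Orb G X ↔ ∀ j, ∃ Y, Maps (fnl (rp e j)) X Y ∧ G.D Y := by
  constructor
  · intro ho j
    exact ⟨G.F^[j] X, maps_rp h fun i _ => ho i, ho j⟩
  · intro ho j
    induction j using Nat.strong_induction_on with
    | _ j ih =>
      obtain ⟨Y, hY, hD⟩ := ho j
      rw [maps_uniq (maps_rp h ih) hY]
      exact hD

theorem D_of_not_Ht (hn : ¬ Ht G n X) : G.D X := by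
  by_contra hD
  exact hn (Or.inl hD)

theorem maps_back (h : Rp e t G) (hD : ∀ i < j, G.D (G.F^[i] X)) :
    Maps (fnl ((List.range j).map fun i => G.κ (G.F^[i] X)).reverse) (G.F^[j] X) X := by
  induction j with
  | zero => exact maps_nil_iff.2 rfl
  | succ j ih =>
    rw [List.range_succ, List.map_append, List.reverse_append]
    show Maps (fnl (G.κ (G.F^[j] X) :: _)) _ _
    refine maps_cons_iff.2 ⟨G.F^[j] X, ?_, ih fun i hi => hD i (Nat.lt_succ_of_lt hi)⟩
    rw [Function.iterate_succ_apply']
    exact h.bck _ (hD j (Nat.lt_succ_self j))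

end Pool.Agent.OMP
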