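import Pool.Agent.OMP.CDefs
import Pool.Agent.OMP.CCK
import Pool.Agent.CMD.PI2

/-!
# OMP/PIA: closure properties of Pi_2 families, part A

PROOF.  `comp`, `dec`: trivial.  `or`: the test `t a σ || t' a σ` (if it is true infinitely often, one of the two is).  `sig`: the test `(List.range (|σ| + 1)).any fun i => t a (σ.take i)`; `pi`: the same with `all`.
`all`: as `exists_one_test` in CMD/PI2, with the parameter `a`.  `and`: `all` for the tests `if n = 0 then t a else t' a`.
-/

set_option autoImplicit false

namespace Pool.Agent.OMP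

open Encodable Nat.Partrec Pool.Agent.H19 Pool.Agent.AEI Pool.Agent.CMG Pool.Agent.CMD

variable {α β : Type} [Primcodable α] [Primcodable β]

private def pcn6 (v : ℕ → List Bool → Bool) (m : ℕ) (σ : List Bool) : ℕ :=
  ((List.range (σ.length + 1)).filter fun s => v m (σ.take s)).length

private def ptt6 (v : ℕ → List Bool → Bool) (σ ρ : List Bool) : Bool :=
  (List.range ρ.length).all fun m => decide (ρ.length ≤ pcn6 v m σ)

private def pg6 (v : ℕ → List Bool → Bool) (σ : List Bool) : ℕ := lastI (ptt6 v σ) σ

private theorem inc6_iff {a : ℕ → ℕ} (ha : ∀ s, a s ≤ a (s + 1)) :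
    (∀ N, ∃ s ≥ N, a (s - 1) < a s) ↔ ∀ L, ∃ s, L ≤ a s := by
  have hm : Monotone a := monotone_nat_of_le_succ ha
  constructor
  · intro h L
    induction L with
    | zero => exact ⟨0, Nat.zero_le _⟩
    | succ L ih =>
      obtain ⟨s, hs⟩ := ih
      obtain ⟨s', h1, h2⟩ := h (s + 1)
      refine ⟨s', ?_⟩
      have h3 : a s ≤ a (s' - 1) := hm (by omega)
      omega
  · intro h
    by_contra hc
    push Not at hc
    obtain ⟨N, hN⟩ := hc
    have h1 : ∀ k, a (N + k) ≤ a N := by
      intro k
      induction k with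
      | zero => exact le_rfl
      | succ k ih =>
        have h2 := hN (N + (k + 1)) (by omega)
        have h3 : N + (k + 1) - 1 = N + k := by omega
        rw [h3] at h2
        omega
    obtain ⟨s, hs⟩ := h (a N + 1)
    have h4 : a s ≤ a N := by
      rcases le_total s N with h5 | h5
      · exact hm h5
      · obtain ⟨k, rfl⟩ := Nat.exists_eq_add_of_le h5
        exact h1 k
    omega

private theorem pcn6_pre (v : ℕ → List Bool → Bool) (m : ℕ) (Q : ℕ → Bool) (s : ℕ) :
    pcn6 v m (pre Q s) = ((List.range (s + 1)).filter fun i => v m (pre Q i)).length := by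
  unfold pcn6
  rw [pre_length]
  congr 1
  apply List.filter_congr
  intro i hi
  have := List.mem_range.1 hi
  rw [pre_take Q (by omega)]

private theorem pcn6_succ (v : ℕ → List Bool → Bool) (m : ℕ) (Q : ℕ → Bool) (s : ℕ) :
    pcn6 v m (pre Q (s + 1)) = pcn6 v m (pre Q s) + if v m (pre Q (s + 1)) = true then 1 else 0 := by
  rw [pcn6_pre, pcn6_pre, List.range_succ, List.filter_append, List.length_append]
  congr 1
  by_cases h : v m (pre Q (s + 1)) = true <;> simp [h]

private theorem pcn6_unb (v : ℕ → List Bool → Bool) (m : ℕ) (Q : ℕ → Bool) :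
    (∀ N, ∃ s ≥ N, v m (pre Q s) = true) ↔ ∀ L, ∃ s, L ≤ pcn6 v m (pre Q s) := by
  rw [← inc6_iff (a := fun s => pcn6 v m (pre Q s)) (fun s => by rw [pcn6_succ]; omega)]
  constructor
  · intro h N
    obtain ⟨s, hs, h1⟩ := h (N + 1)
    obtain ⟨k, rfl⟩ : ∃ k, s = k + 1 := ⟨s - 1, by omega⟩
    refine ⟨k + 1, by omega, ?_⟩
    show pcn6 v m (pre Q (k + 1 - 1)) < pcn6 v m (pre Q (k + 1))
    rw [Nat.add_sub_cancel, pcn6_succ, if_pos h1]
    omega
  · intro h N
    obtain ⟨s, hs, h1⟩ := h (N + 1)
    obtain ⟨k, rfl⟩ : ∃ k, s = k + 1 := ⟨s - 1, by omega⟩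
    refine ⟨k + 1, by omega, ?_⟩
    have h2 : pcn6 v m (pre Q (k + 1 - 1)) < pcn6 v m (pre Q (k + 1)) := h1
    rw [Nat.add_sub_cancel, pcn6_succ] at h2
    by_contra h3
    rw [if_neg h3] at h2
    omega

private theorem ptt6_iff (v : ℕ → List Bool → Bool) (σ ρ : List Bool) :
    ptt6 v σ ρ = true ↔ ∀ m < ρ.length, ρ.length ≤ pcn6 v m σ := by
  simp [ptt6, List.all_eq_true]

private theorem pg6_spec (v : ℕ → List Bool → Bool) (σ : List Bool) :
    ∀ m < pg6 v σ, pg6 v σ ≤ pcn6 v m σ := by
  intro m hm
  have h0 : 0 < lastI (ptt6 v σ) σ := by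
    have : 0 < pg6 v σ := by omega
    exact this
  have h1 := lastI_spec h0
  have h2 : (σ.take (lastI (ptt6 v σ) σ)).length = pg6 v σ := by
    rw [List.length_take, min_eq_left (lastI_le _ _)]
    rfl
  rw [ptt6_iff, h2] at h1
  exact h1 m hm

private theorem le_pg6 {v : ℕ → List Bool → Bool} {σ : List Bool} {L : ℕ} (hL : L ≤ σ.length)
    (h : ∀ m < L, L ≤ pcn6 v m σ) : L ≤ pg6 v σ := by
  refine le_lastI hL ?_
  have h2 : (σ.take L).length = L := by
    rw [List.length_take, min_eq_left hL]
  rw [ptt6_iff, h2]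
  exact h

private theorem pg6_len (v : ℕ → List Bool → Bool) (σ : List Bool) : pg6 v σ ≤ σ.length :=
  lastI_le _ _

private theorem pg6_succ (v : ℕ → List Bool → Bool) (Q : ℕ → Bool) (s : ℕ) :
    pg6 v (pre Q s) ≤ pg6 v (pre Q (s + 1)) := by
  refine le_pg6 ?_ ?_
  · have h := pg6_len v (pre Q s)
    rw [pre_length] at h ⊢
    omega
  · intro m hm
    refine (pg6_spec v (pre Q s) m hm).trans ?_
    rw [pcn6_succ]
    omega


private theorem comp_pcn6 {t : α × ℕ → List Bool → Bool} (ht : Computable₂ t) {γ : Type} [Primcodable γ]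
    {f : γ → α} {m : γ → ℕ} {σ : γ → List Bool} (hf : Computable f) (hm : Computable m) (hσ : Computable σ) :
    Computable fun c => pcn6 (fun n => t (f c, n)) (m c) (σ c) := by
  have hg : Computable₂ fun (c : γ) (s : ℕ) => t (f c, m c) ((σ c).take s) :=
    ht.comp ((hf.comp Computable.fst).pair (hm.comp Computable.fst))
      (comp_take Computable.snd (hσ.comp Computable.fst))
  exact Computable.list_length.comp
    (comp_list_filter (comp_range (Computable.succ.comp (Computable.list_length.comp hσ))) hg)

private theorem comp_ptt6 {t : α × ℕ → List Bool → Bool} (ht : Computable₂ t) :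
    Computable₂ fun (c : α × List Bool) (ρ : List Bool) => ptt6 (fun n => t (c.1, n)) c.2 ρ := by
  have hl : Computable fun z : (α × List Bool) × List Bool => z.2.length :=
    Computable.list_length.comp Computable.snd
  have hg : Computable₂ fun (z : (α × List Bool) × List Bool) (m : ℕ) =>
      decide (z.2.length ≤ pcn6 (fun n => t (z.1.1, n)) m z.1.2) :=
    comp_decLe (hl.comp Computable.fst)
      (comp_pcn6 ht (Computable.fst.comp (Computable.fst.comp Computable.fst)) Computable.snd
        (Computable.snd.comp (Computable.fst.comp Computable.fst)))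
  exact comp_list_all (comp_range hl) hg

private theorem comp_pg6 {t : α × ℕ → List Bool → Bool} (ht : Computable₂ t) :
    Computable fun c : α × List Bool => pg6 (fun n => t (c.1, n)) c.2 :=
  comp_lastI (comp_ptt6 ht) Computable.snd

private theorem comp_dl6 : Computable fun σ : List Bool => σ.dropLast := by
  have h : Computable fun σ : List Bool => σ.take (σ.length - 1) :=
    comp_take (Computable.pred.comp Computable.list_length) Computable.id
  exact h.of_eq fun σ => (List.dropLast_eq_take).symm

private theorem one6 (v : ℕ → List Bool → Bool) (Q : ℕ → Bool) :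
    (∀ N, ∃ s ≥ N, decide (pg6 v (pre Q s).dropLast < pg6 v (pre Q s)) = true) ↔
      ∀ m N, ∃ s ≥ N, v m (pre Q s) = true := by
  have h1 : (∀ N, ∃ s ≥ N, decide (pg6 v (pre Q s).dropLast < pg6 v (pre Q s)) = true) ↔
      ∀ L, ∃ s, L ≤ pg6 v (pre Q s) := by
    rw [← inc6_iff (a := fun s => pg6 v (pre Q s)) (pg6_succ v Q)]
    simp only [decide_eq_true_eq, dropLast_pre]
  have h2 : (∀ m N, ∃ s ≥ N, v m (pre Q s) = true) ↔ ∀ m L, ∃ s, L ≤ pcn6 v m (pre Q s) :=
    forall_congr' fun m => pcn6_unb v m Q
  rw [h1, h2]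
  constructor
  · intro h m L
    obtain ⟨s, hs⟩ := h (max (m + 1) L)
    refine ⟨s, ?_⟩
    have h3 := pg6_spec v (pre Q s) m (by have := le_max_left (m + 1) L; omega)
    have := le_max_right (m + 1) L
    omega
  · intro h L
    choose f hf using h
    have hm : ∀ m, Monotone fun s => pcn6 v m (pre Q s) := fun m =>
      monotone_nat_of_le_succ fun s => by rw [pcn6_succ]; omega
    refine ⟨max L ((Finset.range L).sup fun m => f m L), le_pg6 ?_ fun m hm' => ?_⟩
    · rw [pre_length]; exact le_max_left _ _
    · refine (hf m L).trans (hm m ?_)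
      refine le_trans ?_ (le_max_right _ _)
      exact Finset.le_sup (f := fun m => f m L) (Finset.mem_range.2 hm')

theorem P2f.comp {A : β → (ℕ → Bool) → Prop} (h : P2f A) {f : α → β} (hf : Computable f) :
    P2f fun a X => A (f a) X := by
  obtain ⟨t, ht, h⟩ := h
  exact ⟨fun a => t (f a), ht.comp (hf.comp Computable.fst) Computable.snd, fun a X => h (f a) X⟩

theorem P2f.dec {c : α → Bool} (hc : Computable c) : P2f fun (a : α) (_ : ℕ → Bool) => c a = true := by
  refine ⟨fun a _ => c a, hc.comp Computable.fst, fun a X => ⟨fun h N => ⟨N, le_rfl, h⟩, fun h => ?_⟩⟩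
  obtain ⟨s, _, hs⟩ := h 0
  exact hs

theorem P2f.or {A B : α → (ℕ → Bool) → Prop} (h : P2f A) (h' : P2f B) : P2f fun a X => A a X ∨ B a X := by
  obtain ⟨t, ht, h⟩ := h
  obtain ⟨t', ht', h'⟩ := h'
  refine ⟨fun a σ => t a σ || t' a σ, comp_or ht ht', fun a X => ?_⟩
  show A a X ∨ B a X ↔ _
  rw [h, h']
  constructor
  · rintro (h1 | h1) N
    · obtain ⟨s, hs, h2⟩ := h1 N
      exact ⟨s, hs, by simp [h2]⟩
    · obtain ⟨s, hs, h2⟩ := h1 N
      exact ⟨s, hs, by simp [h2]⟩
  · intro h1
    by_contra hc
    rw [not_or] at hc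
    obtain ⟨h2, h3⟩ := hc
    unfold Inf at h2 h3
    push Not at h2 h3
    obtain ⟨N, hN⟩ := h2
    obtain ⟨N', hN'⟩ := h3
    obtain ⟨s, hs, h4⟩ := h1 (max N N')
    have h5 := hN s (le_trans (le_max_left _ _) hs)
    have h6 := hN' s (le_trans (le_max_right _ _) hs)
    rcases (Bool.or_eq_true _ _).mp h4 with h7 | h7
    · exact h5 h7
    · exact h6 h7

theorem P2f.all {A : α × ℕ → (ℕ → Bool) → Prop} (h : P2f A) : P2f fun a X => ∀ n, A (a, n) X := by
  obtain ⟨t, ht, h⟩ := h
  refine ⟨fun a σ => decide (pg6 (fun n => t (a, n)) σ.dropLast < pg6 (fun n => t (a, n)) σ), ?_, fun a X => ?_⟩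
  · have h1 : Computable fun z : α × List Bool => pg6 (fun n => t (z.1, n)) z.2.dropLast :=
      (comp_pg6 ht).comp (Computable.fst.pair (comp_dl6.comp Computable.snd))
    exact comp_decLt h1 (comp_pg6 ht)
  · unfold Inf
    rw [one6 (fun n => t (a, n)) X]
    exact forall_congr' fun n => h (a, n) X

theorem P2f.and {A B : α → (ℕ → Bool) → Prop} (h : P2f A) (h' : P2f B) : P2f fun a X => A a X ∧ B a X := by
  obtain ⟨t, ht, h⟩ := h
  obtain ⟨t', ht', h'⟩ := h'
  have h1 : P2f fun (z : α × ℕ) (X : ℕ → Bool) => if z.2 = 0 then A z.1 X else B z.1 X := by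
    refine ⟨fun z σ => if decide (z.2 = 0) then t z.1 σ else t' z.1 σ, ?_, fun z X => ?_⟩
    · exact comp_ite (c := fun p : (α × ℕ) × List Bool => decide (p.1.2 = 0))
        (comp_decEq (Computable.snd.comp Computable.fst) (Computable.const 0))
        (ht.comp (Computable.fst.comp Computable.fst) Computable.snd)
        (ht'.comp (Computable.fst.comp Computable.fst) Computable.snd)
    · by_cases hz : z.2 = 0
      · simp only [hz, if_true, decide_true]
        exact h z.1 X
      · simp only [hz, if_false, decide_false]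
        exact h' z.1 X
  obtain ⟨u, hu, h2⟩ := h1.all
  refine ⟨u, hu, fun a X => ?_⟩
  rw [← h2 a X]
  constructor
  · rintro ⟨h3, h4⟩ n
    by_cases hn : n = 0
    · simpa [hn] using h3
    · simpa [hn] using h4
  · intro h3
    exact ⟨by simpa using h3 0, by simpa using h3 1⟩

theorem P2f.sig {t : α → List Bool → Bool} (ht : Computable₂ t) : P2f fun a X => ∃ s, t a (pre X s) = true := by
  refine ⟨fun a σ => (List.range (σ.length + 1)).any fun i => t a (σ.take i), ?_, fun a X => ?_⟩
  · have hg : Computable₂ fun (z : α × List Bool) (i : ℕ) => t z.1 (z.2.take i) :=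
      ht.comp (Computable.fst.comp Computable.fst)
        (comp_take Computable.snd (Computable.snd.comp Computable.fst))
    exact comp_list_any (comp_range (Computable.succ.comp (Computable.list_length.comp Computable.snd))) hg
  · constructor
    · rintro ⟨s, hs⟩ N
      refine ⟨max N s, le_max_left _ _, ?_⟩
      rw [List.any_eq_true]
      refine ⟨s, ?_, ?_⟩
      · rw [List.mem_range, pre_length]
        have := le_max_right N s
        omega
      · show t a ((pre X (max N s)).take s) = true
        rw [pre_take X (le_max_right _ _)]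
        exact hs
    · intro h
      obtain ⟨s, _, hs⟩ := h 0
      rw [List.any_eq_true] at hs
      obtain ⟨i, hi, h1⟩ := hs
      rw [List.mem_range, pre_length] at hi
      rw [pre_take X (by omega)] at h1
      exact ⟨i, h1⟩

theorem P2f.pi {t : α → List Bool → Bool} (ht : Computable₂ t) : P2f fun a X => ∀ s, t a (pre X s) = true := by
  refine ⟨fun a σ => (List.range (σ.length + 1)).all fun i => t a (σ.take i), ?_, fun a X => ?_⟩
  · have hg : Computable₂ fun (z : α × List Bool) (i : ℕ) => t z.1 (z.2.take i) :=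
      ht.comp (Computable.fst.comp Computable.fst)
        (comp_take Computable.snd (Computable.snd.comp Computable.fst))
    exact comp_list_all (comp_range (Computable.succ.comp (Computable.list_length.comp Computable.snd))) hg
  · constructor
    · intro h N
      refine ⟨N, le_rfl, ?_⟩
      rw [List.all_eq_true]
      intro i hi
      rw [List.mem_range, pre_length] at hi
      show t a ((pre X N).take i) = true
      rw [pre_take X (by omega)]
      exact h i
    · intro h s
      obtain ⟨s', hs', h1⟩ := h s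
      rw [List.all_eq_true] at h1
      have h2 := h1 s (by rw [List.mem_range, pre_length]; omega)
      rw [pre_take X hs'] at h2
      exact h2

end Pool.Agent.OMP
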