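import Pool.Agent.OMP.PIA
import Pool.Agent.OMP.CPS
import Pool.Agent.CMD.COM

/-!
# OMP/PIB: closure properties of Pi_2 families, part B: substitution

PROOF.  `sub`: by `Hd_ctk`, `Hd_sub` (CCK) and `fir_inf` (CMD/FIR): the test `fir (fun σ => ctk (t a) (fnl (l a) σ)) σ`; computable by `comp_fir`, `comp_cnt` (CPS), `comp_fnl`.  `fix`: `ivc (l a)` with `Hd_ivc`, `Gd_ivc` (CMD/COM)
and `fir_inf`.  `tot`: `sub` with `A = True`.
-/

set_option autoImplicit false

namespace Pool.Agent.OMP

open Encodable Nat.Partrec Pool.Agent.H19 Pool.Agent.AEI Pool.Agent.CMG Pool.Agent.CMD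

variable {α : Type} [Primcodable α]

private theorem comp_sbk {t : α → List Bool → Bool} (ht : Computable₂ t) {l : α → List ℕ}
    (hl : Computable l) {β : Type} [Primcodable β] :
    Computable₂ fun (p : α × β) (σ : List Bool) => ctk (t p.1) (fnl (l p.1) σ) := by
  have h1 : Computable₂ fun (q : (α × β) × List Bool) (σ : List Bool) => t q.1.1 σ :=
    ht.comp ((Computable.fst.comp Computable.fst).comp Computable.fst) Computable.snd
  exact (Computable.const true).pair (comp_cnt (t := fun q : (α × β) × List Bool => t q.1.1) h1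
    (comp_fnl ((hl.comp Computable.fst).comp Computable.fst) Computable.snd))

theorem P2f.sub {A : α → (ℕ → Bool) → Prop} (h : P2f A) {l : α → List ℕ} (hl : Computable l) :
    P2f fun a X => ∃ Y, Maps (fnl (l a)) X Y ∧ A a Y := by
  obtain ⟨t, ht, hA⟩ := h
  refine ⟨fun a σ => fir (fun τ => ctk (t a) (fnl (l a) τ)) σ, ?_, fun a X => ?_⟩
  · exact comp_fir (κ := fun (p : α × List Bool) (τ : List Bool) => ctk (t p.1) (fnl (l p.1) τ))
      (comp_sbk ht hl) Computable.snd
  · have h1 := fir_inf (X := X) (Gd_sub (Gd_ctk (t a)) (l a))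
    have h2 := Hd_sub (X := X) (l := l a) (Gd_ctk (t a))
    refine Iff.trans ?_ (h2.symm.trans h1.symm)
    simp only [Hd_ctk, hA]

theorem P2f.fix {l : α → List ℕ} (hl : Computable l) : P2f fun a X => Maps (fnl (l a)) X X := by
  refine ⟨fun a σ => fir (ivc (l a)) σ, ?_, fun a X => ?_⟩
  · exact comp_fir (κ := fun (p : α × List Bool) (τ : List Bool) => ivc (l p.1) τ)
      (comp_ivc ((hl.comp Computable.fst).comp Computable.fst) Computable.snd) Computable.snd
  · exact Hd_ivc.symm.trans (fir_inf (Gd_ivc (l a))).symm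

theorem P2f.tot {l : α → List ℕ} (hl : Computable l) : P2f fun a X => ∃ Y, Maps (fnl (l a)) X Y := by
  obtain ⟨t, ht, h⟩ := P2f.sub (P2f.dec (α := α) (c := fun _ => true) (Computable.const true)) hl
  refine ⟨t, ht, fun a X => ?_⟩
  rw [← h a X]
  simp

end Pool.Agent.OMP
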