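import Pool.Agent.OMP.ORB
import Pool.Agent.OMP.PIB
import Pool.Agent.OMP.NMB

/-!
# OMP/PRA: the predicates for markers are Pi_2

PROOF.  Let `nml n σ` be the number with the binary digits `σ 0, ..., σ (n - 1)` (e.g. `(σ.take n).foldl (fun r b => 2 * r + b.toNat) 0`; `nml n (pre X s) = nm n X` for `n ≤ s`; computable by `comp_list_foldl`).
`P2_Orb`: `orb_iff`, `P2f.all`, `P2f.sub`, `P2_D`, `rp e j` is computable in `j`.  The others are `P2_Orb.and (..)` up to equivalence; given `Orb G X` all `F^[k] X` are the images of `X` under `fnl (rp e k)` (`maps_rp`), so with `out k σ = fnl (rp e k) σ`: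
`∀ k ≥ 1, nm n X ≤ nm n (F^[k] X)` iff for all `k ≥ 1` and all `s`: if `n ≤ |out k (pre X s)|` then `nml n (pre X s) ≤ nml n (out k (pre X s))` (`P2f.all`, `P2f.pi`; `|out k σ| ≤ |σ|`);
`∃ k ≥ 1, nm n (F^[k] X) = nm n X` iff for some `s` some `k`, `1 ≤ k ≤ s`, has `n ≤ |out k (pre X s)|` and `nml n (pre X s) = nml n (out k (pre X s))` (`P2f.sig`); the negations likewise.
`¬ Per G X` iff for all `k ≥ 1` there is `s` such that `out k (pre X s)` is not an initial segment of `pre X s` (`P2f.all`, `P2f.sig`).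
-/

set_option autoImplicit false

namespace Pool.Agent.OMP

open Encodable Nat.Partrec Pool.Agent.H19 Pool.Agent.AEI Pool.Agent.CMG Pool.Agent.CMD

variable {e : ℕ} {t : List Bool → Bool} {G : Dyn} {α : Type} [Primcodable α]

theorem comp_rp {e : ℕ} {j : α → ℕ} (hj : Computable j) : Computable fun a => rp e (j a) := by
  refine (comp_list_map (g := fun (_ : α) (_ : ℕ) => e) (comp_range hj) (Computable.const e)).of_eq
    fun a => ?_
  simp [rp]

theorem P2_D (h : Rp e t G) : P2f fun (_ : α) X => G.D X :=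
  ⟨fun _ σ => t σ, h.comp.comp Computable.snd, fun _ X => h.dom X⟩

theorem P2_Orb (h : Rp e t G) : P2f fun (_ : α) X => Orb G X := by
  obtain ⟨u, hu, h1⟩ := P2f.all (α := α) (P2f.sub (P2_D (α := α × ℕ) h)
    (l := fun p => rp e p.2) (comp_rp Computable.snd))
  exact ⟨u, hu, fun a X => (orb_iff h).trans (h1 a X)⟩

/-! ### The number of a string -/

private def nml (n : ℕ) (σ : List Bool) : ℕ := (σ.take n).foldl (fun r b => 2 * r + b.toNat) 0

private theorem foldl_pre (n : ℕ) (X : ℕ → Bool) :
    (pre X n).foldl (fun r b => 2 * r + b.toNat) 0 = nm n X := by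
  induction n with
  | zero => rfl
  | succ n ih =>
    rw [pre_succ, List.foldl_append, ih]
    rfl

private theorem nml_pre {n s : ℕ} (h : n ≤ s) (X : ℕ → Bool) : nml n (pre X s) = nm n X := by
  unfold nml
  rw [pre_take X h, foldl_pre]

private theorem comp_nml {n : α → ℕ} {σ : α → List Bool} (hn : Computable n) (hσ : Computable σ) :
    Computable fun a => nml (n a) (σ a) := by
  refine comp_list_foldl (h := fun (_ : α) (p : ℕ × Bool) => 2 * p.1 + p.2.toNat) (comp_take hn hσ)
    (Computable.const 0) ?_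
  have h1 : Computable fun b : Bool => b.toNat :=
    (Primrec.dom_finite (fun b : Bool => b.toNat)).to_comp
  have h2 : Computable fun r : ℕ => 2 * r := (Primrec.nat_mul.comp (Primrec.const 2) Primrec.id).to_comp
  exact Primrec.nat_add.to_comp.comp (h2.comp (Computable.fst.comp Computable.snd))
    (h1.comp (Computable.snd.comp Computable.snd))

/-- Step number `k` has enough digits, and the two numbers are in the relation `c`. -/
private def tq (e : ℕ) (c : ℕ → ℕ → Bool) (n k : ℕ) (σ : List Bool) : Bool :=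
  (decide (1 ≤ k) && decide (n ≤ (fnl (rp e k) σ).length)) && c (nml n σ) (nml n (fnl (rp e k) σ))

private theorem comp_tq {c : ℕ → ℕ → Bool} (hc : Computable₂ c) {n k : α → ℕ} {σ : α → List Bool}
    (hn : Computable n) (hk : Computable k) (hσ : Computable σ) :
    Computable fun a => tq e c (n a) (k a) (σ a) := by
  have h1 : Computable fun a => fnl (rp e (k a)) (σ a) := comp_fnl (comp_rp hk) hσ
  exact comp_and (comp_and (comp_decLe (Computable.const 1) hk)
    (comp_decLe hn (Computable.list_length.comp h1)))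
    (hc.comp (comp_nml hn hσ) (comp_nml hn h1))

private theorem tq_iff {X Y : ℕ → Bool} {c : ℕ → ℕ → Bool} {n k s : ℕ}
    (hY : Maps (fnl (rp e k)) X Y) : tq e c n k (pre X s) = true ↔
      1 ≤ k ∧ n ≤ (fnl (rp e k) (pre X s)).length ∧ c (nm n X) (nm n Y) = true := by
  unfold tq
  rw [Bool.and_eq_true, Bool.and_eq_true, decide_eq_true_iff, decide_eq_true_iff, and_assoc]
  refine and_congr_right fun _ => and_congr_right fun h1 => ?_
  have h2 : (fnl (rp e k) (pre X s)).length ≤ s := by
    have := fnl_len (rp e k) (pre X s)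
    rwa [pre_length] at this
  have h3 : nml n (fnl (rp e k) (pre X s)) = nm n Y := by
    rw [maps_pre (fnl_mono _) hY s]
    exact nml_pre h1 Y
  rw [nml_pre (h1.trans h2), h3]

/-- There is a step with the relation `c`. -/
private theorem P2_ex (h : Rp e t G) {c : ℕ → ℕ → Bool} (hc : Computable₂ c) :
    ∃ A : ℕ → (ℕ → Bool) → Prop, P2f A ∧
      ∀ n X, Orb G X → (A n X ↔ ∃ k ≥ 1, c (nm n X) (nm n (G.F^[k] X)) = true) := by
  have h1 : Computable₂ fun (n : ℕ) (σ : List Bool) =>
      (List.range (σ.length + 1)).any fun k => tq e c n k σ := by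
    refine comp_list_any (g := fun (p : ℕ × List Bool) k => tq e c p.1 k p.2)
      (comp_range (Computable.succ.comp (Computable.list_length.comp Computable.snd))) ?_
    exact comp_tq hc (Computable.fst.comp Computable.fst) Computable.snd
      (Computable.snd.comp Computable.fst)
  refine ⟨_, P2f.sig h1, fun n X hO => ?_⟩
  have hm : ∀ k, Maps (fnl (rp e k)) X (G.F^[k] X) := fun k => maps_rp h fun i _ => hO i
  constructor
  · rintro ⟨s, hs⟩
    rw [List.any_eq_true] at hs
    obtain ⟨k, -, hk⟩ := hs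
    rw [tq_iff (hm k)] at hk
    exact ⟨k, hk.1, hk.2.2⟩
  · rintro ⟨k, hk, h2⟩
    obtain ⟨s0, hs0⟩ := maps_len (fnl_mono (rp e k)) (hm k) n
    refine ⟨max s0 k, ?_⟩
    rw [List.any_eq_true]
    refine ⟨k, ?_, ?_⟩
    · rw [List.mem_range, pre_length]
      exact Nat.lt_succ_of_le (le_max_right _ _)
    · rw [tq_iff (hm k)]
      exact ⟨hk, hs0 _ (le_max_left _ _), h2⟩

/-- All steps have the relation `c`. -/
private theorem P2_fa (h : Rp e t G) {c : ℕ → ℕ → Bool} (hc : Computable₂ c) :
    ∃ A : ℕ → (ℕ → Bool) → Prop, P2f A ∧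
      ∀ n X, Orb G X → (A n X ↔ ∀ k ≥ 1, c (nm n X) (nm n (G.F^[k] X)) = true) := by
  have hc' : Computable₂ fun a b => !c a b := comp_not hc
  have h1 : Computable₂ fun (p : ℕ × ℕ) (σ : List Bool) => !tq e (fun a b => !c a b) p.1 p.2 σ :=
    comp_not (comp_tq hc' (Computable.fst.comp Computable.fst) (Computable.snd.comp Computable.fst)
      Computable.snd)
  refine ⟨_, P2f.all (P2f.pi h1), fun n X hO => ?_⟩
  have hm : ∀ k, Maps (fnl (rp e k)) X (G.F^[k] X) := fun k => maps_rp h fun i _ => hO i
  constructor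
  · intro h2 k hk
    obtain ⟨s0, hs0⟩ := maps_len (fnl_mono (rp e k)) (hm k) n
    by_contra h3
    have h4 : tq e (fun a b => !c a b) n k (pre X s0) = true := by
      rw [tq_iff (hm k)]
      refine ⟨hk, hs0 _ le_rfl, ?_⟩
      simpa using h3
    have h5 := h2 k s0
    simp only [h4] at h5
    exact absurd h5 (by decide)
  · intro h2 k s
    show (!tq e (fun a b => !c a b) n k (pre X s)) = true
    rw [Bool.not_eq_true']
    by_contra h3
    rw [Bool.not_eq_false] at h3
    rw [tq_iff (hm k)] at h3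
    have h4 := h2 k h3.1
    simp [h4] at h3

private theorem c_le : Computable₂ fun a b : ℕ => decide (a ≤ b) :=
  comp_decLe Computable.fst Computable.snd

private theorem c_lt : Computable₂ fun a b : ℕ => decide (b < a) :=
  comp_decLt Computable.snd Computable.fst

private theorem c_eq : Computable₂ fun a b : ℕ => decide (b = a) :=
  comp_decEq Computable.snd Computable.fst

private theorem c_ne : Computable₂ fun a b : ℕ => !decide (b = a) := comp_not c_eq

theorem P2_Cc (h : Rp e t G) : P2f fun (n : ℕ) X => Orb G X ∧ Cc G n X := by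
  obtain ⟨A, hA, hA'⟩ := P2_fa h c_le
  obtain ⟨B, hB, hB'⟩ := P2_ex h c_eq
  obtain ⟨u, hu, h1⟩ := (P2_Orb (α := ℕ) h).and (hA.and hB)
  refine ⟨u, hu, fun n X => ?_⟩
  rw [← h1 n X]
  refine and_congr_right fun hO => ?_
  unfold Cc
  rw [hA' n X hO, hB' n X hO]
  simp only [decide_eq_true_iff]

theorem P2_nCc (h : Rp e t G) : P2f fun (n : ℕ) X => Orb G X ∧ ¬ Cc G n X := by
  obtain ⟨A, hA, hA'⟩ := P2_ex h c_lt
  obtain ⟨B, hB, hB'⟩ := P2_fa h c_ne
  obtain ⟨u, hu, h1⟩ := (P2_Orb (α := ℕ) h).and (hA.or hB)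
  refine ⟨u, hu, fun n X => ?_⟩
  rw [← h1 n X]
  refine and_congr_right fun hO => ?_
  unfold Cc
  rw [hA' n X hO, hB' n X hO]
  simp only [decide_eq_true_iff, Bool.not_eq_true', decide_eq_false_iff_not]
  rw [not_and_or]
  push Not
  rfl

theorem P2_nPer (h : Rp e t G) : P2f fun (_ : α) X => Orb G X ∧ ¬ Per G X := by
  have h1 : Computable₂ fun (p : α × ℕ) (σ : List Bool) =>
      decide (p.2 = 0) || !isPre (fnl (rp e p.2) σ) σ :=
    comp_or (comp_decEq (Computable.snd.comp Computable.fst) (Computable.const 0))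
      (comp_not (comp_isPre (comp_fnl (comp_rp (Computable.snd.comp Computable.fst)) Computable.snd)
        Computable.snd))
  obtain ⟨u, hu, h2⟩ := (P2_Orb (α := α) h).and (P2f.all (P2f.sig h1))
  refine ⟨u, hu, fun a X => ?_⟩
  rw [← h2 a X]
  refine and_congr_right fun hO => ?_
  have hm : ∀ k, Maps (fnl (rp e k)) X (G.F^[k] X) := fun k => maps_rp h fun i _ => hO i
  have h3 : ∀ k, (∃ s, (!isPre (fnl (rp e k) (pre X s)) (pre X s)) = true) ↔ G.F^[k] X ≠ X := by
    intro k
    constructor
    · rintro ⟨s, hs⟩ hX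
      rw [Bool.not_eq_true'] at hs
      have h4 : isPre (fnl (rp e k) (pre X s)) (pre X s) = true := by
        rw [isPre_iff]
        have h5 := hm k
        rw [hX] at h5
        rw [maps_pre (fnl_mono _) h5 s]
        refine pre_mono X ?_
        have := fnl_len (rp e k) (pre X s)
        rwa [pre_length] at this
      rw [h4] at hs
      exact absurd hs (by decide)
    · intro hX
      obtain ⟨i, hi⟩ := Function.ne_iff.1 hX
      obtain ⟨s0, hs0⟩ := maps_len (fnl_mono (rp e k)) (hm k) (i + 1)
      refine ⟨s0, ?_⟩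
      rw [Bool.not_eq_true']
      by_contra h4
      rw [Bool.not_eq_false, isPre_iff] at h4
      have h5 := hs0 s0 le_rfl
      have h6 : (fnl (rp e k) (pre X s0)).length ≤ s0 := by
        have := fnl_len (rp e k) (pre X s0)
        rwa [pre_length] at this
      have h7 := List.IsPrefix.getElem h4 (i := i) (by omega)
      have h8 : (fnl (rp e k) (pre X s0))[i]? = some (G.F^[k] X i) := by
        rw [maps_pre (fnl_mono _) (hm k) s0]
        exact pre_getElem? _ (by omega)
      have h9 : (pre X s0)[i]? = some (X i) := pre_getElem? _ (by omega)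
      rw [List.getElem?_eq_getElem (by omega)] at h8
      rw [List.getElem?_eq_getElem (by rw [pre_length]; omega)] at h9
      apply hi
      have h10 := Option.some.inj h8
      have h11 := Option.some.inj h9
      rw [← h10, ← h11, h7]
  constructor
  · intro hp k
    rcases Nat.eq_zero_or_pos k with h4 | h4
    · exact ⟨0, by simp [h4]⟩
    · obtain ⟨s, hs⟩ := (h3 k).2 fun hX => hp ⟨k, h4, hX⟩
      exact ⟨s, by simp only [hs, Bool.or_true]⟩
  · rintro hp ⟨k, hk, hX⟩
    obtain ⟨s, hs⟩ := hp k
    rw [Bool.or_eq_true, decide_eq_true_iff] at hs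
    rcases hs with hs | hs
    · have : k = 0 := hs
      omega
    · exact (h3 k).1 ⟨s, hs⟩ hX

end Pool.Agent.OMP
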