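import Pool.Agent.OMP.PIB

/-!
# OMP/SIA: closure properties of Sigma_3 families

PROOF.  `of`: ignore `w`.  `not`: `¬ Inf t X` iff for some `w` all `s` satisfy `s < w ∨ t (pre X s) = false`; `P2f.pi` for the test `decide (|σ| < w) || !(t a σ)`.  `and`, `ex`: pair the witnesses (`Nat.pair`, `encode`; `decode` fails: the test is constantly false); `or`: the
witness `2 w` or `2 w + 1` (or `P2f.or` for the pair of witnesses).  `ball`: the witness codes a list `ws` of numbers (`Denumerable.ofNat (List ℕ)`); the family over `((a, w), i)`: if `(L a)[i]? = some b` then the test for `((a, b), ws.getD i 0)`, else true; `P2f.all`.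
From right to left choose the witnesses for all `b ∈ L a` and take the list of them in the order of `L a`.  `sub`: `P2f.sub` for the family over `(a, w)`.
-/

set_option autoImplicit false

namespace Pool.Agent.OMP

open Encodable Nat.Partrec Pool.Agent.H19 Pool.Agent.AEI Pool.Agent.CMG Pool.Agent.CMD

variable {α β : Type} [Primcodable α] [Primcodable β]

theorem P2f.toS3f {A : α → (ℕ → Bool) → Prop} {B : α × ℕ → (ℕ → Bool) → Prop} (hB : P2f B)
    (h : ∀ a X, A a X ↔ ∃ w, B (a, w) X) : S3f A := by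
  obtain ⟨t, ht, hB⟩ := hB
  refine ⟨t, ht, fun a X => (h a X).trans ?_⟩
  exact exists_congr fun w => hB (a, w) X

theorem S3f.toP2f {A : α → (ℕ → Bool) → Prop} (h : S3f A) :
    ∃ B : α × ℕ → (ℕ → Bool) → Prop, P2f B ∧ ∀ a X, A a X ↔ ∃ w, B (a, w) X := by
  obtain ⟨t, ht, h⟩ := h
  exact ⟨fun z X => Inf (t z) X, ⟨t, ht, fun _ _ => Iff.rfl⟩, h⟩

theorem SIA_up1 : Computable fun z : α × ℕ => (z.1, z.2.unpair.1) :=
  Computable.fst.pair (Computable.fst.comp (Computable.unpair.comp Computable.snd))

theorem SIA_up2 : Computable fun z : α × ℕ => (z.1, z.2.unpair.2) :=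
  Computable.fst.pair (Computable.snd.comp (Computable.unpair.comp Computable.snd))

theorem SIA_inf_false (X : ℕ → Bool) : ¬ Inf (fun _ => false) X := by
  intro h
  obtain ⟨s, _, hs⟩ := h 0
  exact Bool.false_ne_true hs

theorem SIA_inf_true (X : ℕ → Bool) : Inf (fun _ => true) X := fun N => ⟨N, le_rfl, rfl⟩

theorem SIA_getD {γ : Type} [Primcodable γ] {l : γ → List ℕ} {i : γ → ℕ} (hl : Computable l)
    (hi : Computable i) : Computable fun c => (l c).getD (i c) 0 := by
  have h : Computable fun c => ((l c)[i c]?).getD 0 :=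
    Computable.option_getD (Computable.list_getElem?.comp hl hi) (Computable.const 0)
  exact h.of_eq fun c => (List.getD_eq_getElem?_getD).symm

theorem S3f.of {A : α → (ℕ → Bool) → Prop} (h : P2f A) : S3f A :=
  P2f.toS3f (h.comp Computable.fst) fun _ _ => ⟨fun h => ⟨0, h⟩, fun ⟨_, h⟩ => h⟩

theorem S3f.not {A : α → (ℕ → Bool) → Prop} (h : P2f A) : S3f fun a X => ¬ A a X := by
  obtain ⟨t, ht, h⟩ := h
  have hc : Computable₂ fun (z : α × ℕ) (σ : List Bool) => decide (σ.length < z.2) || !(t z.1 σ) := by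
    have h1 : Computable fun y : (α × ℕ) × List Bool => decide (y.2.length < y.1.2) :=
      comp_decLt (Computable.list_length.comp Computable.snd) (Computable.snd.comp Computable.fst)
    have h2 : Computable fun y : (α × ℕ) × List Bool => t y.1.1 y.2 :=
      ht.comp (Computable.fst.comp Computable.fst) Computable.snd
    exact comp_or h1 (comp_not h2)
  refine P2f.toS3f (P2f.pi hc) fun a X => ?_
  show ¬ A a X ↔ ∃ w : ℕ, ∀ s, (decide ((pre X s).length < w) || !(t a (pre X s))) = true
  rw [h a X]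
  unfold Inf
  push Not
  refine exists_congr fun w => forall_congr' fun s => ?_
  rw [pre_length]
  by_cases hs : s < w
  · simp [hs]
  · simp [hs, not_lt.1 hs]

theorem S3f.comp {A : β → (ℕ → Bool) → Prop} (h : S3f A) {f : α → β} (hf : Computable f) :
    S3f fun a X => A (f a) X := by
  obtain ⟨B, hB, h⟩ := h.toP2f
  have h1 : Computable fun z : α × ℕ => (f z.1, z.2) := (hf.comp Computable.fst).pair Computable.snd
  exact P2f.toS3f (hB.comp h1) fun a X => h (f a) X

theorem S3f.or {A B : α → (ℕ → Bool) → Prop} (h : S3f A) (h' : S3f B) : S3f fun a X => A a X ∨ B a X := by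
  obtain ⟨A', hA', h⟩ := h.toP2f
  obtain ⟨B', hB', h'⟩ := h'.toP2f
  refine P2f.toS3f ((hA'.comp SIA_up1).or (hB'.comp SIA_up2)) fun a X => ?_
  show A a X ∨ B a X ↔ ∃ w : ℕ, A' (a, w.unpair.1) X ∨ B' (a, w.unpair.2) X
  rw [h a X, h' a X]
  constructor
  · rintro (⟨w, hw⟩ | ⟨w, hw⟩)
    · exact ⟨Nat.pair w 0, Or.inl (by rw [Nat.unpair_pair]; exact hw)⟩
    · exact ⟨Nat.pair 0 w, Or.inr (by rw [Nat.unpair_pair]; exact hw)⟩
  · rintro ⟨w, hw | hw⟩
    · exact Or.inl ⟨_, hw⟩
    · exact Or.inr ⟨_, hw⟩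

theorem S3f.and {A B : α → (ℕ → Bool) → Prop} (h : S3f A) (h' : S3f B) : S3f fun a X => A a X ∧ B a X := by
  obtain ⟨A', hA', h⟩ := h.toP2f
  obtain ⟨B', hB', h'⟩ := h'.toP2f
  refine P2f.toS3f ((hA'.comp SIA_up1).and (hB'.comp SIA_up2)) fun a X => ?_
  show A a X ∧ B a X ↔ ∃ w : ℕ, A' (a, w.unpair.1) X ∧ B' (a, w.unpair.2) X
  rw [h a X, h' a X]
  constructor
  · rintro ⟨⟨w, hw⟩, ⟨v, hv⟩⟩
    exact ⟨Nat.pair w v, by rw [Nat.unpair_pair]; exact ⟨hw, hv⟩⟩
  · rintro ⟨w, hw, hv⟩
    exact ⟨⟨_, hw⟩, ⟨_, hv⟩⟩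

theorem S3f.ex {A : α × β → (ℕ → Bool) → Prop} (h : S3f A) : S3f fun a X => ∃ b, A (a, b) X := by
  obtain ⟨t, ht, h⟩ := h
  have hc : Computable₂ fun (z : α × ℕ) (σ : List Bool) =>
      ((decode (α := β) z.2.unpair.1).map fun b => t ((z.1, b), z.2.unpair.2) σ).getD false := by
    have h1 : Computable fun y : (α × ℕ) × List Bool => decode (α := β) y.1.2.unpair.1 :=
      Computable.decode.comp (Computable.fst.comp (Computable.unpair.comp
        (Computable.snd.comp Computable.fst)))
    have h2 : Computable₂ fun (y : (α × ℕ) × List Bool) (b : β) => t ((y.1.1, b), y.1.2.unpair.2) y.2 := by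
      refine ht.comp (Computable.pair (Computable.pair (Computable.fst.comp (Computable.fst.comp
        Computable.fst)) Computable.snd) (Computable.snd.comp (Computable.unpair.comp
        (Computable.snd.comp (Computable.fst.comp Computable.fst))))) (Computable.snd.comp Computable.fst)
    exact Computable.option_getD (Computable.option_map h1 h2) (Computable.const false)
  refine ⟨_, hc, fun a X => ?_⟩
  constructor
  · rintro ⟨b, hb⟩
    obtain ⟨w, hw⟩ := (h (a, b) X).1 hb
    refine ⟨Nat.pair (encode b) w, ?_⟩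
    simp only [Nat.unpair_pair, encodek, Option.map_some, Option.getD_some]
    exact hw
  · rintro ⟨w, hw⟩
    rcases hd : decode (α := β) w.unpair.1 with _ | b
    · simp only [hd, Option.map_none, Option.getD_none] at hw
      exact absurd hw (SIA_inf_false X)
    · simp only [hd, Option.map_some, Option.getD_some] at hw
      exact ⟨b, (h (a, b) X).2 ⟨_, hw⟩⟩

theorem S3f.ball {A : α × β → (ℕ → Bool) → Prop} (h : S3f A) {L : α → List β} (hL : Computable L) :
    S3f fun a X => ∀ b ∈ L a, A (a, b) X := by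
  obtain ⟨t, ht, h⟩ := h
  have hc : Computable₂ fun (z : (α × ℕ) × ℕ) (σ : List Bool) =>
      (((L z.1.1)[z.2]?).map fun b =>
        t ((z.1.1, b), (Denumerable.ofNat (List ℕ) z.1.2).getD z.2 0) σ).getD true := by
    have h1 : Computable fun y : ((α × ℕ) × ℕ) × List Bool => (L y.1.1.1)[y.1.2]? :=
      Computable.list_getElem?.comp (hL.comp (Computable.fst.comp (Computable.fst.comp Computable.fst)))
        (Computable.snd.comp Computable.fst)
    have h3 : Computable fun y : ((α × ℕ) × ℕ) × List Bool =>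
        (Denumerable.ofNat (List ℕ) y.1.1.2).getD y.1.2 0 :=
      SIA_getD ((Computable.ofNat (List ℕ)).comp (Computable.snd.comp (Computable.fst.comp Computable.fst)))
        (Computable.snd.comp Computable.fst)
    have h2 : Computable₂ fun (y : ((α × ℕ) × ℕ) × List Bool) (b : β) =>
        t ((y.1.1.1, b), (Denumerable.ofNat (List ℕ) y.1.1.2).getD y.1.2 0) y.2 := by
      refine ht.comp (Computable.pair (Computable.pair (Computable.fst.comp (Computable.fst.comp
        (Computable.fst.comp Computable.fst))) Computable.snd) (h3.comp Computable.fst))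
        (Computable.snd.comp Computable.fst)
    exact Computable.option_getD (Computable.option_map h1 h2) (Computable.const true)
  have hP : P2f fun (z : α × ℕ) (X : ℕ → Bool) => ∀ i, Inf (fun σ => (((L z.1)[i]?).map fun b =>
        t ((z.1, b), (Denumerable.ofNat (List ℕ) z.2).getD i 0) σ).getD true) X :=
    P2f.all (A := fun (z : (α × ℕ) × ℕ) (X : ℕ → Bool) => Inf (fun σ => (((L z.1.1)[z.2]?).map fun b =>
        t ((z.1.1, b), (Denumerable.ofNat (List ℕ) z.1.2).getD z.2 0) σ).getD true) X)
      ⟨_, hc, fun _ _ => Iff.rfl⟩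
  refine P2f.toS3f hP fun a X => ?_
  constructor
  · intro hall
    have hex : ∀ i : ℕ, ∃ w : ℕ, ∀ b, (L a)[i]? = some b → Inf (t ((a, b), w)) X := by
      intro i
      rcases hb : (L a)[i]? with _ | b
      · exact ⟨0, fun b hb' => absurd hb' (by simp)⟩
      · obtain ⟨w, hw⟩ := (h (a, b) X).1 (hall b (List.mem_of_getElem? hb))
        refine ⟨w, fun b' hb' => ?_⟩
        rw [← Option.some.inj hb']
        exact hw
    choose f hf using hex
    refine ⟨encode ((List.range (L a).length).map f), fun i => ?_⟩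
    show Inf (fun σ => (((L a)[i]?).map fun b => t ((a, b), (Denumerable.ofNat (List ℕ)
      (encode ((List.range (L a).length).map f))).getD i 0) σ).getD true) X
    rw [Denumerable.ofNat_encode]
    rcases hb : (L a)[i]? with _ | b
    · exact SIA_inf_true X
    · have hi : i < (L a).length := by
        by_contra hcon
        rw [List.getElem?_eq_none (not_lt.1 hcon)] at hb
        exact absurd hb (by simp)
      have hg : ((List.range (L a).length).map f).getD i 0 = f i := by
        rw [List.getD_eq_getElem?_getD, List.getElem?_map, List.getElem?_range hi]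
        rfl
      rw [hg]
      exact hf i b hb
  · rintro ⟨w, hw⟩ b hb
    obtain ⟨i, hi⟩ := List.mem_iff_getElem?.1 hb
    have h1 := hw i
    have h2 : Inf (fun σ => (((L a)[i]?).map fun b => t ((a, b), (Denumerable.ofNat (List ℕ) w).getD i 0)
      σ).getD true) X := h1
    rw [hi] at h2
    exact (h (a, b) X).2 ⟨_, h2⟩

theorem S3f.sub {A : α → (ℕ → Bool) → Prop} (h : S3f A) {l : α → List ℕ} (hl : Computable l) :
    S3f fun a X => ∃ Y, Maps (fnl (l a)) X Y ∧ A a Y := by
  obtain ⟨B, hB, h⟩ := h.toP2f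
  refine P2f.toS3f (hB.sub (hl.comp Computable.fst)) fun a X => ?_
  constructor
  · rintro ⟨Y, hY, hA⟩
    obtain ⟨w, hw⟩ := (h a Y).1 hA
    exact ⟨w, Y, hY, hw⟩
  · rintro ⟨w, Y, hY, hw⟩
    exact ⟨Y, hY, (h a Y).2 ⟨w, hw⟩⟩

end Pool.Agent.OMP
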