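import Pool.Agent.OMP.PRA
import Pool.Agent.OMP.SIA

/-!
# OMP/PRB: the conditions on blocks are Sigma_3

PROOF.  `S3_Per`: given `Orb G X`, `F^[p] X = X` iff `Maps (fnl (rp e p)) X X` (`maps_rp`, `maps_uniq`); `S3f.ex`, `P2f.fix`, `P2f.dec` for `1 ≤ p`.
`S3_Ht`: `Ht G n X` iff `¬ D X ∨ ((Orb ∧ Cc n) ∧ ((∃ m, Orb ∧ ¬ Cc m) ∨ (Orb ∧ Per)))`.  `S3_nHt`: `¬ Ht G n X` iff `D X ∧ (¬ Orb ∨ ((Orb ∧ ¬ Cc n) ∨ ((∀ m, Orb ∧ Cc m) ∧ (Orb ∧ ¬ Per))))` (`S3f.of`, `S3f.not`, `P2f.all`).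
`S3_St`: for `¬ Ht G n X` (so `G.D X`): `κ X + 1 = o` iff `1 ≤ o`, `Maps (fnl [e, o - 1]) X X` and `¬ Maps (fnl [e, k]) X X` for all `k ∈ List.range (o - 1)` (`h.map`, `h.bck`, `h.min`, `maps_cons_iff`, `fn_uniq`; `P2f.fix`, `S3f.not`, `S3f.ball`).
-/

set_option autoImplicit false

namespace Pool.Agent.OMP

open Encodable Nat.Partrec Pool.Agent.H19 Pool.Agent.AEI Pool.Agent.CMG Pool.Agent.CMD

variable {e : ℕ} {t : List Bool → Bool} {G : Dyn} {α : Type} [Primcodable α]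

private theorem s3c7 {β : Type} [Primcodable β] {A B : β → (ℕ → Bool) → Prop} (h : S3f A)
    (hab : ∀ a X, B a X ↔ A a X) : S3f B := by
  obtain ⟨t, ht, h⟩ := h
  exact ⟨t, ht, fun a X => (hab a X).trans (h a X)⟩

theorem S3_Per (h : Rp e t G) : S3f fun (_ : α) X => Orb G X ∧ Per G X := by
  have hc : Computable fun a : α × ℕ => decide (1 ≤ a.2) :=
    (PrimrecRel.decide Primrec.nat_le).to_comp.comp (Computable.const 1) Computable.snd
  have h1 : P2f fun (a : α × ℕ) X =>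
      Orb G X ∧ (decide (1 ≤ a.2) = true ∧ Maps (fnl (rp e a.2)) X X) :=
    (P2_Orb h).and ((P2f.dec hc).and (P2f.fix (comp_rp Computable.snd)))
  refine s3c7 (S3f.ex (S3f.of h1)) fun a X => ?_
  constructor
  · rintro ⟨ho, p, hp, hX⟩
    refine ⟨p, ho, decide_eq_true hp, ?_⟩
    have h2 := maps_rp h (X := X) (j := p) fun i _ => ho i
    rwa [hX] at h2
  · rintro ⟨p, ho, hp, hX⟩
    refine ⟨ho, p, of_decide_eq_true hp, ?_⟩
    exact maps_uniq (maps_rp h (X := X) (j := p) fun i _ => ho i) hX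

theorem S3_Ht (h : Rp e t G) : S3f fun (n : ℕ) X => Ht G n X := by
  have h1 : S3f fun (n : ℕ) X => ∃ m, Orb G X ∧ ¬ Cc G m X :=
    S3f.ex (A := fun (q : ℕ × ℕ) X => Orb G X ∧ ¬ Cc G q.2 X) (S3f.of ((P2_nCc h).comp Computable.snd))
  refine s3c7 ((S3f.not (P2_D h)).or ((S3f.of (P2_Cc h)).and (h1.or (S3_Per h)))) fun n X => ?_
  constructor
  · rintro (hD | ⟨ho, hc, hm | hp⟩)
    · exact Or.inl hD
    · obtain ⟨m, hm⟩ := hm
      exact Or.inr ⟨⟨ho, hc⟩, Or.inl ⟨m, ho, hm⟩⟩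
    · exact Or.inr ⟨⟨ho, hc⟩, Or.inr ⟨ho, hp⟩⟩
  · rintro (hD | ⟨⟨ho, hc⟩, ⟨m, _, hm⟩ | ⟨_, hp⟩⟩)
    · exact Or.inl hD
    · exact Or.inr ⟨ho, hc, Or.inl ⟨m, hm⟩⟩
    · exact Or.inr ⟨ho, hc, Or.inr hp⟩

theorem S3_nHt (h : Rp e t G) : S3f fun (n : ℕ) X => ¬ Ht G n X := by
  have h1 : P2f fun (n : ℕ) X => ∀ m, Orb G X ∧ Cc G m X :=
    P2f.all (A := fun (q : ℕ × ℕ) X => Orb G X ∧ Cc G q.2 X) ((P2_Cc h).comp Computable.snd)
  refine s3c7 ((S3f.of (P2_D h)).and ((S3f.not (P2_Orb h)).or ((S3f.of (P2_nCc h)).or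
    (S3f.of (h1.and (P2_nPer h)))))) fun n X => ?_
  constructor
  · intro hn
    refine ⟨D_of_not_Ht hn, ?_⟩
    by_cases ho : Orb G X
    · by_cases hc : Cc G n X
      · refine Or.inr (Or.inr ⟨fun m => ⟨ho, ?_⟩, ho, fun hp => hn (Or.inr ⟨ho, hc, Or.inr hp⟩)⟩)
        by_contra hm
        exact hn (Or.inr ⟨ho, hc, Or.inl ⟨m, hm⟩⟩)
      · exact Or.inr (Or.inl ⟨ho, hc⟩)
    · exact Or.inl ho
  · rintro ⟨hD, ho | ⟨ho, hc⟩ | ⟨hm, _, hp⟩⟩ (hD' | ⟨ho', hc', hx⟩)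
    · exact hD' hD
    · exact ho ho'
    · exact hD' hD
    · exact hc hc'
    · exact hD' hD
    · rcases hx with ⟨m, hx⟩ | hx
      · exact hx (hm m).2
      · exact hp hx

private theorem mk7 (h : Rp e t G) {X : ℕ → Bool} (hD : G.D X) (k : ℕ) :
    Maps (fnl [e, k]) X X ↔ Maps (fn k) (G.F X) X := by
  rw [maps_cons_iff]
  constructor
  · rintro ⟨Y, h1, h2⟩
    obtain rfl := fn_uniq h1 (h.map X hD)
    obtain ⟨Z, h3, h4⟩ := maps_cons_iff.mp h2
    rwa [maps_nil_iff.mp h4] at h3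
  · intro h1
    exact ⟨G.F X, h.map X hD, maps_cons_iff.mpr ⟨X, h1, maps_nil_iff.mpr rfl⟩⟩

theorem S3_St (h : Rp e t G) : S3f fun (q : ℕ × ℕ) X => St G X q := by
  have hc0 : Computable fun q : ℕ × ℕ => decide (q.2 = 0) :=
    (PrimrecRel.decide Primrec.eq).to_comp.comp Computable.snd (Computable.const 0)
  have hc1 : Computable fun q : ℕ × ℕ => decide (1 ≤ q.2) :=
    (PrimrecRel.decide Primrec.nat_le).to_comp.comp (Computable.const 1) Computable.snd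
  have hl : Computable fun q : ℕ × ℕ => [e, q.2 - 1] :=
    Computable.list_cons.comp (Computable.const e)
      (Computable.list_cons.comp (Primrec.pred.to_comp.comp Computable.snd) (Computable.const []))
  have hl' : Computable fun q : (ℕ × ℕ) × ℕ => [e, q.2] :=
    Computable.list_cons.comp (Computable.const e)
      (Computable.list_cons.comp Computable.snd (Computable.const []))
  have hr : Computable fun q : ℕ × ℕ => List.range (q.2 - 1) :=
    Primrec.list_range.to_comp.comp (Primrec.pred.to_comp.comp Computable.snd)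
  have h1 : S3f fun (q : ℕ × ℕ) X => ∀ k ∈ List.range (q.2 - 1), ¬ Maps (fnl [e, k]) X X :=
    S3f.ball (A := fun (q : (ℕ × ℕ) × ℕ) X => ¬ Maps (fnl [e, q.2]) X X) (S3f.not (P2f.fix hl')) hr
  refine s3c7 (((S3f.of (P2f.dec hc0)).and ((S3_Ht h).comp Computable.fst)).or
    (((S3_nHt h).comp Computable.fst).and ((S3f.of (P2f.dec hc1)).and
      ((S3f.of (P2f.fix hl)).and h1)))) fun q X => ?_
  unfold St
  constructor
  · rintro (⟨h2, h3⟩ | ⟨h2, h3⟩)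
    · exact Or.inl ⟨decide_eq_true h2, h3⟩
    · have hD : G.D X := D_of_not_Ht h2
      refine Or.inr ⟨h2, decide_eq_true (by omega), ?_, fun k hk h4 => ?_⟩
      · rw [mk7 h hD, ← h3, Nat.add_sub_cancel]
        exact h.bck X hD
      · rw [mk7 h hD] at h4
        have h5 := h.min X k hD h4
        have h6 := List.mem_range.mp hk
        omega
  · rintro (⟨h2, h3⟩ | ⟨h2, h3, h4, h5⟩)
    · exact Or.inl ⟨of_decide_eq_true h2, h3⟩
    · have hD : G.D X := D_of_not_Ht h2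
      have h3' : 1 ≤ q.2 := of_decide_eq_true h3
      rw [mk7 h hD] at h4
      have h6 := h.min X _ hD h4
      refine Or.inr ⟨h2, ?_⟩
      by_contra hne
      have h7 : G.κ X < q.2 - 1 := by omega
      exact h5 _ (List.mem_range.mpr h7) ((mk7 h hD _).mpr (h.bck X hD))

end Pool.Agent.OMP
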