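import Pool.Agent.OMP.EXI
import Pool.Agent.OMP.GOO
import Pool.Agent.CMG.PTR

/-!
# OMP/PTH: the abstract theorem

PROOF.  `pointer (good_osys h)` (CMG/PTR) with `W = WX (osys S)`; `left_le_jn` (AEI) for `chi X ≤ chi (W X)`.  For `Nx X Z`: `h.nxl` gives a level, `exists_ptr` a pointer `ν`, `ptr_spec` (GOO) with `h.nxu` gives
`Maps ((osys S).F ν) X Z`; the chain `[ν]` (`Chain.cons`, `Chain.nil`).
-/

set_option autoImplicit false

namespace Pool.Agent.OMP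

open Encodable Nat.Partrec Pool.Agent.H19 Pool.Agent.AEI Pool.Agent.CMG Pool.Agent.CMD

theorem level_theorem {S : HS} {Lv : (ℕ → Bool) → ℕ → Prop} {Nx : (ℕ → Bool) → (ℕ → Bool) → Prop} (h : HOK S Lv Nx) :
    ∃ (r : Code) (W : (ℕ → Bool) → (ℕ → Bool)),
      (∀ X n, (∃ s, (r.eval (encode (n, pre X s))).Dom) ↔ W X n = true) ∧
      (∀ X, TuringReducible (chi X) (chi (W X))) ∧
      (∀ X, ¬ TuringReducible (chi (W X)) (chi X)) ∧
      (∀ X, ¬ TuringReducible (chi (JJ X)) (chi (W X))) ∧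
      ∀ X Z, Nx X Z → TuringReducible (chi (W X)) (chi (W Z)) ∧ TuringReducible (chi (W Z)) (chi (W X)) := by
  obtain ⟨r, h1, h2, h3, h4⟩ := pointer (good_osys h)
  refine ⟨r, WX (osys S), h1, fun X => left_le_jn X _, h2, h3, fun X Z hXZ => ?_⟩
  obtain ⟨m, hm, _⟩ := h.nxl X Z hXZ
  obtain ⟨ν, hν⟩ := exists_ptr h hm
  obtain ⟨_, _, Z', hZ', hF, _⟩ := ptr_spec h hν
  obtain rfl : Z = Z' := h.nxu X Z Z' hXZ hZ'
  exact h4 [ν] X Z (Chain.cons hν hF (Chain.nil Z))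

end Pool.Agent.OMP
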