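import Pool.Agent.OMP.GDK
import Pool.Agent.OMP.CPS

/-!
# OMP/SYS: the pointer system

PROOF.  `compF`, `compG`: `comp_fnl`, `comp_dsc`, `Computable.unpair`.  `compq`: `comp_fir`, `comp_ptk`, `comp_KK`.  `monoF`, `lenF`: `fnl_mono`, `fnl_len`.  `Q_osys`: `fir_inf` (CMD/FIR) with `Gd_ptk`, `Gd_KK`.
-/

set_option autoImplicit false

namespace Pool.Agent.OMP

open Encodable Nat.Partrec Pool.Agent.H19 Pool.Agent.AEI Pool.Agent.CMG Pool.Agent.CMD

private theorem SYS_fst : Computable fun x : ℕ × List Bool => x.1.unpair.1 :=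
  Computable.fst.comp (Computable.unpair.comp Computable.fst)

private theorem SYS_compF (_S : HS) : Computable₂ fun (p : ℕ) (σ : List Bool) => fnl (da (dsc p.unpair.1)) σ := by
  have h1 : Computable fun x : ℕ × List Bool => dsc x.1.unpair.1 := comp_dsc SYS_fst
  exact comp_fnl (Computable.fst.comp (Computable.fst.comp (Computable.snd.comp h1))) Computable.snd

private theorem SYS_compG (_S : HS) : Computable₂ fun (p : ℕ) (σ : List Bool) => fnl (db (dsc p.unpair.1)) σ := by
  have h1 : Computable fun x : ℕ × List Bool => dsc x.1.unpair.1 := comp_dsc SYS_fst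
  exact comp_fnl (Computable.snd.comp (Computable.fst.comp (Computable.snd.comp h1))) Computable.snd

private theorem SYS_compq (S : HS) : Computable₂ fun (p : ℕ) (σ : List Bool) => fir (ptk (KK S) p) σ := by
  have h1 : Computable₂ fun (x : ℕ × List Bool) (τ : List Bool) => ptk (KK S) x.1 τ := by
    refine comp_ptk (g := fun _ : (ℕ × List Bool) × List Bool => KK S) ?_ (Computable.fst.comp Computable.fst)
      Computable.snd
    exact (comp_KK S).comp (Computable.fst.comp Computable.snd) (Computable.snd.comp Computable.snd)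
  exact comp_fir h1 Computable.snd

def osys (S : HS) : PSys where
  F p σ := fnl (da (dsc p.unpair.1)) σ
  G p σ := fnl (db (dsc p.unpair.1)) σ
  q p σ := fir (ptk (KK S) p) σ
  compF := SYS_compF S
  compG := SYS_compG S
  compq := SYS_compq S
  monoF p := fnl_mono (da (dsc p.unpair.1))
  monoG p := fnl_mono (db (dsc p.unpair.1))
  lenF p := fnl_len (da (dsc p.unpair.1))
  lenG p := fnl_len (db (dsc p.unpair.1))

theorem F_osys (S : HS) (p : ℕ) : (osys S).F p = fnl (da (dsc p.unpair.1)) := rfl

theorem G_osys (S : HS) (p : ℕ) : (osys S).G p = fnl (db (dsc p.unpair.1)) := rfl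

theorem Q_osys {S : HS} {ν : ℕ} {X : ℕ → Bool} : Q (osys S) ν X ↔ Hd (ptk (KK S) ν) X :=
  fir_inf (Gd_ptk fun y _ => Gd_KK S y)

end Pool.Agent.OMP
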