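import Pool.Agent.OMP.Defs
import Pool.Agent.CMG.GCC

/-!
# OMP/TAB: recursion along the numbers of the checks is computable

PROOF.  `rcN_eq`: induction on `n` (`rc Ψ z σ = rcN Ψ (z + 1) z σ`; unfold once).  `rc_eq`: `rc Ψ z σ = Ψ (rcN Ψ z) z σ`, then `Loc` with `rcN_eq`.
`comp_rc`: tables, as `comp_fire` in CMG/GCD: for a length `L` let `TB 0 = []`, `TB (n + 1) = TB n ++ [(strsLe L).map fun σ => (σ, Ψ (look (TB n)) n σ)]` where
`look T z ρ = (((T.getD z []).filter fun x => decide (x.1 = ρ)).head?.map Prod.snd).getD (false, 0)`.  By induction on `n`: `|TB n| = n` and `look (TB n) z ρ = rc Ψ z ρ` for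
`z < n`, `|ρ| ≤ L` (`rc_eq`, `Loc`, `mem_strsLe`; all entries of row `z` with first component `ρ` have the same second component).  The map `(L, n) ↦ TB` is computable by `Computable.nat_rec`, `comp_list_map`
and `hc` (with `α := (β × (ℕ × Table)) × List Bool`).  So `rc Ψ z σ = look (TB |σ| (z + 1)) z σ`.
-/

set_option autoImplicit false

namespace Pool.Agent.OMP

open Encodable Nat.Partrec Pool.Agent.H19 Pool.Agent.AEI Pool.Agent.CMG Pool.Agent.CMD

variable {Ψ : (ℕ → List Bool → Chk) → ℕ → List Bool → Chk}

theorem rcN_eq {n z : ℕ} (h : z < n) (σ : List Bool) : rcN Ψ n z σ = rc Ψ z σ := by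
  induction n with
  | zero => omega
  | succ n ih =>
    rcases Nat.lt_succ_iff_lt_or_eq.1 h with h' | rfl
    · have e : rcN Ψ (n + 1) z σ = rcN Ψ n z σ := by
        change (if z = n then _ else _) = _
        rw [if_neg (by omega)]
      rw [e, ih h']
    · rfl

theorem rc_eq (h : Loc Ψ) (z : ℕ) (σ : List Bool) : rc Ψ z σ = Ψ (rc Ψ) z σ := by
  have e : rc Ψ z σ = Ψ (rcN Ψ z) z σ := by
    change (if z = z then _ else _) = _
    rw [if_pos rfl]
  rw [e]
  exact h _ _ _ _ fun y hy ρ _ => rcN_eq hy ρ

private def tab_look (T : List (List (List Bool × Chk))) (z : ℕ) (ρ : List Bool) : Chk :=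
  (((T.getD z []).filter fun x => decide (x.1 = ρ)).head?.map Prod.snd).getD (false, 0)

private def tab_TB (Ψ : (ℕ → List Bool → Chk) → ℕ → List Bool → Chk) (L : ℕ) :
    ℕ → List (List (List Bool × Chk))
  | 0 => []
  | n + 1 => tab_TB Ψ L n ++ [(strsLe L).map fun σ => (σ, Ψ (tab_look (tab_TB Ψ L n)) n σ)]

private theorem tab_length (L n : ℕ) : (tab_TB Ψ L n).length = n := by
  induction n with
  | zero => rfl
  | succ n ih => rw [tab_TB, List.length_append, ih]; rfl

private theorem tab_look_eq (h : Loc Ψ) (L n : ℕ) :
    ∀ m < n, ∀ ρ : List Bool, ρ.length ≤ L → tab_look (tab_TB Ψ L n) m ρ = rc Ψ m ρ := by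
  induction n with
  | zero => intro m hm; omega
  | succ n ih =>
    intro m hm ρ hρ
    rcases Nat.lt_succ_iff_lt_or_eq.1 hm with hm' | rfl
    · rw [← ih m hm' ρ hρ]
      unfold tab_look
      rw [tab_TB, List.getD_append _ _ _ _ (by rw [tab_length]; exact hm')]
    · have e : (tab_TB Ψ L (m + 1)).getD m [] =
          (strsLe L).map fun σ => (σ, Ψ (tab_look (tab_TB Ψ L m)) m σ) := by
        rw [tab_TB, List.getD_append_right _ _ _ _ (by rw [tab_length]), tab_length, Nat.sub_self]
        rfl
      have e2 : Ψ (tab_look (tab_TB Ψ L m)) m ρ = rc Ψ m ρ := by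
        rw [rc_eq h]
        exact h _ _ _ _ fun y hy x hx => ih y hy x (le_trans hx hρ)
      rw [← e2]
      unfold tab_look
      rw [e]
      set l := ((strsLe L).map fun σ => (σ, Ψ (tab_look (tab_TB Ψ L m)) m σ)).filter
        fun x => decide (x.1 = ρ) with hl
      have hmem : (ρ, Ψ (tab_look (tab_TB Ψ L m)) m ρ) ∈ l := by
        rw [hl, List.mem_filter]
        exact ⟨List.mem_map.2 ⟨ρ, mem_strsLe.2 hρ, rfl⟩, decide_eq_true rfl⟩
      cases hc : l with
      | nil => rw [hc] at hmem; exact absurd hmem List.not_mem_nil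
      | cons x t =>
        have hx : x ∈ l := by rw [hc]; exact List.mem_cons_self
        rw [hl, List.mem_filter, List.mem_map] at hx
        obtain ⟨⟨σ, _, rfl⟩, hσ⟩ := hx
        have hσ' : σ = ρ := of_decide_eq_true hσ
        subst hσ'
        rfl

private theorem tab_comp_look {α : Type} [Primcodable α] {T : α → List (List (List Bool × Chk))}
    {m : α → ℕ} {ρ : α → List Bool} (hT : Computable T) (hm : Computable m) (hρ : Computable ρ) :
    Computable fun a => tab_look (T a) (m a) (ρ a) := by
  have h1 : Computable fun a => ((T a).getD (m a) []).filter fun x => decide (x.1 = ρ a) :=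
    comp_list_filter (g := fun a (x : List Bool × Chk) => decide (x.1 = ρ a))
      ((Primrec.list_getD []).to_comp.comp hT hm)
      (comp_decEq (Computable.fst.comp Computable.snd) (hρ.comp Computable.fst))
  have h2 : Computable fun a => (((T a).getD (m a) []).filter fun x => decide (x.1 = ρ a)).head? :=
    Primrec.list_head?.to_comp.comp h1
  have h3 : Computable fun a =>
      ((((T a).getD (m a) []).filter fun x => decide (x.1 = ρ a)).head?.map Prod.snd) :=
    Computable.option_map h2 (Computable.snd.comp Computable.snd)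
  exact Computable.option_getD h3 (Computable.const _)

private theorem tab_comp_TB (hc : CmpF Ψ) {α : Type} [Primcodable α] {L n : α → ℕ}
    (hL : Computable L) (hn : Computable n) : Computable fun a => tab_TB Ψ (L a) (n a) := by
  have hstep : Computable₂ fun (a : α) (q : ℕ × List (List (List Bool × Chk))) =>
      q.2 ++ [(strsLe (L a)).map fun σ => (σ, Ψ (tab_look q.2) q.1 σ)] := by
    have h1 : Computable fun x : α × (ℕ × List (List (List Bool × Chk))) =>
        (strsLe (L x.1)).map fun σ => (σ, Ψ (tab_look x.2.2) x.2.1 σ) := by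
      refine comp_list_map
        (g := fun (x : α × (ℕ × List (List (List Bool × Chk)))) (σ : List Bool) =>
          (σ, Ψ (tab_look x.2.2) x.2.1 σ))
        (comp_strsLe (hL.comp Computable.fst)) ?_
      refine Computable.pair Computable.snd ?_
      refine hc ((α × (ℕ × List (List (List Bool × Chk)))) × List Bool) _
        (fun y => tab_look y.1.2.2) (fun y => y.1.2.1) (fun y => y.2) ?_ ?_ Computable.snd
      · exact tab_comp_look
          (Computable.snd.comp (Computable.snd.comp (Computable.fst.comp Computable.fst)))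
          (Computable.fst.comp Computable.snd) (Computable.snd.comp Computable.snd)
      · exact Computable.fst.comp (Computable.snd.comp Computable.fst)
    exact Computable.list_append.comp (Computable.snd.comp Computable.snd)
      (Computable.list_cons.comp h1 (Computable.const []))
  refine (Computable.nat_rec hn (Computable.const []) hstep).of_eq fun a => ?_
  generalize n a = k
  induction k with
  | zero => rfl
  | succ k ih =>
    rw [tab_TB, ← ih]

theorem comp_rc (h : Loc Ψ) (hc : CmpF Ψ) : Computable₂ (rc Ψ) := by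
  have h1 : Computable fun a : ℕ × List Bool => tab_TB Ψ a.2.length (a.1 + 1) :=
    tab_comp_TB hc (Computable.list_length.comp Computable.snd) (Computable.succ.comp Computable.fst)
  refine (tab_comp_look h1 Computable.fst Computable.snd).of_eq fun a => ?_
  exact tab_look_eq h _ _ _ (Nat.lt_succ_self _) _ le_rfl

end Pool.Agent.OMP
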