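import Pool.Agent.AEI.JMP

/-!
# OMP/TWO: two pairs of reductions are as hard as all

`f = (X to 1X, tail)` and the universal pair `1^n 0 X to 1^n 0 (n.1)(X)`, `1^n 0 Y to 1^n 0 (n.2)(Y)`.
An operator `W` invariant along both pairs gives the invariant operator `X to W (0X)`.
-/

set_option autoImplicit false

namespace Pool.Agent.OMP.TWO

open Encodable Nat.Partrec Pool.Agent.H19 Pool.Agent.AEI

/-- Put the bit `b` in front of `X`. -/
def cn (b : Bool) (X : ℕ → Bool) : ℕ → Bool
  | 0 => b
  | k + 1 => X k

/-- `1^n 0 X`. -/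
def tg : ℕ → (ℕ → Bool) → ℕ → Bool
  | 0, X => cn false X
  | n + 1, X => cn true (tg n X)

theorem pre_succ_cn (b : Bool) (X : ℕ → Bool) (s : ℕ) : pre (cn b X) (s + 1) = b :: pre X s := by
  rw [pre, pre, List.range_succ_eq_map, List.map_cons, List.map_map]
  rfl

theorem pre_zero (X : ℕ → Bool) : pre X 0 = [] := rfl

theorem pre_tg_le (X : ℕ → Bool) : ∀ n s, s ≤ n → pre (tg n X) s = List.replicate s true
  | n, 0, _ => by rw [pre_zero]; rfl
  | 0, s + 1, h => by omega
  | n + 1, s + 1, h => by
    rw [tg, pre_succ_cn, pre_tg_le X n s (by omega), List.replicate_succ]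

theorem pre_tg_gt (X : ℕ → Bool) (t : ℕ) :
    ∀ n, pre (tg n X) (n + 1 + t) = List.replicate n true ++ false :: pre X t
  | 0 => by
    rw [tg, show 0 + 1 + t = t + 1 by omega, pre_succ_cn]
    rfl
  | n + 1 => by
    rw [tg, show n + 1 + 1 + t = (n + 1 + t) + 1 by omega, pre_succ_cn, pre_tg_gt X t n,
      List.replicate_succ, List.cons_append]

theorem idx_le (s : ℕ) : (List.replicate s true).idxOf false = s := by
  have h : false ∉ List.replicate s true := by simp
  rw [List.idxOf_eq_length h, List.length_replicate]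

theorem idx_gt (n : ℕ) (l : List Bool) :
    (List.replicate n true ++ false :: l).idxOf false = n := by
  have h : false ∉ List.replicate n true := by simp
  rw [List.idxOf_append_of_notMem h, List.idxOf_cons_self, List.length_replicate, Nat.add_zero]

theorem tg_lt (X : ℕ → Bool) : ∀ n m, m < n → tg n X m = true
  | 0, m, h => by omega
  | n + 1, 0, _ => rfl
  | n + 1, m + 1, h => tg_lt X n m (by omega)

theorem tg_eq (X : ℕ → Bool) : ∀ n, tg n X n = false
  | 0 => rfl
  | n + 1 => tg_eq X n

theorem tg_gt (X : ℕ → Bool) (m : ℕ) : ∀ n, tg n X (n + 1 + m) = X m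
  | 0 => by
    rw [show 0 + 1 + m = m + 1 by omega]; rfl
  | n + 1 => by
    rw [show n + 1 + 1 + m = (n + 1 + m) + 1 by omega]
    exact tg_gt X m n

/-! ### the codes -/

/-- The functional of a computable family of answers. -/
theorem exists_opt {u : ℕ → List Bool → Option Bool} (hu : Computable₂ u) :
    ∃ c : Code, ∀ X Y : ℕ → Bool, (∀ m s b, u m (pre X s) = some b → b = Y m) →
      (∀ m, ∃ s, u m (pre X s) = some (Y m)) → CodeComputes c X Y := by
  have h1 : Partrec₂ (fun (m : ℕ) (σ : List Bool) =>
      ((u m σ).map (fun b => if b = true then (1 : ℕ) else 0) : Part ℕ)) := by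
    have h2 : Computable (fun x : ℕ × List Bool =>
        (u x.1 x.2).map (fun b => if b = true then (1 : ℕ) else 0)) := by
      refine Computable.option_map (g := fun _ b => if b = true then (1 : ℕ) else 0)
        (hu.comp Computable.fst Computable.snd) ?_
      exact comp_ite (c := fun y : (ℕ × List Bool) × Bool => y.2) Computable.snd
        (Computable.const 1) (Computable.const 0)
    exact Computable.ofOption h2
  obtain ⟨c, hc⟩ := exists_code_of_partrec₂ h1
  refine ⟨c, fun X Y hs he => ⟨fun m s v hv => ?_, fun m => ?_⟩⟩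
  · rw [hc, Part.mem_ofOption, Option.mem_def, Option.map_eq_some_iff] at hv
    obtain ⟨b, hb, rfl⟩ := hv
    rw [hs m s b hb]
  · obtain ⟨s, h⟩ := he m
    refine ⟨s, ?_⟩
    rw [hc, Part.mem_ofOption, Option.mem_def, h]
    rfl

theorem exists_cons (b : Bool) : ∃ c : Code, ∀ X : ℕ → Bool, CodeComputes c X (cn b X) := by
  have hu : Computable₂ (fun (m : ℕ) (σ : List Bool) => (b :: σ)[m]?) :=
    Computable.list_getElem?.comp (Computable.list_cons.comp (Computable.const b) Computable.snd)
      Computable.fst
  obtain ⟨c, hc⟩ := exists_opt hu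
  refine ⟨c, fun X => hc X (cn b X) (fun m s v hv => ?_) fun m => ⟨m, ?_⟩⟩
  · rw [← pre_succ_cn] at hv
    by_cases h : m < s + 1
    · rw [pre_getElem? _ h, Option.some_inj] at hv
      exact hv.symm
    · rw [List.getElem?_eq_none (by rw [pre_length]; omega)] at hv
      simp at hv
  · rw [← pre_succ_cn, pre_getElem? _ (Nat.lt_succ_self m)]

theorem exists_tail : ∃ c : Code, ∀ (b : Bool) (X : ℕ → Bool), CodeComputes c (cn b X) X := by
  have hu : Computable₂ (fun (m : ℕ) (σ : List Bool) => σ[m + 1]?) :=
    Computable.list_getElem?.comp Computable.snd (Computable.succ.comp Computable.fst)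
  obtain ⟨c, hc⟩ := exists_opt hu
  refine ⟨c, fun b X => hc (cn b X) X (fun m s v hv => ?_) fun m => ⟨m + 2, ?_⟩⟩
  · by_cases h : m + 1 < s
    · rw [pre_getElem? _ h, Option.some_inj] at hv
      exact hv.symm
    · rw [List.getElem?_eq_none (by rw [pre_length]; omega)] at hv
      simp at hv
  · rw [pre_getElem? _ (by omega)]
    rfl

/-- The universal functional under the tag. -/
theorem exists_univ {k : ℕ → ℕ} (hk : Computable k) : ∃ c : Code,
    ∀ (n : ℕ) (e : Code) (X Y : ℕ → Bool), k n = encode e → CodeComputes e X Y →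
      CodeComputes c (tg n X) (tg n Y) := by
  have hi : Computable (fun x : ℕ × List Bool => x.2.idxOf false) :=
    (Primrec.list_idxOf.comp (Primrec.const false) Primrec.snd).to_comp
  have h1 : Partrec₂ (fun (m : ℕ) (σ : List Bool) =>
      cond (decide (σ.idxOf false < σ.length))
        (cond (decide (m < σ.idxOf false)) (Part.some 1 : Part ℕ)
          (cond (decide (m = σ.idxOf false)) (Part.some 0)
            ((Denumerable.ofNat Code (k (σ.idxOf false))).eval
              (encode (m - σ.idxOf false - 1, σ.drop (σ.idxOf false + 1))))))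
        Part.none) := by
    refine Partrec.cond (comp_decLt hi (Computable.list_length.comp Computable.snd)) ?_
      Partrec.none
    refine Partrec.cond (comp_decLt Computable.fst hi) (Computable.const 1) ?_
    refine Partrec.cond (comp_decEq Computable.fst hi) (Computable.const 0) ?_
    have h2 : Computable (fun x : ℕ × List Bool =>
        Denumerable.ofNat Code (k (x.2.idxOf false))) :=
      (Computable.ofNat Code).comp (hk.comp hi)
    have hsub : Computable (fun x : ℕ × List Bool => x.1 - x.2.idxOf false - 1) := by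
      have hp : Computable₂ (fun a b : ℕ => a - b) := Primrec.nat_sub.to_comp
      exact hp.comp (hp.comp Computable.fst hi) (Computable.const 1)
    have h3 : Computable (fun x : ℕ × List Bool =>
        encode (x.1 - x.2.idxOf false - 1, x.2.drop (x.2.idxOf false + 1))) :=
      Computable.encode.comp (Computable.pair hsub
        (comp_drop (Computable.succ.comp hi) Computable.snd))
    exact Nat.Partrec.Code.eval_part.comp h2 h3
  obtain ⟨c, hc⟩ := exists_code_of_partrec₂ h1
  have hlen : ∀ (n t : ℕ) (X : ℕ → Bool),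
      n < (List.replicate n true ++ false :: pre X t).length := by
    intro n t X
    rw [List.length_append, List.length_replicate, List.length_cons]
    omega
  have hdrop : ∀ (n t : ℕ) (X : ℕ → Bool),
      (List.replicate n true ++ false :: pre X t).drop (n + 1) = pre X t := by
    intro n t X
    rw [List.drop_append, List.length_replicate,
      List.drop_of_length_le (by rw [List.length_replicate]; omega), Nat.add_sub_cancel_left]
    rfl
  refine ⟨c, fun n e X Y hn he => ⟨fun m s v hv => ?_, fun m => ?_⟩⟩
  · rw [hc] at hv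
    rcases Nat.lt_or_ge n s with h | h
    · obtain ⟨t, rfl⟩ := Nat.exists_eq_add_of_le (Nat.succ_le_of_lt h)
      rw [pre_tg_gt, idx_gt, hdrop, decide_eq_true (hlen n t X), cond_true] at hv
      rcases lt_trichotomy m n with h2 | h2 | h2
      · rw [decide_eq_true h2, cond_true, Part.mem_some_iff] at hv
        rw [hv, tg_lt Y n m h2]
        rfl
      · subst h2
        rw [decide_eq_false (lt_irrefl m), cond_false, decide_eq_true rfl, cond_true,
          Part.mem_some_iff] at hv
        rw [hv, tg_eq]
        rfl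
      · obtain ⟨m', rfl⟩ := Nat.exists_eq_add_of_le (Nat.succ_le_of_lt h2)
        rw [decide_eq_false (by omega), cond_false, decide_eq_false (by omega), cond_false, hn,
          Denumerable.ofNat_encode, show n.succ + m' - n - 1 = m' by omega] at hv
        rw [he.1 m' t v hv]
        congr 1
        rw [show n.succ + m' = n + 1 + m' from rfl, tg_gt]
    · rw [pre_tg_le X n s h, idx_le, List.length_replicate, decide_eq_false (lt_irrefl s),
        cond_false] at hv
      exact absurd hv (Part.notMem_none v)
  · rcases lt_trichotomy m n with h2 | h2 | h2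
    · refine ⟨n + 1 + 0, ?_⟩
      rw [hc, pre_tg_gt, idx_gt, decide_eq_true (hlen n 0 X), cond_true, decide_eq_true h2,
        cond_true, tg_lt Y n m h2]
      exact Part.mem_some _
    · subst h2
      refine ⟨m + 1 + 0, ?_⟩
      rw [hc, pre_tg_gt, idx_gt, decide_eq_true (hlen m 0 X), cond_true,
        decide_eq_false (lt_irrefl m), cond_false, decide_eq_true rfl, cond_true, tg_eq]
      exact Part.mem_some _
    · obtain ⟨m', rfl⟩ := Nat.exists_eq_add_of_le (Nat.succ_le_of_lt h2)
      obtain ⟨t, ht⟩ := he.2 m'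
      refine ⟨n + 1 + t, ?_⟩
      rw [hc, pre_tg_gt, idx_gt, hdrop, decide_eq_true (hlen n t X), cond_true,
        decide_eq_false (by omega), cond_false, decide_eq_false (by omega), cond_false, hn,
        Denumerable.ofNat_encode, show n.succ + m' - n - 1 = m' by omega,
        show n.succ + m' = n + 1 + m' from rfl, tg_gt]
      exact ht

/-! ### degrees -/

theorem le_cn (b : Bool) (X : ℕ → Bool) : TuringReducible (chi X) (chi (cn b X)) := by
  obtain ⟨c, hc⟩ := exists_tail
  exact turingReducible_iff.2 ⟨c, hc b X⟩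

theorem cn_le (b : Bool) (X : ℕ → Bool) : TuringReducible (chi (cn b X)) (chi X) := by
  obtain ⟨c, hc⟩ := exists_cons b
  exact turingReducible_iff.2 ⟨c, hc X⟩

/-- `(bX)' ≤_T X'`. -/
theorem JJ_cn_le (b : Bool) (X : ℕ → Bool) :
    TuringReducible (chi (JJ (cn b X))) (chi (JJ X)) := by
  have ht : Computable₂ (fun (p : ℕ) (σ : List Bool) => jap p ((b :: σ).take σ.length)) :=
    comp_jap Computable.fst (comp_take (Computable.list_length.comp Computable.snd)
      (Computable.list_cons.comp (Computable.const b) Computable.snd))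
  obtain ⟨c, hc⟩ := exists_code_dom ht
  refine code_le_JJ (c := c) fun p => ?_
  rw [JJ_iff]
  refine exists_congr fun s => ?_
  rw [hc, pre_length, ← pre_succ_cn, pre_take _ (Nat.le_succ s)]

/-- `X' ≤_T (bX)'`. -/
theorem JJ_le_cn (b : Bool) (X : ℕ → Bool) :
    TuringReducible (chi (JJ X)) (chi (JJ (cn b X))) := by
  have ht : Computable₂ (fun (p : ℕ) (σ : List Bool) => jap p (σ.drop 1)) :=
    comp_jap Computable.fst (comp_drop (Computable.const 1) Computable.snd)
  obtain ⟨c, hc⟩ := exists_code_dom ht
  refine code_le_JJ (c := c) fun p => ?_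
  rw [JJ_iff]
  constructor
  · rintro ⟨s, hs⟩
    rw [hc] at hs
    rcases s with _ | s
    · exact ⟨0, hs⟩
    · rw [pre_succ_cn] at hs
      exact ⟨s, hs⟩
  · rintro ⟨s, hs⟩
    refine ⟨s + 1, ?_⟩
    rw [hc, pre_succ_cn]
    exact hs

/-- The code of the operator `X to W (bX)`. -/
theorem exists_shift (b : Bool) (r : Code) : ∃ r' : Code, ∀ (X : ℕ → Bool) (n : ℕ),
    (∃ s, (r'.eval (encode (n, pre X s))).Dom) ↔ ∃ s, (r.eval (encode (n, pre (cn b X) s))).Dom := by
  have h1 : Partrec₂ (fun (n : ℕ) (σ : List Bool) =>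
      r.eval (encode (n, (b :: σ).take σ.length))) := by
    refine Nat.Partrec.Code.eval_part.comp (Computable.const r) ?_
    exact Computable.encode.comp (Computable.pair Computable.fst
      (comp_take (Computable.list_length.comp Computable.snd)
        (Computable.list_cons.comp (Computable.const b) Computable.snd)))
  obtain ⟨r', hr⟩ := exists_code_of_partrec₂ h1
  refine ⟨r', fun X n => exists_congr fun s => ?_⟩
  rw [hr, pre_length, ← pre_succ_cn, pre_take _ (Nat.le_succ s)]

/-- Two explicit pairs of reductions which are as hard as all. -/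
theorem exists_pairs : ∃ c₁ d₁ c₂ d₂ : Code,
    ∀ E : (ℕ → Bool) → (ℕ → Bool) → Prop,
      (∀ X, E X X) → (∀ X Y Z, E X Y → E Y Z → E X Z) → (∀ X Y, E X Y → E Y X) →
      (∀ X Y, CodeComputes c₁ X Y → CodeComputes d₁ Y X → E X Y) →
      (∀ X Y, CodeComputes c₂ X Y → CodeComputes d₂ Y X → E X Y) →
      ∀ X Y, TuringReducible (chi X) (chi Y) → TuringReducible (chi Y) (chi X) →
        E (cn false X) (cn false Y) := by
  obtain ⟨c₁, h1⟩ := exists_cons true
  obtain ⟨d₁, h2⟩ := exists_tail
  obtain ⟨c₂, h3⟩ := exists_univ (k := fun n => n.unpair.1)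
    (Computable.fst.comp Computable.unpair)
  obtain ⟨d₂, h4⟩ := exists_univ (k := fun n => n.unpair.2)
    (Computable.snd.comp Computable.unpair)
  refine ⟨c₁, d₁, c₂, d₂, fun E hr ht hs he1 he2 X Y hXY hYX => ?_⟩
  have htg : ∀ (Z : ℕ → Bool) (n : ℕ), E (cn false Z) (tg n Z) := by
    intro Z n
    induction n with
    | zero => exact hr _
    | succ n ih => exact ht _ _ _ ih (he1 _ _ (h1 _) (h2 true _))
  obtain ⟨a, ha⟩ := turingReducible_iff.1 hYX
  obtain ⟨b, hb⟩ := turingReducible_iff.1 hXY
  have h5 := h3 (Nat.pair (encode a) (encode b)) a X Y (by rw [Nat.unpair_pair]) ha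
  have h6 := h4 (Nat.pair (encode a) (encode b)) b Y X (by rw [Nat.unpair_pair]) hb
  exact ht _ _ _ (ht _ _ _ (htg X _) (he2 _ _ h5 h6)) (hs _ _ (htg Y _))

end Pool.Agent.OMP.TWO
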